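import Mathlib

section

/-! # Planes with a group regular off a line (MP_308a3a_co): basic facts -/

set_option autoImplicit false

open Configuration Finset

namespace PPN

/-- `G` acts by collineations, fixes `L` and is sharply transitive on the points off `L`. -/
structure Reg (P : Type) {Ln : Type} (G : Type) [Membership P Ln] [Group G] [MulAction G P]
    [MulAction G Ln] (L : Ln) : Prop where
  inc : ∀ (g : G) (p : P) (l : Ln), p ∈ l ↔ g • p ∈ g • l
  fixL : ∀ g : G, g • L = L
  reg : ∀ p q : P, p ∉ L → q ∉ L → ∃! g : G, g • p = q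

section Basic

variable {P Ln : Type} [Membership P Ln] [Fintype P] [Fintype Ln] [ProjectivePlane P Ln]

theorem line_unique {p q : P} {l m : Ln} (hpq : p ≠ q) (h1 : p ∈ l) (h2 : q ∈ l) (h3 : p ∈ m)
    (h4 : q ∈ m) : l = m :=
  (Nondegenerate.eq_or_eq h1 h2 h3 h4).resolve_left hpq

theorem point_unique {p q : P} {l m : Ln} (hlm : l ≠ m) (h1 : p ∈ l) (h2 : p ∈ m) (h3 : q ∈ l)
    (h4 : q ∈ m) : p = q :=
  (Nondegenerate.eq_or_eq h1 h3 h2 h4).resolve_right hlm

theorem exists_line (p q : P) (hpq : p ≠ q) : ∃ l : Ln, p ∈ l ∧ q ∈ l :=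
  ⟨HasLines.mkLine hpq, HasLines.mkLine_ax hpq⟩

theorem exists_point {l m : Ln} (hlm : l ≠ m) : ∃ p : P, p ∈ l ∧ p ∈ m :=
  ⟨HasPoints.mkPoint hlm, HasPoints.mkPoint_ax hlm⟩

open Classical in
theorem card_lines_through (p : P) :
    (univ.filter (fun l : Ln => p ∈ l)).card = ProjectivePlane.order P Ln + 1 := by
  rw [← ProjectivePlane.lineCount_eq (L := Ln) p, lineCount, Nat.card_eq_fintype_card,
    Fintype.card_subtype]

open Classical in
theorem card_points_on (l : Ln) :
    (univ.filter (fun p : P => p ∈ l)).card = ProjectivePlane.order P Ln + 1 := by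
  rw [← ProjectivePlane.pointCount_eq (P := P) l, pointCount, Nat.card_eq_fintype_card,
    Fintype.card_subtype]

open Classical in
theorem card_join {p q : P} (hpq : p ≠ q) :
    (univ.filter (fun l : Ln => p ∈ l ∧ q ∈ l)).card = 1 := by
  obtain ⟨l, hl⟩ := exists_line (Ln := Ln) p q hpq
  rw [card_eq_one]
  refine ⟨l, ?_⟩
  ext m
  simp only [mem_filter, mem_univ, true_and, mem_singleton]
  constructor
  · rintro ⟨h1, h2⟩
    exact line_unique hpq h1 h2 hl.1 hl.2
  · rintro rfl
    exact hl

open Classical in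
theorem card_meet {l m : Ln} (hlm : l ≠ m) :
    (univ.filter (fun p : P => p ∈ l ∧ p ∈ m)).card = 1 := by
  obtain ⟨p, hp⟩ := exists_point (P := P) hlm
  rw [card_eq_one]
  refine ⟨p, ?_⟩
  ext q
  simp only [mem_filter, mem_univ, true_and, mem_singleton]
  constructor
  · rintro ⟨h1, h2⟩
    exact point_unique hlm h1 h2 hp.1 hp.2
  · rintro rfl
    exact hp

end Basic

section Block

variable {P Ln G : Type} [Membership P Ln] [Fintype P] [Fintype Ln] [ProjectivePlane P Ln]
  [Group G] [MulAction G P] [MulAction G Ln]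

open Classical in
/-- a collineation has as many fixed points as fixed lines -/
theorem card_fixed_eq (hinc : ∀ (g : G) (p : P) (l : Ln), p ∈ l ↔ g • p ∈ g • l) (g : G) :
    (univ.filter (fun p : P => g • p = p)).card = (univ.filter (fun l : Ln => g • l = l)).card := by
  have h1 : ∑ p : P, (univ.filter (fun l : Ln => p ∈ l ∧ g • p ∈ l)).card
      = ∑ l : Ln, (univ.filter (fun p : P => p ∈ l ∧ g • p ∈ l)).card := by
    simp only [card_filter]
    rw [sum_comm]
  have h2 : ∀ p : P, (univ.filter (fun l : Ln => p ∈ l ∧ g • p ∈ l)).card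
      = 1 + if g • p = p then ProjectivePlane.order P Ln else 0 := by
    intro p
    by_cases hp : g • p = p
    · rw [if_pos hp, hp]
      simp only [and_self]
      rw [card_lines_through, add_comm]
    · rw [if_neg hp, card_join (Ne.symm hp)]
  have h3 : ∀ l : Ln, (univ.filter (fun p : P => p ∈ l ∧ g • p ∈ l)).card
      = 1 + if g • l = l then ProjectivePlane.order P Ln else 0 := by
    intro l
    have h4 : ∀ p : P, g • p ∈ l ↔ p ∈ g⁻¹ • l := by
      intro p
      rw [hinc g p (g⁻¹ • l), smul_inv_smul]
    simp only [h4]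
    by_cases hl : g • l = l
    · have h5 : g⁻¹ • l = l := by
        rw [inv_smul_eq_iff, hl]
      rw [if_pos hl, h5]
      simp only [and_self]
      rw [card_points_on, add_comm]
    · have h5 : l ≠ g⁻¹ • l := by
        intro hc
        apply hl
        rw [← smul_eq_iff_eq_inv_smul] at hc
        exact hc
      rw [if_neg hl, card_meet h5]
  simp only [h2, h3, sum_add_distrib] at h1
  have h6 : Fintype.card P = Fintype.card Ln := ProjectivePlane.card_points_eq_card_lines P Ln
  simp only [sum_const, card_univ, smul_eq_mul, mul_one, h6, add_right_inj,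
    ← sum_filter] at h1
  exact Nat.eq_of_mul_eq_mul_right (lt_trans Nat.zero_lt_one (ProjectivePlane.one_lt_order P Ln)) h1

open Classical in
/-- Block's lemma -/
theorem card_orbits_eq [Fintype G] (hinc : ∀ (g : G) (p : P) (l : Ln), p ∈ l ↔ g • p ∈ g • l) :
    Fintype.card (Quotient (MulAction.orbitRel G P))
      = Fintype.card (Quotient (MulAction.orbitRel G Ln)) := by
  have h1 := MulAction.sum_card_fixedBy_eq_card_orbits_mul_card_group G P
  have h2 := MulAction.sum_card_fixedBy_eq_card_orbits_mul_card_group G Ln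
  have h3 : ∑ g : G, Fintype.card (MulAction.fixedBy P g)
      = ∑ g : G, Fintype.card (MulAction.fixedBy Ln g) := by
    apply sum_congr rfl
    intro g _
    have := card_fixed_eq hinc g
    rw [← Fintype.card_subtype, ← Fintype.card_subtype] at this
    exact this
  rw [h1, h2] at h3
  exact Nat.eq_of_mul_eq_mul_right Fintype.card_pos h3

end Block

section RegSec

variable {P Ln G : Type} [Membership P Ln] [Fintype P] [Fintype Ln] [ProjectivePlane P Ln]
  [Group G] [MulAction G P] [MulAction G Ln] {L : Ln}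

omit [Fintype P] [Fintype Ln] [ProjectivePlane P Ln] in
theorem Reg.off (h : Reg P G L) (g : G) {p : P} : g • p ∉ L ↔ p ∉ L := by
  have := h.inc g p L
  rw [h.fixL g] at this
  exact not_congr this.symm

omit [Fintype P] [Fintype Ln] [ProjectivePlane P Ln] in
theorem Reg.inj (h : Reg P G L) {o : P} (ho : o ∉ L) : Function.Injective (fun g : G => g • o) := by
  intro g g' hgg
  obtain ⟨k, _, hk⟩ := h.reg o (g • o) ho ((h.off g).2 ho)
  rw [hk g rfl, hk g' (by exact hgg.symm)]

omit [Fintype Ln] [ProjectivePlane P Ln] in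
theorem Reg.finite (h : Reg P G L) {o : P} (ho : o ∉ L) : Finite G :=
  Finite.of_injective _ (h.inj ho)

omit [Fintype P] [Fintype Ln] in
theorem exists_off (L : Ln) : ∃ o : P, o ∉ L := Nondegenerate.exists_point L

open Classical in
theorem card_off (L : Ln) :
    (univ.filter (fun p : P => p ∉ L)).card = ProjectivePlane.order P Ln ^ 2 := by
  have h1 : (univ.filter (fun p : P => p ∈ L)).card + (univ.filter (fun p : P => p ∉ L)).card
      = Fintype.card P := by
    rw [card_filter_add_card_filter_not, card_univ]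
  rw [card_points_on, ProjectivePlane.card_points P Ln] at h1
  omega

open Classical in
theorem Reg.card_G [Fintype G] (h : Reg P G L) :
    Fintype.card G = ProjectivePlane.order P Ln ^ 2 := by
  obtain ⟨o, ho⟩ := exists_off (P := P) L
  rw [← card_off (P := P) L, ← card_univ]
  apply card_bij (fun g _ => g • o)
  · intro g _
    simp only [mem_filter, mem_univ, true_and]
    exact (h.off g).2 ho
  · intro g _ g' _ hgg
    exact h.inj ho hgg
  · intro p hp
    simp only [mem_filter, mem_univ, true_and] at hp
    obtain ⟨g, hg, _⟩ := h.reg o p ho hp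
    exact ⟨g, mem_univ _, hg⟩

open Classical in
/-- the elements of `G` which move `o` to the line `l` -/
noncomputable def DD (G : Type) {P Ln : Type} [Membership P Ln] [Group G] [MulAction G P]
    [Fintype G] (o : P) (l : Ln) : Finset G := univ.filter (fun g => g • o ∈ l)

omit [Fintype P] [Fintype Ln] [ProjectivePlane P Ln] [MulAction G Ln] in
theorem mem_DD [Fintype G] {o : P} {l : Ln} {g : G} : g ∈ DD G o l ↔ g • o ∈ l := by
  simp [DD]

open Classical in
theorem card_aff {l : Ln} (hl : l ≠ L) :
    (univ.filter (fun p : P => p ∈ l ∧ p ∉ L)).card = ProjectivePlane.order P Ln := by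
  have h1 : (univ.filter (fun p : P => p ∈ l ∧ p ∈ L)).card
      + (univ.filter (fun p : P => p ∈ l ∧ p ∉ L)).card
      = (univ.filter (fun p : P => p ∈ l)).card := by
    rw [← filter_filter, ← filter_filter, card_filter_add_card_filter_not]
  rw [card_meet hl, card_points_on] at h1
  omega

open Classical in
theorem Reg.card_DD [Fintype G] (h : Reg P G L) {o : P} (ho : o ∉ L) {l : Ln} (hl : l ≠ L) :
    (DD G o l).card = ProjectivePlane.order P Ln := by
  rw [← card_aff (P := P) hl]
  apply card_bij (fun g _ => g • o)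
  · intro g hg
    simp only [mem_filter, mem_univ, true_and]
    exact ⟨mem_DD.1 hg, (h.off g).2 ho⟩
  · intro g _ g' _ hgg
    exact h.inj ho hgg
  · intro p hp
    simp only [mem_filter, mem_univ, true_and] at hp
    obtain ⟨g, hg, _⟩ := h.reg o p ho hp.2
    exact ⟨g, mem_DD.2 (hg ▸ hp.1), hg⟩

/-- the stabiliser of a point `X` of `L` is transitive on the other lines through `X` -/
theorem Reg.trans (h : Reg P G L) {X : P} (hX : X ∈ L) {l m : Ln} (hl : X ∈ l) (hm : X ∈ m)
    (hlL : l ≠ L) (hmL : m ≠ L) : ∃ g : G, g • l = m ∧ g • X = X := by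
  classical
  obtain ⟨o, ho⟩ := exists_off (P := P) L
  haveI : Finite G := h.finite ho
  letI : Fintype G := Fintype.ofFinite G
  let f : Ln → Quotient (MulAction.orbitRel G P) := fun l =>
    if hl : l = L then Quotient.mk'' o else Quotient.mk'' (HasPoints.mkPoint hl)
  have hf1 : ∀ (l : Ln) (Y : P), l ≠ L → Y ∈ l → Y ∈ L → f l = Quotient.mk'' Y := by
    intro l Y hl h1 h2
    have h3 : HasPoints.mkPoint hl = Y :=
      point_unique hl (HasPoints.mkPoint_ax hl).1 (HasPoints.mkPoint_ax hl).2 h1 h2
    simp only [f, dif_neg hl, h3]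
  have hinv : ∀ (g : G) (l : Ln), l ≠ L → g • l ≠ L := by
    intro g l hl hc
    apply hl
    have := congrArg (fun x => g⁻¹ • x) hc
    simp only [inv_smul_smul, h.fixL] at this
    exact this
  have hwd : ∀ a b : Ln, (MulAction.orbitRel G Ln) a b → f a = f b := by
    intro a b hab
    obtain ⟨g, hg⟩ := hab
    have hg' : g • b = a := hg
    by_cases hb : b = L
    · rw [← hg', hb, h.fixL]
    · have ha : a ≠ L := hg' ▸ hinv g b hb
      obtain ⟨Y, hY1, hY2⟩ := exists_point (P := P) hb
      have hY3 : g • Y ∈ a := hg' ▸ (h.inc g Y b).1 hY1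
      have hY4 : g • Y ∈ L := by
        have := (h.inc g Y L).1 hY2
        rwa [h.fixL] at this
      rw [hf1 b Y hb hY1 hY2, hf1 a (g • Y) ha hY3 hY4]
      exact Quotient.sound' ⟨g, rfl⟩
  let F : Quotient (MulAction.orbitRel G Ln) → Quotient (MulAction.orbitRel G P) :=
    Quotient.lift f hwd
  have hsurj : Function.Surjective F := by
    intro y
    induction y using Quotient.inductionOn' with
    | h p =>
      by_cases hp : p ∈ L
      · have hpo : p ≠ o := fun hc => ho (hc ▸ hp)
        obtain ⟨l, hl1, hl2⟩ := exists_line (Ln := Ln) p o hpo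
        have hlL' : l ≠ L := fun hc => ho (hc ▸ hl2)
        refine ⟨Quotient.mk'' l, ?_⟩
        exact hf1 l p hlL' hl1 hp
      · refine ⟨Quotient.mk'' L, ?_⟩
        have h1 : F (Quotient.mk'' L) = Quotient.mk'' o := by
          show f L = _
          simp [f]
        rw [h1]
        obtain ⟨g, hg, _⟩ := h.reg p o hp ho
        exact Quotient.sound' ⟨g, hg⟩
  have hbij : Function.Bijective F :=
    (Fintype.bijective_iff_surjective_and_card F).2 ⟨hsurj, (card_orbits_eq h.inc).symm⟩
  have h1 : F (Quotient.mk'' m) = F (Quotient.mk'' l) := by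
    show f m = f l
    rw [hf1 m X hmL hm hX, hf1 l X hlL hl hX]
  have h2 := hbij.1 h1
  obtain ⟨g, hg⟩ := Quotient.exact' h2
  have hg' : g • l = m := hg
  refine ⟨g, hg', ?_⟩
  have h3 : g • X ∈ m := hg' ▸ (h.inc g X l).1 hl
  have h4 : g • X ∈ L := by
    have := (h.inc g X L).1 hX
    rwa [h.fixL] at this
  exact point_unique hmL h3 h4 hm hX

end RegSec

end PPN
end

section

section

/-! # Group algebras in characteristic `q` of `Q × A`, `Q` a `q`-group, `A` abelian of order prime to `q` -/

set_option autoImplicit false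

open Finset

namespace PPN

open MonoidAlgebra

section Ker

variable {R Γ Γ' : Type} [CommRing R] [Group Γ] [Group Γ']

theorem ker_span (ψ : Γ →* Γ') (z : Γ) (hker : ∀ g, ψ g = 1 → ∃ i : ℕ, g = z ^ i)
    (w : MonoidAlgebra R Γ) (hw : mapDomain ψ w = 0) :
    ∃ v : MonoidAlgebra R Γ, w = v * (single z 1 - 1) := by
  classical
  set I : Ideal (MonoidAlgebra R Γ) := Ideal.span {single z 1 - 1} with hI
  obtain ⟨s, hs⟩ : ∃ s : Γ' → Γ, ∀ g, ψ (s (ψ g)) = ψ g := by
    refine ⟨fun y => if h : ∃ g, ψ g = y then h.choose else 1, fun g => ?_⟩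
    have h : ∃ g', ψ g' = ψ g := ⟨g, rfl⟩
    simp only [dif_pos h]
    exact h.choose_spec
  have key : ∀ w : MonoidAlgebra R Γ, w - mapDomain s (mapDomain ψ w) ∈ I := by
    intro w
    induction w using MonoidAlgebra.induction_linear with
    | zero => simp
    | add x y hx hy =>
      have : x + y - mapDomain s (mapDomain ψ (x + y))
          = (x - mapDomain s (mapDomain ψ x)) + (y - mapDomain s (mapDomain ψ y)) := by
        rw [mapDomain_add, mapDomain_add]
        abel
      rw [this]
      exact I.add_mem hx hy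
    | single m r =>
      rw [mapDomain_single, mapDomain_single]
      have h1 : ψ ((s (ψ m))⁻¹ * m) = 1 := by
        rw [map_mul, map_inv, hs, inv_mul_cancel]
      obtain ⟨i, hi⟩ := hker _ h1
      have h2 : m = s (ψ m) * z ^ i := by rw [← hi, mul_inv_cancel_left]
      have h3 : (single m r : MonoidAlgebra R Γ) - single (s (ψ m)) r
          = (single (s (ψ m)) r * ∑ j ∈ range i, single z 1 ^ j) * (single z 1 - 1) := by
        rw [mul_assoc, geom_sum_mul, mul_sub, mul_one, single_pow, single_mul_single, ← h2]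
        simp
      rw [h3]
      exact I.mul_mem_left _ (Ideal.subset_span rfl)
  have h1 := key w
  rw [hw, mapDomain_zero, sub_zero, hI, Ideal.mem_span_singleton'] at h1
  obtain ⟨v, hv⟩ := h1
  exact ⟨v, hv.symm⟩

end Ker

section Char

variable {q : ℕ} [hq : Fact q.Prime] {Γ : Type} [Group Γ]

instance charP_MA : CharP (MonoidAlgebra (ZMod q) Γ) q :=
  charP_of_injective_algebraMap' (ZMod q) q

theorem nil_step (z : Γ) (hz : ∀ g, Commute z g) (hzq : z ^ q = 1)
    (v : MonoidAlgebra (ZMod q) Γ) : (v * (single z 1 - 1)) ^ q = 0 := by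
  have h1 : Commute v (single z 1 - 1 : MonoidAlgebra (ZMod q) Γ) := by
    apply Commute.sub_right _ (Commute.one_right _)
    exact (single_commute hz (fun r => Commute.all _ _) v).symm
  rw [h1.mul_pow, sub_pow_char_of_commute _ (Commute.one_right _), single_pow, hzq, one_pow,
    one_pow, ← one_def, sub_self, mul_zero]

end Char

/-- elements of augmentation `0` (relative to `Q`) are nilpotent -/
theorem nil_aug {q : ℕ} [hq : Fact q.Prime] {A : Type} [CommGroup A] :
    ∀ (n : ℕ) (Q : Type) [Group Q] [Finite Q], Nat.card Q = n → IsPGroup q Q →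
      ∀ y : MonoidAlgebra (ZMod q) (Q × A), mapDomain (Prod.snd : Q × A → A) y = 0 →
        IsNilpotent y := by
  intro n
  induction n using Nat.strong_induction_on with
  | _ n ih =>
    intro Q _ _ hn hQ y hy
    by_cases htriv : Subsingleton Q
    · have hinj : Function.Injective (Prod.snd : Q × A → A) := by
        rintro ⟨a, b⟩ ⟨c, d⟩ hcd
        simp only at hcd
        rw [hcd, Subsingleton.elim a c]
      have : y = 0 := by
        apply mapDomain_injective (R := ZMod q) hinj
        rw [hy, mapDomain_zero]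
      rw [this]
      exact IsNilpotent.zero
    · haveI : Nontrivial Q := not_subsingleton_iff_nontrivial.1 htriv
      haveI hc : Nontrivial (Subgroup.center Q) := hQ.center_nontrivial
      have hcQ : IsPGroup q (Subgroup.center Q) := hQ.to_subgroup _
      obtain ⟨k, hk, hcard⟩ := hcQ.nontrivial_iff_card.1 hc
      have hdvd : q ∣ Nat.card (Subgroup.center Q) := by
        rw [hcard]
        exact dvd_pow_self _ hk.ne'
      obtain ⟨z, hz⟩ := exists_prime_orderOf_dvd_card' q hdvd
      obtain ⟨z0, hz0⟩ := z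
      have hzord : orderOf z0 = q := by
        rw [← hz]
        exact (Subgroup.orderOf_mk z0 hz0).symm
      have hzc : ∀ g : Q, Commute z0 g := fun g => (Subgroup.mem_center_iff.1 hz0 g).symm
      have hnorm : (Subgroup.zpowers z0).Normal := by
        refine ⟨fun x hx g => ?_⟩
        obtain ⟨i, rfl⟩ := Subgroup.mem_zpowers_iff.1 hx
        have : g * z0 ^ i * g⁻¹ = z0 ^ i := by
          rw [((hzc g).zpow_left i).symm.eq, mul_inv_cancel_right]
        rw [this]
        exact hx
      have hlt : Nat.card (Q ⧸ Subgroup.zpowers z0) < n := by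
        rw [← hn, Subgroup.card_eq_card_quotient_mul_card_subgroup (Subgroup.zpowers z0),
          Nat.card_zpowers, hzord]
        have h1 : 0 < Nat.card (Q ⧸ Subgroup.zpowers z0) := Nat.card_pos
        have h2 := hq.out.one_lt
        nlinarith
      have hQ' : IsPGroup q (Q ⧸ Subgroup.zpowers z0) := hQ.to_quotient _
      set ψ : Q × A →* (Q ⧸ Subgroup.zpowers z0) × A :=
        (QuotientGroup.mk' (Subgroup.zpowers z0)).prodMap (MonoidHom.id A) with hψ
      have h1 : mapDomain (Prod.snd : (Q ⧸ Subgroup.zpowers z0) × A → A) (mapDomain ψ y) = 0 := by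
        have : mapDomain (Prod.snd : (Q ⧸ Subgroup.zpowers z0) × A → A) (mapDomain ψ y)
            = mapDomain (Prod.snd : Q × A → A) y := by
          ext a
          simp only [mapDomain, coeff_ofCoeff, ← Finsupp.mapDomain_comp]
          rfl
        rw [this, hy]
      obtain ⟨t, ht⟩ := ih _ hlt (Q ⧸ Subgroup.zpowers z0) rfl hQ' _ h1
      have h2 : mapDomain ψ (y ^ t) = 0 := by
        have := map_pow (mapDomainRingHom (ZMod q) ψ) y t
        change mapDomain ψ (y ^ t) = mapDomain ψ y ^ t at this
        rw [this, ht]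
      obtain ⟨v, hv⟩ := ker_span ψ ((z0, 1) : Q × A) (by
        rintro ⟨g, a⟩ hg
        have hg1 : (QuotientGroup.mk' (Subgroup.zpowers z0)) g = 1 := (Prod.ext_iff.1 hg).1
        have hg2 : a = 1 := (Prod.ext_iff.1 hg).2
        have hg3 : g ∈ Subgroup.zpowers z0 := by
          rwa [QuotientGroup.mk'_apply, QuotientGroup.eq_one_iff] at hg1
        obtain ⟨i, hi⟩ := mem_powers_iff_mem_zpowers.2 hg3
        refine ⟨i, ?_⟩
        rw [hg2, Prod.pow_mk, one_pow]
        exact Prod.ext hi.symm rfl) (y ^ t) h2
      refine ⟨t * q, ?_⟩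
      rw [pow_mul, hv]
      apply nil_step
      · rintro ⟨g, a⟩
        exact Prod.ext (hzc g) (Commute.all _ _)
      · rw [Prod.pow_mk, one_pow, ← hzord, pow_orderOf_eq_one]
        rfl

section Frob

variable {q : ℕ} [hq : Fact q.Prime]

theorem frob_fix {A : Type} [CommGroup A] (t : ℕ) (ht : ∀ a : A, a ^ (q ^ t) = a)
    (x : MonoidAlgebra (ZMod q) A) : x ^ (q ^ t) = x := by
  induction x using MonoidAlgebra.induction_linear with
  | zero => exact zero_pow (pow_ne_zero _ hq.out.ne_zero)
  | add x y hx hy => rw [add_pow_char_pow, hx, hy]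
  | single m r => rw [single_pow, ht m, ZMod.pow_card_pow]

/-- `A → Q × A` on group algebras -/
noncomputable def iota (q : ℕ) (Q A : Type) [Group Q] [CommGroup A] :
    MonoidAlgebra (ZMod q) A →+* MonoidAlgebra (ZMod q) (Q × A) :=
  mapDomainRingHom (ZMod q) (MonoidHom.inr Q A)

theorem iota_comm {Q A : Type} [Group Q] [CommGroup A] (x : MonoidAlgebra (ZMod q) A)
    (y : MonoidAlgebra (ZMod q) (Q × A)) : Commute (iota q Q A x) y := by
  induction x using MonoidAlgebra.induction_linear with
  | zero => rw [map_zero]; exact Commute.zero_left _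
  | add x x' hx hx' => rw [map_add]; exact hx.add_left hx'
  | single m r =>
    have : iota q Q A (single m r) = single ((1, m) : Q × A) r := by
      show mapDomain (MonoidHom.inr Q A) (single m r) = _
      rw [mapDomain_single]
      rfl
    rw [this]
    apply single_commute
    · rintro ⟨g, a⟩
      exact Prod.ext (by simp) (by simp [mul_comm])
    · intro r'
      exact Commute.all _ _

theorem iota_coeff {Q A : Type} [Group Q] [CommGroup A] [DecidableEq Q]
    (x : MonoidAlgebra (ZMod q) A) (g : Q) (a : A) :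
    (iota q Q A x).coeff (g, a) = if g = 1 then x.coeff a else 0 := by
  show (mapDomain (MonoidHom.inr Q A) x).coeff (g, a) = _
  have hinj : Function.Injective (MonoidHom.inr Q A) := fun a b h => (Prod.ext_iff.1 h).2
  split_ifs with hg
  · subst hg
    exact Finsupp.mapDomain_apply hinj x.coeff a
  · apply Finsupp.mapDomain_notin_range
    rintro ⟨b, hb⟩
    exact hg (Prod.ext_iff.1 hb).1.symm

/-- the main algebraic lemma -/
theorem exists_pow {Q A : Type} [Group Q] [Finite Q] [CommGroup A] (hQ : IsPGroup q Q) (t : ℕ)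
    (ht1 : 1 ≤ t) (ht : ∀ a : A, a ^ (q ^ t) = a) (y : MonoidAlgebra (ZMod q) (Q × A)) :
    ∃ N, 2 ≤ N ∧ y ^ N = iota q Q A (mapDomainRingHom (ZMod q) (MonoidHom.snd Q A) y) ∧
      (iota q Q A (mapDomainRingHom (ZMod q) (MonoidHom.snd Q A) y)) ^ N
        = iota q Q A (mapDomainRingHom (ZMod q) (MonoidHom.snd Q A) y) := by
  set x := mapDomainRingHom (ZMod q) (MonoidHom.snd Q A) y with hx
  have h1 : mapDomain (Prod.snd : Q × A → A) (y - iota q Q A x) = 0 := by
    have e1 : mapDomainRingHom (ZMod q) (MonoidHom.snd Q A) (y - iota q Q A x) = 0 := by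
      rw [map_sub, ← hx, sub_eq_zero]
      have e2 : (mapDomainRingHom (ZMod q) (MonoidHom.snd Q A)).comp (iota q Q A)
          = RingHom.id _ := by
        unfold iota
        rw [← mapDomainRingHom_comp]
        have : (MonoidHom.snd Q A).comp (MonoidHom.inr Q A) = MonoidHom.id A := rfl
        rw [this, mapDomainRingHom_id]
      exact (RingHom.congr_fun e2 x).symm
    exact e1
  obtain ⟨m, hm⟩ := nil_aug (q := q) (A := A) (Nat.card Q) Q rfl hQ (y - iota q Q A x) h1
  have hqm : m ≤ q ^ (t * (m + 1)) := by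
    have h2 : m < q ^ m := Nat.lt_pow_self hq.out.one_lt
    have h3 : q ^ m ≤ q ^ (t * (m + 1)) := by
      apply Nat.pow_le_pow_right hq.out.pos
      nlinarith
    omega
  have hfix : x ^ (q ^ (t * (m + 1))) = x := by
    apply frob_fix
    intro a
    have : ∀ j : ℕ, a ^ (q ^ (t * j)) = a := by
      intro j
      induction j with
      | zero => simp
      | succ j ih => rw [mul_add, mul_one, pow_add, pow_mul, ih, ht]
    exact this _
  refine ⟨q ^ (t * (m + 1)), ?_, ?_, ?_⟩
  · calc 2 ≤ q := hq.out.two_le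
      _ = q ^ 1 := (pow_one q).symm
      _ ≤ q ^ (t * (m + 1)) := Nat.pow_le_pow_right hq.out.pos (by nlinarith)
  · have h4 : y = (y - iota q Q A x) + iota q Q A x := by abel
    have h5 : Commute (y - iota q Q A x) (iota q Q A x) := (iota_comm x _).symm
    conv_lhs => rw [h4]
    rw [add_pow_char_pow_of_commute _ _ h5, pow_eq_zero_of_le hqm hm, zero_add, ← map_pow, hfix]
  · rw [← map_pow, hfix]

end Frob

end PPN
end

section

/-! # The line sums of the function attached to a line vanish mod `q` -/

set_option autoImplicit false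

open Configuration Finset

namespace PPN

variable {P Ln G : Type} [Membership P Ln] [Fintype P] [Fintype Ln] [ProjectivePlane P Ln]
  [Group G] [Fintype G] [MulAction G P] [MulAction G Ln] {L : Ln}

omit [Fintype P] [Fintype Ln] [ProjectivePlane P Ln] in
theorem Reg.smul_ne (h : Reg P G L) (g : G) {l : Ln} (hl : l ≠ L) : g • l ≠ L := by
  intro hc
  apply hl
  have := congrArg (fun x => g⁻¹ • x) hc
  simp only [inv_smul_smul, h.fixL] at this
  exact this

omit [Fintype P] [Fintype Ln] [ProjectivePlane P Ln] in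
theorem Reg.smul_mem (h : Reg P G L) (g : G) {p : P} (hp : p ∈ L) : g • p ∈ L := by
  have := (h.inc g p L).1 hp
  rwa [h.fixL] at this

open Classical in
/-- number of common affine points -/
theorem Reg.card_inter (h : Reg P G L) {o : P} (ho : o ∉ L) {l m : Ln} (hl : l ≠ L) (_hm : m ≠ L)
    {X Y : P} (hX : X ∈ L) (hXl : X ∈ l) (hY : Y ∈ L) (hYm : Y ∈ m) :
    (DD G o l ∩ DD G o m).card
      = if Y = X then (if m = l then ProjectivePlane.order P Ln else 0) else 1 := by
  split_ifs with h1 h2
  · subst h2
    rw [inter_self, h.card_DD ho hl]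
  · subst h1
    rw [card_eq_zero]
    ext g
    simp only [mem_inter, mem_DD, notMem_empty, iff_false, not_and]
    intro h3 h4
    have h5 : g • o = Y := point_unique (Ne.symm h2) h3 h4 hXl hYm
    exact (h.off g).2 ho (h5 ▸ hY)
  · have hlm : l ≠ m := by
      rintro rfl
      exact h1 (point_unique hl hYm hY hXl hX)
    obtain ⟨p, hp1, hp2⟩ := exists_point (P := P) hlm
    have hpL : p ∉ L := by
      intro hpL
      apply h1
      rw [point_unique hl hXl hX hp1 hpL]
      exact point_unique _hm hYm hY hp2 hpL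
    obtain ⟨g, hg, hg'⟩ := h.reg o p ho hpL
    rw [card_eq_one]
    refine ⟨g, ?_⟩
    ext k
    simp only [mem_inter, mem_DD, mem_singleton]
    constructor
    · rintro ⟨h3, h4⟩
      exact hg' k (point_unique hlm h3 h4 hp1 hp2)
    · rintro rfl
      have : k • o = p := hg
      rw [this]
      exact ⟨hp1, hp2⟩

section Elements

variable (q : ℕ)

/-- the line as an element of the group algebra -/
noncomputable def dd (G : Type) {P Ln : Type} [Membership P Ln] [Group G] [MulAction G P]
    [Fintype G] (o : P) (l : Ln) : MonoidAlgebra (ZMod q) G :=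
  ∑ g ∈ DD G o l, MonoidAlgebra.single g 1

/-- its inverse -/
noncomputable def dds (G : Type) {P Ln : Type} [Membership P Ln] [Group G] [MulAction G P]
    [Fintype G] (o : P) (l : Ln) : MonoidAlgebra (ZMod q) G :=
  ∑ g ∈ DD G o l, MonoidAlgebra.single g⁻¹ 1

/-- the sum of all elements -/
noncomputable def EE (G : Type) [Group G] [Fintype G] : MonoidAlgebra (ZMod q) G :=
  ∑ g : G, MonoidAlgebra.single g 1

end Elements

variable {q : ℕ}

omit [MulAction G P] [MulAction G Ln] in
theorem single_mul_EE (g : G) : MonoidAlgebra.single g 1 * EE q G = EE q G := by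
  unfold EE
  rw [mul_sum]
  simp only [MonoidAlgebra.single_mul_single, mul_one]
  exact Fintype.sum_equiv (Equiv.mulLeft g) _ _ (fun x => rfl)

omit [MulAction G P] [MulAction G Ln] in
theorem EE_mul_single (g : G) : EE q G * MonoidAlgebra.single g 1 = EE q G := by
  unfold EE
  rw [sum_mul]
  simp only [MonoidAlgebra.single_mul_single, mul_one]
  exact Fintype.sum_equiv (Equiv.mulRight g) _ _ (fun x => rfl)

theorem Reg.dd_mul_EE (h : Reg P G L) {o : P} (ho : o ∉ L) {l : Ln} (hl : l ≠ L)
    (hq : q ∣ ProjectivePlane.order P Ln) : dd q G o l * EE q G = 0 := by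
  unfold dd
  rw [sum_mul]
  simp only [single_mul_EE]
  rw [sum_const, h.card_DD ho hl, ← Nat.cast_smul_eq_nsmul (ZMod q),
    (ZMod.natCast_eq_zero_iff _ _).2 hq, zero_smul]

theorem Reg.EE_mul_dd (h : Reg P G L) {o : P} (ho : o ∉ L) {l : Ln} (hl : l ≠ L)
    (hq : q ∣ ProjectivePlane.order P Ln) : EE q G * dd q G o l = 0 := by
  unfold dd
  rw [mul_sum]
  simp only [EE_mul_single]
  rw [sum_const, h.card_DD ho hl, ← Nat.cast_smul_eq_nsmul (ZMod q),
    (ZMod.natCast_eq_zero_iff _ _).2 hq, zero_smul]

open Classical in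
omit [Fintype P] [Fintype Ln] [ProjectivePlane P Ln] in
theorem Reg.card_shift (h : Reg P G L) (o : P) (l m : Ln) (g : G) :
    ((DD G o m).filter (fun x => g * x ∈ DD G o l)).card = (DD G o l ∩ DD G o (g • m)).card := by
  apply card_bij (fun x _ => g * x)
  · intro x hx
    rw [mem_filter] at hx
    rw [mem_inter]
    refine ⟨hx.2, ?_⟩
    rw [mem_DD, mul_smul]
    exact (h.inc g _ m).1 (mem_DD.1 hx.1)
  · intro x _ y _ hxy
    exact mul_left_cancel hxy
  · intro y hy
    rw [mem_inter] at hy
    refine ⟨g⁻¹ * y, ?_, mul_inv_cancel_left g y⟩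
    rw [mem_filter, mul_inv_cancel_left, mem_DD]
    refine ⟨?_, hy.1⟩
    rw [h.inc g _ m, ← mul_smul, mul_inv_cancel_left]
    exact mem_DD.1 hy.2

open Classical in
theorem Reg.dd_mul_dds (h : Reg P G L) {o : P} (ho : o ∉ L) {l m : Ln} (hl : l ≠ L) (hm : m ≠ L)
    {X Y : P} (hX : X ∈ L) (hXl : X ∈ l) (hY : Y ∈ L) (hYm : Y ∈ m)
    (hq : q ∣ ProjectivePlane.order P Ln) :
    dd q G o l * dds q G o m
      = EE q G - ∑ g ∈ univ.filter (fun g : G => g • Y = X), MonoidAlgebra.single g 1 := by
  have h1 : dd q G o l * dds q G o m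
      = ∑ g : G, MonoidAlgebra.single g
        ((((DD G o m).filter (fun x => g * x ∈ DD G o l)).card : ℕ) : ZMod q) := by
    unfold dd dds
    rw [mul_sum]
    simp only [sum_mul, MonoidAlgebra.single_mul_single, mul_one]
    have h2 : ∀ x ∈ DD G o m, ∑ y ∈ DD G o l,
        (MonoidAlgebra.single (y * x⁻¹) 1 : MonoidAlgebra (ZMod q) G)
        = ∑ g : G, if g * x ∈ DD G o l then MonoidAlgebra.single g 1 else 0 := by
      intro x _
      rw [← sum_filter]
      apply sum_bij (fun y _ => y * x⁻¹)
      · intro y hy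
        simp only [mem_filter, mem_univ, true_and, inv_mul_cancel_right]
        exact hy
      · intro y _ y' _ hyy
        exact mul_right_cancel hyy
      · intro g hg
        exact ⟨g * x, (mem_filter.1 hg).2, mul_inv_cancel_right g x⟩
      · intro y _
        rfl
    rw [sum_congr rfl h2, sum_comm]
    apply sum_congr rfl
    intro g _
    rw [← sum_filter, sum_const, ← Nat.cast_smul_eq_nsmul (ZMod q), MonoidAlgebra.smul_single,
      smul_eq_mul, mul_one]
  rw [h1]
  unfold EE
  rw [eq_sub_iff_add_eq, sum_filter, ← sum_add_distrib]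
  apply sum_congr rfl
  intro g _
  rw [h.card_shift o l m g, h.card_inter ho hl (h.smul_ne g hm) hX hXl (h.smul_mem g hY)
    ((h.inc g Y m).1 hYm)]
  split_ifs with h2 h3
  · rw [(ZMod.natCast_eq_zero_iff _ _).2 hq, MonoidAlgebra.single_zero, zero_add]
  · rw [Nat.cast_zero, MonoidAlgebra.single_zero, zero_add]
  · rw [Nat.cast_one, add_zero]

open Classical in
/-- the number of elements of the stabiliser of `X` mapping `l` to a given line through `X` -/
theorem Reg.card_stab (h : Reg P G L) {l m : Ln} (hl : l ≠ L) (hm : m ≠ L)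
    {X : P} (hX : X ∈ L) (hXl : X ∈ l) (hXm : X ∈ m) :
    (univ.filter (fun u : G => u • X = X ∧ u • l = m)).card
      = (univ.filter (fun u : G => u • l = l)).card := by
  obtain ⟨w, hw, hwX⟩ := h.trans hX hXl hXm hl hm
  symm
  apply card_bij (fun u _ => w * u)
  · intro u hu
    simp only [mem_filter, mem_univ, true_and] at hu ⊢
    have hu2 : u • X = X := by
      have h1 : u • X ∈ l := by
        have := (h.inc u X l).1 hXl
        rwa [hu] at this
      exact point_unique hl h1 (h.smul_mem u hX) hXl hX
    rw [mul_smul, mul_smul, hu2, hu]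
    exact ⟨hwX, hw⟩
  · intro u _ u' _ huu
    exact mul_left_cancel huu
  · intro v hv
    simp only [mem_filter, mem_univ, true_and] at hv
    refine ⟨w⁻¹ * v, ?_, mul_inv_cancel_left w v⟩
    simp only [mem_filter, mem_univ, true_and]
    rw [mul_smul, hv.2, inv_smul_eq_iff, hw]

open Classical in
theorem Reg.U_mul_dd (h : Reg P G L) {o : P} (ho : o ∉ L) {l : Ln} (hl : l ≠ L) {X : P}
    (hX : X ∈ L) (hXl : X ∈ l) :
    (∑ u ∈ univ.filter (fun u : G => u • X = X),
        (MonoidAlgebra.single u 1 : MonoidAlgebra (ZMod q) G)) * dd q G o l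
      = (((univ.filter (fun u : G => u • l = l)).card : ℕ) : ZMod q) • EE q G := by
  unfold dd EE
  rw [sum_mul]
  have h2 : ∀ u ∈ univ.filter (fun u : G => u • X = X),
      (MonoidAlgebra.single u 1 : MonoidAlgebra (ZMod q) G)
        * ∑ g ∈ DD G o l, MonoidAlgebra.single g 1
      = ∑ g : G, if g • o ∈ u • l then MonoidAlgebra.single g 1 else 0 := by
    intro u _
    rw [mul_sum, ← sum_filter]
    apply sum_bij (fun y _ => u * y)
    · intro y hy
      simp only [mem_filter, mem_univ, true_and, mul_smul]
      exact (h.inc u _ l).1 (mem_DD.1 hy)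
    · intro y _ y' _ hyy
      exact mul_left_cancel hyy
    · intro g hg
      refine ⟨u⁻¹ * g, ?_, mul_inv_cancel_left u g⟩
      rw [mem_DD, h.inc u, ← mul_smul, mul_inv_cancel_left]
      exact (mem_filter.1 hg).2
    · intro y _
      rw [MonoidAlgebra.single_mul_single, mul_one]
  rw [sum_congr rfl h2, sum_comm, smul_sum]
  apply sum_congr rfl
  intro g _
  rw [← sum_filter, sum_const, filter_filter, ← Nat.cast_smul_eq_nsmul (ZMod q)]
  congr 2
  have hne : X ≠ g • o := fun hc => (h.off g).2 ho (hc ▸ hX)
  obtain ⟨m, hm1, hm2⟩ := exists_line (Ln := Ln) X (g • o) hne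
  have hmL : m ≠ L := fun hc => (h.off g).2 ho (hc ▸ hm2)
  rw [← h.card_stab hl hmL hX hXl hm1]
  congr 1
  ext u
  simp only [mem_filter, mem_univ, true_and]
  constructor
  · rintro ⟨h3, h4⟩
    refine ⟨h3, ?_⟩
    have h5 : X ∈ u • l := by
      have := (h.inc u X l).1 hXl
      rwa [h3] at this
    exact line_unique hne h5 h4 hm1 hm2
  · rintro ⟨h3, h4⟩
    exact ⟨h3, h4 ▸ hm2⟩

open Classical in
/-- multiplicities of a line in the quotient `A` -/
noncomputable def cc {A : Type} (πA : G → A) (o : P) (l : Ln) (a : A) : ℕ :=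
  ((DD G o l).filter (fun g => πA g = a)).card

open Classical in
/-- the line sums vanish -/
theorem Reg.code (h : Reg P G L) {o : P} (ho : o ∉ L) [Fact q.Prime]
    (hq : q ∣ ProjectivePlane.order P Ln)
    {Q A : Type} [Group Q] [Finite Q] [CommGroup A] (hQ : IsPGroup q Q) (t : ℕ) (ht1 : 1 ≤ t)
    (ht : ∀ a : A, a ^ (q ^ t) = a) (πQ : G →* Q) (πA : G →* A) {l m : Ln} (hl : l ≠ L)
    (hm : m ≠ L) :
    q ∣ ∑ x ∈ DD G o m, (if πQ x = 1 then cc πA o l (πA x) else 0) := by
  obtain ⟨X, hXl, hX⟩ := exists_point (P := P) hl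
  obtain ⟨Y, hYm, hY⟩ := exists_point (P := P) hm
  set π : G →* Q × A := πQ.prod πA with hπ
  set Pm := MonoidAlgebra.mapDomainRingHom (ZMod q) π with hPm
  have hPms : ∀ g r, Pm (MonoidAlgebra.single g r) = MonoidAlgebra.single (π g) r := by
    intro g r
    show MonoidAlgebra.mapDomain π _ = _
    rw [MonoidAlgebra.mapDomain_single]
  obtain ⟨N, hN, hyN, hcN⟩ := exists_pow hQ t ht1 ht (Pm (dd q G o l))
  set x := MonoidAlgebra.mapDomainRingHom (ZMod q) (MonoidHom.snd Q A) (Pm (dd q G o l)) with hx
  set c := iota q Q A x with hc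
  -- powers kill `EE`
  obtain ⟨M, rfl⟩ : ∃ M, N = M + 2 := ⟨N - 2, by omega⟩
  have hE1 : dd q G o l ^ (M + 1) * EE q G = 0 := by
    rw [pow_succ, mul_assoc, h.dd_mul_EE ho hl hq, mul_zero]
  have hE2 : EE q G * dd q G o l ^ (M + 1) = 0 := by
    rw [pow_succ', ← mul_assoc, h.EE_mul_dd ho hl hq, zero_mul]
  set TT := ∑ g ∈ univ.filter (fun g : G => g • Y = X),
    (MonoidAlgebra.single g 1 : MonoidAlgebra (ZMod q) G) with hTT
  have h1 : c * Pm (dds q G o m) = - Pm (dd q G o l ^ (M + 1) * TT) := by
    rw [← hyN, ← map_pow, ← map_mul, pow_succ (dd q G o l) (M + 1), mul_assoc,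
      h.dd_mul_dds ho hl hm hX hXl hY hYm hq, mul_sub, hE1, zero_sub, map_neg]
  have h2 : c * (c * Pm (dds q G o m)) = 0 := by
    by_cases hex : ∃ g : G, g • Y = X
    · obtain ⟨g0, hg0⟩ := hex
      have h3 : TT = (∑ u ∈ univ.filter (fun u : G => u • X = X),
          (MonoidAlgebra.single u 1 : MonoidAlgebra (ZMod q) G)) * MonoidAlgebra.single g0 1 := by
        rw [sum_mul, hTT]
        symm
        apply sum_bij (fun u _ => u * g0)
        · intro u hu
          simp only [mem_filter, mem_univ, true_and] at hu ⊢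
          rw [mul_smul, hg0, hu]
        · intro u _ u' _ huu
          exact mul_right_cancel huu
        · intro g hg
          simp only [mem_filter, mem_univ, true_and] at hg
          refine ⟨g * g0⁻¹, ?_, inv_mul_cancel_right g g0⟩
          simp only [mem_filter, mem_univ, true_and]
          rw [mul_smul]
          have : g0⁻¹ • X = Y := by rw [inv_smul_eq_iff, hg0]
          rw [this, hg]
        · intro u _
          rw [MonoidAlgebra.single_mul_single, mul_one]
      set U := ∑ u ∈ univ.filter (fun u : G => u • X = X),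
          (MonoidAlgebra.single u 1 : MonoidAlgebra (ZMod q) G) with hU
      have h4 : Pm U * c = 0 := by
        rw [← hyN, ← map_pow, ← map_mul, pow_succ' (dd q G o l) (M + 1), ← mul_assoc,
          h.U_mul_dd ho hl hX hXl, smul_mul_assoc, hE2, smul_zero, map_zero]
      have h5 : c * Pm (dd q G o l ^ (M + 1)) = Pm (dd q G o l ^ (M + 1)) * c :=
        (iota_comm x _).eq
      have h6 : c * Pm U = Pm U * c := (iota_comm x _).eq
      rw [h1, h3, mul_neg, map_mul, map_mul, ← mul_assoc, ← mul_assoc, h5, mul_assoc (Pm _) c,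
        h6, h4, mul_zero, zero_mul, neg_zero]
    · have h3 : TT = 0 := by
        rw [hTT]
        apply sum_eq_zero
        intro g hg
        exact absurd ⟨g, (mem_filter.1 hg).2⟩ hex
      rw [h1, h3, mul_zero, map_zero, neg_zero, mul_zero]
  have h7 : c * Pm (dds q G o m) = 0 := by
    have h8 : c ^ (M + 2) * Pm (dds q G o m) = c ^ M * (c * (c * Pm (dds q G o m))) := by
      rw [pow_add, pow_two]
      simp only [mul_assoc]
    rw [hcN, h2, mul_zero] at h8
    exact h8
  have h9 : (c * Pm (dds q G o m)).coeff 1 = 0 := by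
    rw [h7]
    rfl
  have h10 : c * Pm (dds q G o m) = ∑ g ∈ DD G o m, c * MonoidAlgebra.single (π g)⁻¹ 1 := by
    unfold dds
    rw [map_sum, mul_sum]
    apply sum_congr rfl
    intro g _
    rw [hPms, map_inv]
  rw [h10, MonoidAlgebra.coeff_sum, Finsupp.finsetSum_apply] at h9
  have h11 : x = ∑ g ∈ DD G o l, MonoidAlgebra.single (πA g) 1 := by
    rw [hx]
    unfold dd
    rw [map_sum, map_sum]
    apply sum_congr rfl
    intro g _
    rw [hPms]
    show MonoidAlgebra.mapDomain _ _ = _
    rw [MonoidAlgebra.mapDomain_single]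
    rfl
  have h12 : ∀ a, x.coeff a = ((cc πA o l a : ℕ) : ZMod q) := by
    intro a
    rw [h11, MonoidAlgebra.coeff_sum, Finsupp.finsetSum_apply]
    unfold cc
    rw [card_eq_sum_ones, sum_filter]
    push_cast
    apply sum_congr rfl
    intro g _
    rw [MonoidAlgebra.coeff_single, Finsupp.single_apply]
  rw [← ZMod.natCast_eq_zero_iff]
  push_cast
  refine Eq.trans (sum_congr rfl fun g _ => ?_) h9
  rw [MonoidAlgebra.coeff_mul_single_apply, one_mul, inv_inv, mul_one]
  have h13 : π g = (πQ g, πA g) := rfl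
  rw [h13, hc, iota_coeff, h12]

end PPN
end

section

/-! # The main inequality -/

set_option autoImplicit false

open Configuration Finset

namespace PPN

variable {P Ln G : Type} [Membership P Ln] [Fintype P] [Fintype Ln] [ProjectivePlane P Ln]
  [Group G] [Fintype G] [MulAction G P] [MulAction G Ln] {L : Ln}

open Classical in
/-- double counting of a function over the lines through a point -/
theorem Reg.sum_lines (h : Reg P G L) {o : P} (ho : o ∉ L) (φ : G → ℕ) (y : G) :
    ∑ m ∈ univ.filter (fun m : Ln => y • o ∈ m), ∑ x ∈ DD G o m, φ x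
      = ProjectivePlane.order P Ln * φ y + ∑ x, φ x := by
  have h1 : ∀ m : Ln, ∑ x ∈ DD G o m, φ x = ∑ x : G, if x • o ∈ m then φ x else 0 := by
    intro m
    rw [← sum_filter]
    rfl
  simp only [h1]
  rw [sum_comm]
  have h2 : ∀ x : G, ∑ m ∈ univ.filter (fun m : Ln => y • o ∈ m), (if x • o ∈ m then φ x else 0)
      = (if x = y then ProjectivePlane.order P Ln * φ x else 0) + φ x := by
    intro x
    rw [← sum_filter, sum_const, filter_filter, smul_eq_mul]
    by_cases hxy : x = y
    · subst hxy
      simp only [and_self, if_true]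
      rw [card_lines_through]
      ring
    · have hne : y • o ≠ x • o := fun hc => hxy (h.inj ho hc).symm
      rw [card_join hne, if_neg hxy]
      ring
  rw [sum_congr rfl fun x _ => h2 x, sum_add_distrib, sum_ite_eq' univ y, if_pos (mem_univ _)]

open Classical in
/-- number of elements in the kernel of `(πQ, πA)` -/
noncomputable def kk {Q A : Type} [Group Q] [CommGroup A] (πQ : G →* Q) (πA : G →* A) : ℕ :=
  (univ.filter (fun g : G => πQ g = 1 ∧ πA g = 1)).card

open Classical in
theorem card_fibre_le {Q A : Type} [Group Q] [CommGroup A] (πQ : G →* Q) (πA : G →* A) (a : A) :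
    (univ.filter (fun g : G => πQ g = 1 ∧ πA g = a)).card ≤ kk πQ πA := by
  by_cases hne : (univ.filter (fun g : G => πQ g = 1 ∧ πA g = a)).Nonempty
  · obtain ⟨x, hx⟩ := hne
    rw [mem_filter] at hx
    apply card_le_card_of_injOn (fun g => x⁻¹ * g)
    · intro g hg
      have hg' := (mem_filter.1 hg).2
      have : πQ (x⁻¹ * g) = 1 ∧ πA (x⁻¹ * g) = 1 := by
        rw [map_mul, map_mul, map_inv, map_inv, hg'.1, hg'.2, hx.2.1, hx.2.2]
        simp
      exact mem_filter.2 ⟨mem_univ _, this⟩
    · intro g _ g' _ hgg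
      exact mul_left_cancel hgg
  · rw [not_nonempty_iff_eq_empty.1 hne, card_empty]
    exact Nat.zero_le _

open Classical in
/-- the values of the multiplicities -/
theorem Reg.value (h : Reg P G L) {q : ℕ} {o : P} (ho : o ∉ L) [hqp : Fact q.Prime]
    (hq : q ∣ ProjectivePlane.order P Ln)
    {Q A : Type} [Group Q] [Finite Q] [CommGroup A] (hQ : IsPGroup q Q) (t : ℕ) (ht1 : 1 ≤ t)
    (ht : ∀ a : A, a ^ (q ^ t) = a) (πQ : G →* Q) (πA : G →* A) {l : Ln} (hl : l ≠ L)
    {g : G} (hg : g ∈ DD G o l) : q + 1 ≤ cc πA o l (πA g) + kk πQ πA := by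
  set n := ProjectivePlane.order P Ln with hn
  -- an element `y` with trivial image in `Q`
  obtain ⟨y, hy1, hy2⟩ : ∃ y : G, πQ y = 1 ∧ πA y = πA g := by
    obtain ⟨s, hs⟩ := IsPGroup.iff_card.1 hQ
    refine ⟨g ^ (q ^ (t * s)), ?_, ?_⟩
    · rw [map_pow]
      have h1 : q ^ s ∣ q ^ (t * s) := pow_dvd_pow q (by nlinarith)
      obtain ⟨r, hr⟩ := h1
      rw [hr, pow_mul, ← hs, pow_card_eq_one', one_pow]
    · rw [map_pow]
      have : ∀ (a : A) (j : ℕ), a ^ (q ^ (t * j)) = a := by
        intro a j
        induction j with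
        | zero => simp
        | succ j ih => rw [mul_add, mul_one, pow_add, pow_mul, ih, ht]
      exact this _ _
  set φ : G → ℕ := fun x => if πQ x = 1 then cc πA o l (πA x) else 0 with hφ
  have hφy : φ y = cc πA o l (πA g) := by
    simp only [hφ]
    rw [if_pos hy1, hy2]
  have hφpos : 0 < φ y := by
    rw [hφy]
    exact card_pos.2 ⟨g, mem_filter.2 ⟨hg, rfl⟩⟩
  have h1 : ∑ m ∈ univ.filter (fun m : Ln => y • o ∈ m), ∑ x ∈ DD G o m, φ x
      = n * φ y + ∑ x, φ x := h.sum_lines ho φ y
  have h2 : (n + 1) * q ≤ ∑ m ∈ univ.filter (fun m : Ln => y • o ∈ m), ∑ x ∈ DD G o m, φ x := by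
    rw [hn, ← card_lines_through (Ln := Ln) (y • o), ← smul_eq_mul]
    apply card_nsmul_le_sum
    intro m hm
    have hm' := (mem_filter.1 hm).2
    have hmL : m ≠ L := by
      rintro rfl
      exact (h.off y).2 ho hm'
    have h3 := h.code ho hq hQ t ht1 ht πQ πA hl hmL
    have h4 : 0 < ∑ x ∈ DD G o m, φ x := by
      apply lt_of_lt_of_le hφpos
      exact single_le_sum (f := φ) (fun _ _ => Nat.zero_le _) (mem_DD.2 hm')
    exact Nat.le_of_dvd h4 h3
  have h5 : ∑ x, φ x ≤ n * kk πQ πA := by
    have h6 : ∑ x, φ x = ∑ g' ∈ DD G o l,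
        (univ.filter (fun x : G => πQ x = 1 ∧ πA x = πA g')).card := by
      simp only [hφ, cc, card_eq_sum_ones, sum_filter]
      rw [sum_comm]
      apply sum_congr rfl
      intro x _
      by_cases hx : πQ x = 1
      · simp only [hx, true_and, if_true]
        apply sum_congr rfl
        intro g' _
        simp only [eq_comm]
      · simp [hx]
    rw [h6, hn, ← h.card_DD ho hl, ← smul_eq_mul]
    apply sum_le_card_nsmul
    intro g' _
    exact card_fibre_le πQ πA _
  have h7 : 0 < n := lt_trans Nat.zero_lt_one (ProjectivePlane.one_lt_order P Ln)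
  rw [h1] at h2
  rw [← hφy]
  have h8 : (n + 1) * q ≤ n * (φ y + kk πQ πA) := by
    rw [mul_add]
    omega
  by_contra hcon
  have h9 : φ y + kk πQ πA ≤ q := by omega
  have h10 : n * (φ y + kk πQ πA) ≤ n * q := Nat.mul_le_mul_left _ h9
  have h11 : 0 < q := hqp.out.pos
  nlinarith

open Classical in
/-- the second moment -/
theorem Reg.second (h : Reg P G L) {o : P} (ho : o ∉ L) {A : Type} [CommGroup A] (πA : G →* A) :
    ∑ l ∈ univ.filter (fun l : Ln => l ≠ L), ∑ g ∈ DD G o l, cc πA o l (πA g)
      = Fintype.card G * (ProjectivePlane.order P Ln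
          + (univ.filter (fun g : G => πA g = 1)).card) := by
  set n := ProjectivePlane.order P Ln with hn
  have h1 : ∀ l : Ln, ∑ g ∈ DD G o l, cc πA o l (πA g)
      = ∑ g : G, ∑ g' : G, if g • o ∈ l ∧ g' • o ∈ l ∧ πA g' = πA g then 1 else 0 := by
    intro l
    rw [show DD G o l = univ.filter (fun g : G => g • o ∈ l) from rfl, sum_filter]
    apply sum_congr rfl
    intro g _
    by_cases hg : g • o ∈ l
    · simp only [hg, if_true, true_and, cc, card_eq_sum_ones, sum_filter]
      rw [show DD G o l = univ.filter (fun g : G => g • o ∈ l) from rfl, sum_filter]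
      apply sum_congr rfl
      intro g' _
      by_cases hg' : g' • o ∈ l
      · simp [hg']
      · simp [hg']
    · simp [hg]
  have h2 : ∑ l ∈ univ.filter (fun l : Ln => l ≠ L), ∑ g ∈ DD G o l, cc πA o l (πA g)
      = ∑ g : G, ∑ g' : G, if πA g' = πA g then
        (univ.filter (fun l : Ln => g • o ∈ l ∧ g' • o ∈ l)).card else 0 := by
    simp only [h1]
    rw [sum_comm]
    apply sum_congr rfl
    intro g _
    rw [sum_comm]
    apply sum_congr rfl
    intro g' _
    by_cases hgg : πA g' = πA g
    · simp only [hgg, and_true, if_true]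
      rw [← sum_filter, filter_filter, card_eq_sum_ones]
      apply sum_congr _ (fun _ _ => rfl)
      ext l
      simp only [mem_filter, mem_univ, true_and]
      constructor
      · exact fun hh => hh.2
      · intro hh
        refine ⟨?_, hh⟩
        rintro rfl
        exact (h.off g).2 ho hh.1
    · simp [hgg]
  have h3 : ∀ g : G, ∑ g' : G, (if πA g' = πA g then
      (univ.filter (fun l : Ln => g • o ∈ l ∧ g' • o ∈ l)).card else 0)
      = n + (univ.filter (fun g : G => πA g = 1)).card := by
    intro g
    have h4 : ∀ g' : G, (if πA g' = πA g then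
      (univ.filter (fun l : Ln => g • o ∈ l ∧ g' • o ∈ l)).card else 0)
      = (if g' = g then n else 0) + (if πA g' = πA g then 1 else 0) := by
      intro g'
      by_cases hgg : g' = g
      · subst hgg
        simp only [and_self, if_true]
        rw [card_lines_through]
      · have hne : g • o ≠ g' • o := fun hc => hgg (h.inj ho hc).symm
        rw [card_join hne, if_neg hgg, zero_add]
    rw [sum_congr rfl fun g' _ => h4 g', sum_add_distrib, sum_ite_eq' univ g,
      if_pos (mem_univ _), ← sum_filter, ← card_eq_sum_ones]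
    congr 1
    apply card_bij (fun x _ => g⁻¹ * x)
    · intro x hx
      simp only [mem_filter, mem_univ, true_and] at hx ⊢
      rw [map_mul, map_inv, hx, inv_mul_cancel]
    · intro x _ x' _ hxx
      exact mul_left_cancel hxx
    · intro x hx
      simp only [mem_filter, mem_univ, true_and] at hx
      refine ⟨g * x, ?_, inv_mul_cancel_left g x⟩
      simp only [mem_filter, mem_univ, true_and]
      rw [map_mul, hx, mul_one]
  rw [h2, sum_congr rfl fun g _ => h3 g, sum_const, card_univ, smul_eq_mul]

open Classical in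
theorem Reg.first (h : Reg P G L) {o : P} (ho : o ∉ L) :
    ∑ l ∈ univ.filter (fun l : Ln => l ≠ L), (DD G o l).card
      = Fintype.card G * (ProjectivePlane.order P Ln + 1) := by
  have h1 : ∀ l : Ln, (DD G o l).card = ∑ g : G, if g • o ∈ l then 1 else 0 := by
    intro l
    rw [show DD G o l = univ.filter (fun g : G => g • o ∈ l) from rfl, card_filter]
  simp only [h1]
  rw [sum_comm]
  have h2 : ∀ g : G, ∑ l ∈ univ.filter (fun l : Ln => l ≠ L), (if g • o ∈ l then 1 else 0)
      = ProjectivePlane.order P Ln + 1 := by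
    intro g
    rw [← sum_filter, filter_filter, ← card_eq_sum_ones, ← card_lines_through (Ln := Ln) (g • o)]
    congr 1
    ext l
    simp only [mem_filter, mem_univ, true_and]
    constructor
    · exact fun hh => hh.2
    · intro hh
      refine ⟨?_, hh⟩
      rintro rfl
      exact (h.off g).2 ho hh
  rw [sum_congr rfl fun g _ => h2 g, sum_const, card_univ, smul_eq_mul]

open Classical in
theorem card_filter_ker {A : Type} [Group A] (πA : G →* A) :
    (univ.filter (fun g : G => πA g = 1)).card = Nat.card πA.ker := by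
  rw [Nat.card_eq_fintype_card, Fintype.card_subtype]
  congr!

/-- the main inequality -/
theorem Reg.ineq (h : Reg P G L) {q : ℕ} [hqp : Fact q.Prime]
    (hq : q ∣ ProjectivePlane.order P Ln)
    {Q A : Type} [Group Q] [Finite Q] [CommGroup A] (hQ : IsPGroup q Q) (t : ℕ) (ht1 : 1 ≤ t)
    (ht : ∀ a : A, a ^ (q ^ t) = a) (πQ : G →* Q) (πA : G →* A) :
    (q + 1) * (ProjectivePlane.order P Ln + 1)
      ≤ ProjectivePlane.order P Ln + Nat.card πA.ker
        + kk πQ πA * (ProjectivePlane.order P Ln + 1) := by
  classical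
  rw [← card_filter_ker]
  obtain ⟨o, ho⟩ := exists_off (P := P) L
  set n := ProjectivePlane.order P Ln with hn
  have h1 : ∑ l ∈ univ.filter (fun l : Ln => l ≠ L), ∑ g ∈ DD G o l, (q + 1)
      ≤ ∑ l ∈ univ.filter (fun l : Ln => l ≠ L), ∑ g ∈ DD G o l,
        (cc πA o l (πA g) + kk πQ πA) := by
    apply sum_le_sum
    intro l hl
    apply sum_le_sum
    intro g hg
    exact h.value ho hq hQ t ht1 ht πQ πA (mem_filter.1 hl).2 hg
  simp only [sum_const, smul_eq_mul, sum_add_distrib, ← sum_mul] at h1
  rw [h.first ho, h.second ho πA] at h1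
  have h2 : 0 < Fintype.card G := Fintype.card_pos
  apply Nat.le_of_mul_le_mul_left _ h2
  calc Fintype.card G * ((q + 1) * (n + 1)) = Fintype.card G * (n + 1) * (q + 1) := by ring
    _ ≤ _ := h1
    _ = _ := by ring

end PPN
end

section

/-! # The self-conjugate case -/

set_option autoImplicit false

open Configuration Finset

namespace PPN

/-- an integer valued function on `A` with small autocorrelations `p`-adically is divisible by a
power of `p`, if `p` is self-conjugate -/
theorem self_conj {p : ℕ} [hp : Fact p.Prime] {A : Type} [CommGroup A] [Fintype A]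
    (t : ℕ) (ht1 : 1 ≤ t) (ht : ∀ a : A, a ^ (p ^ t) = a⁻¹) (α : ℕ) (e : ℕ) :
    2 * e ≤ α + 1 → ∀ f : A → ℤ, (∀ a, (p : ℤ) ^ α ∣ ∑ b, f (a * b) * f b) →
      ∀ a, (p : ℤ) ^ e ∣ f a := by
  classical
  induction e with
  | zero => intro _ f _ a; simp
  | succ e ih =>
    intro he f hf
    have h1 := ih (by omega) f hf
    choose g hg using h1
    have h2 : ∀ a, (p : ℤ) ∣ ∑ b, g (a * b) * g b := by
      intro a
      have h3 : ∑ b, f (a * b) * f b = (p : ℤ) ^ (2 * e) * ∑ b, g (a * b) * g b := by
        rw [mul_sum]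
        apply sum_congr rfl
        intro b _
        rw [hg (a * b), hg b, two_mul, pow_add]
        ring
      have h4 := hf a
      rw [h3] at h4
      have h5 : (p : ℤ) ^ (2 * e) * p ∣ (p : ℤ) ^ (2 * e) * ∑ b, g (a * b) * g b := by
        rw [← pow_succ]
        exact (pow_dvd_pow (p : ℤ) (by omega)).trans h4
      have hp0 : (p : ℤ) ^ (2 * e) ≠ 0 := pow_ne_zero _ (by exact_mod_cast hp.out.ne_zero)
      exact (mul_dvd_mul_iff_left hp0).1 h5
    -- the group algebra
    set x : MonoidAlgebra (ZMod p) A := ∑ a, MonoidAlgebra.single a ((g a : ℤ) : ZMod p) with hx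
    have h6 : x ^ (p ^ t) = ∑ a, MonoidAlgebra.single a⁻¹ ((g a : ℤ) : ZMod p) := by
      rw [hx, sum_pow_char_pow]
      apply sum_congr rfl
      intro a _
      rw [MonoidAlgebra.single_pow, ht a, ZMod.pow_card_pow]
    have h7 : x * x ^ (p ^ t) = 0 := by
      rw [h6, hx, sum_mul]
      simp only [mul_sum, MonoidAlgebra.single_mul_single]
      have h8 : ∑ a : A, ∑ b : A, (MonoidAlgebra.single (a * b⁻¹)
          (((g a : ℤ) : ZMod p) * ((g b : ℤ) : ZMod p)) : MonoidAlgebra (ZMod p) A)
          = ∑ a : A, MonoidAlgebra.single a (((∑ b, g (a * b) * g b : ℤ)) : ZMod p) := by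
        rw [sum_comm]
        have h9 : ∀ b : A, ∑ a : A, (MonoidAlgebra.single (a * b⁻¹)
          (((g a : ℤ) : ZMod p) * ((g b : ℤ) : ZMod p)) : MonoidAlgebra (ZMod p) A)
            = ∑ a : A, MonoidAlgebra.single a
              (((g (a * b) : ℤ) : ZMod p) * ((g b : ℤ) : ZMod p)) := by
          intro b
          refine (Fintype.sum_equiv (Equiv.mulRight b) _ _ (fun a => ?_)).symm
          simp
        rw [sum_congr rfl fun b _ => h9 b, sum_comm]
        apply sum_congr rfl
        intro a _
        have h10 := (map_sum (MonoidAlgebra.singleAddHom (R := ZMod p) a)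
          (fun b : A => ((g (a * b) : ℤ) : ZMod p) * ((g b : ℤ) : ZMod p)) univ).symm
        simp only [MonoidAlgebra.singleAddHom_apply] at h10
        rw [h10]
        push_cast
        rfl
      rw [h8]
      apply sum_eq_zero
      intro a _
      rw [(ZMod.intCast_zmod_eq_zero_iff_dvd _ _).2 (h2 a), MonoidAlgebra.single_zero]
    have h11 : x ^ (p ^ (2 * t)) = x := by
      apply frob_fix
      intro a
      rw [two_mul, pow_add, pow_mul, ht, ht, inv_inv]
    have h12 : x = 0 := by
      rw [← h11]
      have h13 : p ^ t + 1 ≤ p ^ (2 * t) := by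
        rw [two_mul, pow_add]
        have h14 : 2 ≤ p ^ t := by
          calc 2 ≤ p := hp.out.two_le
            _ = p ^ 1 := (pow_one p).symm
            _ ≤ p ^ t := Nat.pow_le_pow_right hp.out.pos ht1
        nlinarith
      apply pow_eq_zero_of_le h13
      rw [pow_succ', h7]
    intro a
    have h15 : x.coeff a = ((g a : ℤ) : ZMod p) := by
      rw [hx, MonoidAlgebra.coeff_sum, Finsupp.finsetSum_apply]
      simp only [MonoidAlgebra.coeff_single, Finsupp.single_apply]
      rw [sum_ite_eq' univ a, if_pos (mem_univ _)]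
    rw [h12] at h15
    have h16 : (p : ℤ) ∣ g a := (ZMod.intCast_zmod_eq_zero_iff_dvd _ _).1 h15.symm
    rw [hg a, pow_succ]
    exact mul_dvd_mul_left _ h16

variable {P Ln G : Type} [Membership P Ln] [Fintype P] [Fintype Ln] [ProjectivePlane P Ln]
  [Group G] [Fintype G] [MulAction G P] [MulAction G Ln] {L : Ln}

open Classical in
/-- the order of the stabiliser of a point of `L` -/
theorem Reg.card_U (h : Reg P G L) {l : Ln} (hl : l ≠ L) {X : P} (hX : X ∈ L) (hXl : X ∈ l) :
    (univ.filter (fun u : G => u • X = X)).card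
      = ProjectivePlane.order P Ln * (univ.filter (fun u : G => u • l = l)).card := by
  have h1 : (univ.filter (fun m : Ln => X ∈ m ∧ m ≠ L)).card = ProjectivePlane.order P Ln := by
    have h2 : (univ.filter (fun m : Ln => X ∈ m)).card
        = (univ.filter (fun m : Ln => X ∈ m ∧ m ≠ L)).card + 1 := by
      have h3 : univ.filter (fun m : Ln => X ∈ m)
          = insert L (univ.filter (fun m : Ln => X ∈ m ∧ m ≠ L)) := by
        ext m
        simp only [mem_filter, mem_univ, true_and, mem_insert]
        constructor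
        · intro hm
          by_cases hmL : m = L
          · exact Or.inl hmL
          · exact Or.inr ⟨hm, hmL⟩
        · rintro (rfl | hm)
          · exact hX
          · exact hm.1
      rw [h3, card_insert_of_notMem]
      simp
    rw [card_lines_through] at h2
    omega
  rw [← h1, ← smul_eq_mul, ← sum_const]
  have h4 : ∀ m ∈ univ.filter (fun m : Ln => X ∈ m ∧ m ≠ L),
      (univ.filter (fun u : G => u • l = l)).card
        = (univ.filter (fun u : G => u • X = X ∧ u • l = m)).card := by
    intro m hm
    have hm' := (mem_filter.1 hm).2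
    exact (h.card_stab hl hm'.2 hX hXl hm'.1).symm
  rw [sum_congr rfl h4]
  rw [card_eq_sum_card_fiberwise (f := fun u : G => u • l)
    (t := univ.filter (fun m : Ln => X ∈ m ∧ m ≠ L))]
  · apply sum_congr rfl
    intro m _
    rw [filter_filter]
  · intro u hu
    have hu' : u • X = X := (mem_filter.1 hu).2
    refine mem_filter.2 ⟨mem_univ _, ?_, h.smul_ne u hl⟩
    have := (h.inc u X l).1 hXl
    rwa [hu'] at this

open Classical in
/-- autocorrelation of the multiplicities -/
theorem Reg.autocorr (h : Reg P G L) {o : P} (ho : o ∉ L) {A : Type} [CommGroup A] [Fintype A]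
    (πA : G →* A) {l : Ln} (hl : l ≠ L) {X : P} (hX : X ∈ L) (hXl : X ∈ l) (a : A) :
    ∑ b, cc πA o l (a * b) * cc πA o l b
      + (univ.filter (fun u : G => πA u = a ∧ u • X = X)).card
      = (univ.filter (fun u : G => πA u = a)).card
        + ProjectivePlane.order P Ln * (univ.filter (fun u : G => πA u = a ∧ u • l = l)).card := by
  have h1 : ∑ b, cc πA o l (a * b) * cc πA o l b
      = ∑ u ∈ univ.filter (fun u : G => πA u = a), (DD G o l ∩ DD G o (u • l)).card := by
    have h2 : ∀ u : G, (DD G o l ∩ DD G o (u • l)).card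
        = ∑ g' ∈ DD G o l, if u * g' ∈ DD G o l then 1 else 0 := by
      intro u
      rw [← h.card_shift o l l u, card_filter]
    simp only [h2]
    rw [sum_comm]
    have h3 : ∀ g' ∈ DD G o l, ∑ u ∈ univ.filter (fun u : G => πA u = a),
        (if u * g' ∈ DD G o l then 1 else 0) = cc πA o l (a * πA g') := by
      intro g' _
      rw [← sum_filter, filter_filter, ← card_eq_sum_ones]
      unfold cc
      apply card_bij (fun u _ => u * g')
      · intro u hu
        simp only [mem_filter, mem_univ, true_and] at hu ⊢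
        exact ⟨hu.2, by rw [map_mul, hu.1]⟩
      · intro u _ u' _ huu
        exact mul_right_cancel huu
      · intro g hg
        simp only [mem_filter] at hg
        refine ⟨g * g'⁻¹, ?_, inv_mul_cancel_right g g'⟩
        simp only [mem_filter, mem_univ, true_and, inv_mul_cancel_right]
        refine ⟨?_, hg.1⟩
        rw [map_mul, map_inv, hg.2, mul_inv_cancel_right]
    rw [sum_congr rfl h3]
    have h4 : ∀ b : A, cc πA o l (a * b) * cc πA o l b
        = ∑ g' ∈ (DD G o l).filter (fun g => πA g = b), cc πA o l (a * πA g') := by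
      intro b
      have h5 : ∀ g' ∈ (DD G o l).filter (fun g => πA g = b), cc πA o l (a * πA g')
          = cc πA o l (a * b) := by
        intro g' hg'
        rw [(mem_filter.1 hg').2]
      rw [sum_congr rfl h5, sum_const, smul_eq_mul, mul_comm]
      rfl
    rw [sum_congr rfl fun b _ => h4 b]
    exact sum_fiberwise (DD G o l) (fun g => πA g) (fun g' => cc πA o l (a * πA g'))
  have h6 : ∀ u : G, (DD G o l ∩ DD G o (u • l)).card + (if u • X = X then 1 else 0)
      = 1 + ProjectivePlane.order P Ln * (if u • l = l then 1 else 0) := by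
    intro u
    rw [h.card_inter ho hl (h.smul_ne u hl) hX hXl (h.smul_mem u hX) ((h.inc u X l).1 hXl)]
    by_cases hu : u • X = X
    · rw [if_pos hu, if_pos hu]
      by_cases hul : u • l = l
      · rw [if_pos hul, if_pos hul]
        ring
      · rw [if_neg hul, if_neg hul]
        ring
    · have hul : u • l ≠ l := by
        intro hc
        apply hu
        have h7 : u • X ∈ l := by
          have := (h.inc u X l).1 hXl
          rwa [hc] at this
        exact point_unique hl h7 (h.smul_mem u hX) hXl hX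
      rw [if_neg hu, if_neg hu, if_neg hul]
      ring
  rw [h1]
  have h8 : (univ.filter (fun u : G => πA u = a ∧ u • X = X)).card
      = ∑ u ∈ univ.filter (fun u : G => πA u = a), if u • X = X then 1 else 0 := by
    rw [← filter_filter, card_filter]
  have h9 : (univ.filter (fun u : G => πA u = a ∧ u • l = l)).card
      = ∑ u ∈ univ.filter (fun u : G => πA u = a), if u • l = l then 1 else 0 := by
    rw [← filter_filter, card_filter]
  rw [h8, h9, ← sum_add_distrib, sum_congr rfl fun u _ => h6 u, sum_add_distrib, mul_sum,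
    ← card_eq_sum_ones]

open Classical in
/-- a coset count: fibres of a homomorphism on a subgroup -/
theorem dvd_fibre {A : Type} [CommGroup A] [Fintype A] (πA : G →* A) (p α : ℕ) [hp : Fact p.Prime]
    (hA : Nat.Coprime p (Fintype.card A)) (U : Subgroup G) (hU : p ^ α ∣ Nat.card U) (a : A) :
    p ^ α ∣ (univ.filter (fun u : G => πA u = a ∧ u ∈ U)).card := by
  set f : U →* A := πA.comp U.subtype with hf
  have h1 : p ^ α ∣ Nat.card f.ker := by
    have h2 : Nat.card U = Nat.card f.range * Nat.card f.ker := by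
      rw [Subgroup.card_eq_card_quotient_mul_card_subgroup f.ker,
        Nat.card_congr (QuotientGroup.quotientKerEquivRange f).toEquiv]
    have h3 : Nat.card f.range ∣ Fintype.card A := by
      rw [← Nat.card_eq_fintype_card]
      exact Subgroup.card_subgroup_dvd_card _
    have h4 : Nat.Coprime (p ^ α) (Nat.card f.range) :=
      (Nat.Coprime.pow_left α hA).coprime_dvd_right h3
    rw [h2] at hU
    exact h4.dvd_of_dvd_mul_left hU
  by_cases hne : (univ.filter (fun u : G => πA u = a ∧ u ∈ U)).Nonempty
  · obtain ⟨x, hx⟩ := hne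
    rw [mem_filter] at hx
    have h5 : (univ.filter (fun u : G => πA u = a ∧ u ∈ U)).card = Nat.card f.ker := by
      rw [Nat.card_eq_fintype_card, ← Fintype.card_coe]
      apply Fintype.card_congr
      refine ⟨fun u => ⟨⟨x⁻¹ * u.1, ?_⟩, ?_⟩, fun v => ⟨x * v.1.1, ?_⟩, fun u => ?_, fun v => ?_⟩
      · exact U.mul_mem (U.inv_mem hx.2.2) (mem_filter.1 u.2).2.2
      · rw [MonoidHom.mem_ker]
        show πA (x⁻¹ * u.1) = 1
        rw [map_mul, map_inv, hx.2.1, (mem_filter.1 u.2).2.1, inv_mul_cancel]
      · rw [mem_filter]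
        refine ⟨mem_univ _, ?_, U.mul_mem hx.2.2 v.1.2⟩
        have h6 : πA v.1.1 = 1 := v.2
        rw [map_mul, h6, hx.2.1, mul_one]
      · apply Subtype.ext
        simp
      · apply Subtype.ext
        apply Subtype.ext
        simp
    rw [h5]
    exact h1
  · rw [not_nonempty_iff_eq_empty.1 hne, card_empty]
    exact dvd_zero _

open Classical in
/-- the self-conjugate case: divisibility of the multiplicities -/
theorem Reg.dvd_cc (h : Reg P G L) {p : ℕ} [hp : Fact p.Prime] {o : P} (ho : o ∉ L) {A : Type}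
    [CommGroup A] [Fintype A] (πA : G →* A) (α e t : ℕ) (ht1 : 1 ≤ t)
    (ht : ∀ a : A, a ^ (p ^ t) = a⁻¹) (hα : p ^ α ∣ ProjectivePlane.order P Ln)
    (hA : Nat.Coprime p (Fintype.card A)) (he : 2 * e ≤ α + 1) {l : Ln} (hl : l ≠ L) (a : A) :
    p ^ e ∣ cc πA o l a := by
  obtain ⟨X, hXl, hX⟩ := exists_point (P := P) hl
  have h1 : ∀ a : A, p ^ α ∣ ∑ b, cc πA o l (a * b) * cc πA o l b := by
    intro a
    have h2 := h.autocorr ho πA hl hX hXl a
    have h3 : p ^ α ∣ (univ.filter (fun u : G => πA u = a ∧ u • X = X)).card := by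
      have := dvd_fibre πA p α hA (MulAction.stabilizer G X) (by
        have h4 : Nat.card (MulAction.stabilizer G X)
            = (univ.filter (fun u : G => u • X = X)).card := by
          rw [Nat.card_eq_fintype_card, ← Fintype.card_coe]
          apply Fintype.card_congr
          exact Equiv.subtypeEquivRight (by
            intro u
            simp [MulAction.mem_stabilizer_iff])
        rw [h4, h.card_U hl hX hXl]
        exact Dvd.dvd.mul_right hα _) a
      simpa only [MulAction.mem_stabilizer_iff] using this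
    have h5 : p ^ α ∣ (univ.filter (fun u : G => πA u = a)).card := by
      have := dvd_fibre πA p α hA (⊤ : Subgroup G) (by
        rw [Subgroup.card_top, Nat.card_eq_fintype_card, h.card_G, pow_two]
        exact Dvd.dvd.mul_right hα _) a
      simpa only [Subgroup.mem_top, and_true] using this
    have h6 : p ^ α ∣ (univ.filter (fun u : G => πA u = a)).card
        + ProjectivePlane.order P Ln * (univ.filter (fun u : G => πA u = a ∧ u • l = l)).card :=
      dvd_add h5 (Dvd.dvd.mul_right hα _)
    rw [← h2] at h6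
    exact (Nat.dvd_add_left h3).1 h6
  have h7 := self_conj (p := p) t ht1 ht α e he (fun a => (cc πA o l a : ℤ)) (by
    intro a
    have := h1 a
    exact_mod_cast this) a
  exact_mod_cast h7

/-- the inequality in the self-conjugate case -/
theorem Reg.ineq_conj (h : Reg P G L) {p : ℕ} [hp : Fact p.Prime] {A : Type}
    [CommGroup A] [Fintype A] (πA : G →* A) (α e t : ℕ) (ht1 : 1 ≤ t)
    (ht : ∀ a : A, a ^ (p ^ t) = a⁻¹) (hα : p ^ α ∣ ProjectivePlane.order P Ln)
    (hA : Nat.Coprime p (Fintype.card A)) (he : 2 * e ≤ α + 1) :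
    p ^ e * (ProjectivePlane.order P Ln + 1)
      ≤ ProjectivePlane.order P Ln + Nat.card πA.ker := by
  classical
  rw [← card_filter_ker]
  obtain ⟨o, ho⟩ := exists_off (P := P) L
  set n := ProjectivePlane.order P Ln with hn
  have h1 : ∑ l ∈ univ.filter (fun l : Ln => l ≠ L), ∑ g ∈ DD G o l, p ^ e
      ≤ ∑ l ∈ univ.filter (fun l : Ln => l ≠ L), ∑ g ∈ DD G o l, cc πA o l (πA g) := by
    apply sum_le_sum
    intro l hl
    apply sum_le_sum
    intro g hg
    have hpos : 0 < cc πA o l (πA g) := card_pos.2 ⟨g, mem_filter.2 ⟨hg, rfl⟩⟩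
    apply Nat.le_of_dvd hpos
    exact h.dvd_cc ho πA α e t ht1 ht hα hA he (mem_filter.1 hl).2 _
  simp only [sum_const, smul_eq_mul, ← sum_mul] at h1
  rw [h.first ho, h.second ho πA] at h1
  have h2 : 0 < Fintype.card G := Fintype.card_pos
  apply Nat.le_of_mul_le_mul_left _ h2
  calc Fintype.card G * (p ^ e * (n + 1)) = Fintype.card G * (n + 1) * p ^ e := by ring
    _ ≤ _ := h1

end PPN
end
end
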