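import Pool.Agent.Lib.MP_308a3a_co.Conj

section

/-! # Normal Sylow subgroups: the orbits on the fixed line -/

set_option autoImplicit false

open Configuration Finset

namespace PPN

variable {P Ln G : Type} [Membership P Ln] [Fintype P] [Fintype Ln] [ProjectivePlane P Ln]
  [Group G] [Fintype G] [MulAction G P] [MulAction G Ln] {L : Ln}

theorem card_inf_mul {G : Type} [Group G] [Finite G] (S K : Subgroup G) [S.Normal] :
    ∃ r, r ∣ S.index ∧ Nat.card K = r * Nat.card (S ⊓ K : Subgroup G) := by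
  refine ⟨S.relIndex K, Subgroup.relIndex_dvd_index_of_normal S K, ?_⟩
  have h1 := Subgroup.relIndex_mul_relIndex ⊥ (S ⊓ K) K bot_le inf_le_right
  rw [Subgroup.relIndex_bot_left, Subgroup.relIndex_bot_left, Subgroup.inf_relIndex_right] at h1
  rw [← h1, mul_comm]

theorem Reg.card_stab_point (h : Reg P G L) {l : Ln} (hl : l ≠ L) {X : P} (hX : X ∈ L)
    (hXl : X ∈ l) : Nat.card (MulAction.stabilizer G X)
      = ProjectivePlane.order P Ln * Nat.card (MulAction.stabilizer G l) := by
  classical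
  have h1 := h.card_U hl hX hXl
  have h2 : Nat.card (MulAction.stabilizer G X) = (univ.filter (fun u : G => u • X = X)).card := by
    rw [Nat.card_eq_fintype_card, ← Fintype.card_coe]
    apply Fintype.card_congr
    exact Equiv.subtypeEquivRight (by intro u; simp [MulAction.mem_stabilizer_iff])
  have h3 : Nat.card (MulAction.stabilizer G l) = (univ.filter (fun u : G => u • l = l)).card := by
    rw [Nat.card_eq_fintype_card, ← Fintype.card_coe]
    apply Fintype.card_congr
    exact Equiv.subtypeEquivRight (by intro u; simp [MulAction.mem_stabilizer_iff])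
  rw [h2, h3, h1]

/-- the stabilisers in a normal Sylow subgroup -/
theorem Reg.card_inf (h : Reg P G L) {p a m : ℕ} (hp : p.Prime) (hm : Nat.Coprime p m)
    (hn : ProjectivePlane.order P Ln = p ^ a * m) (S : Subgroup G) [S.Normal]
    (hS : Nat.card S = p ^ (2 * a)) {l : Ln} (hl : l ≠ L) {X : P} (hX : X ∈ L) (hXl : X ∈ l) :
    Nat.card (S ⊓ MulAction.stabilizer G X : Subgroup G)
      = p ^ a * Nat.card (S ⊓ MulAction.stabilizer G l : Subgroup G) := by
  have hindex : S.index = m ^ 2 := by
    have h1 := Subgroup.card_mul_index S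
    rw [Nat.card_eq_fintype_card (α := G), h.card_G, hn, hS] at h1
    have h2 : (p ^ a * m) ^ 2 = p ^ (2 * a) * m ^ 2 := by
      rw [mul_pow, ← pow_mul, mul_comm a 2]
    rw [h2] at h1
    exact Nat.eq_of_mul_eq_mul_left (pow_pos hp.pos _) h1
  have hpow : ∀ K : Subgroup G, ∃ k, Nat.card (S ⊓ K : Subgroup G) = p ^ k := by
    intro K
    have h1 : Nat.card (S ⊓ K : Subgroup G) ∣ p ^ (2 * a) := by
      rw [← hS]
      exact Subgroup.card_dvd_of_le inf_le_left
    obtain ⟨k, _, hk⟩ := (Nat.dvd_prime_pow hp).1 h1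
    exact ⟨k, hk⟩
  obtain ⟨r1, hr1, hr1'⟩ := card_inf_mul S (MulAction.stabilizer G X)
  obtain ⟨r2, hr2, hr2'⟩ := card_inf_mul S (MulAction.stabilizer G l)
  obtain ⟨k1, hk1⟩ := hpow (MulAction.stabilizer G X)
  obtain ⟨k2, hk2⟩ := hpow (MulAction.stabilizer G l)
  have h1 := h.card_stab_point hl hX hXl
  rw [hr1', hr2', hn, hk1, hk2] at h1
  rw [hk1, hk2]
  rw [hindex] at hr1 hr2
  have hc1 : Nat.Coprime p r1 := (Nat.Coprime.pow_right 2 hm).coprime_dvd_right hr1
  have hc2 : Nat.Coprime p r2 := (Nat.Coprime.pow_right 2 hm).coprime_dvd_right hr2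
  apply Nat.dvd_antisymm
  · have h2 : p ^ k1 ∣ (p ^ a * p ^ k2) * (m * r2) := ⟨r1, by rw [mul_comm (p ^ k1), h1]; ring⟩
    exact (Nat.Coprime.pow_left k1 (Nat.Coprime.mul_right hm hc2)).dvd_of_dvd_mul_right h2
  · have h2 : p ^ a * p ^ k2 ∣ r1 * p ^ k1 := ⟨m * r2, by rw [h1]; ring⟩
    rw [← pow_add] at h2 ⊢
    exact (Nat.Coprime.pow_left (a + k2) hc1).dvd_of_dvd_mul_left h2

open Classical in
/-- counting fixed points and fixed lines over a subgroup -/
theorem Reg.sum_stab (h : Reg P G L) (S : Subgroup G) :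
    ∑ X : P, (univ.filter (fun u : G => u ∈ S ∧ u • X = X)).card
      = ∑ l : Ln, (univ.filter (fun u : G => u ∈ S ∧ u • l = l)).card := by
  have h1 : ∀ g : G, (univ.filter (fun p : P => g • p = p)).card
      = (univ.filter (fun l : Ln => g • l = l)).card := card_fixed_eq h.inc
  have h2 : ∑ X : P, (univ.filter (fun u : G => u ∈ S ∧ u • X = X)).card
      = ∑ u ∈ univ.filter (fun u : G => u ∈ S), (univ.filter (fun p : P => u • p = p)).card := by
    simp only [card_filter, sum_filter]
    rw [sum_comm]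
    apply sum_congr rfl
    intro u _
    by_cases hu : u ∈ S <;> simp [hu]
  have h3 : ∑ l : Ln, (univ.filter (fun u : G => u ∈ S ∧ u • l = l)).card
      = ∑ u ∈ univ.filter (fun u : G => u ∈ S), (univ.filter (fun l : Ln => u • l = l)).card := by
    simp only [card_filter, sum_filter]
    rw [sum_comm]
    apply sum_congr rfl
    intro u _
    by_cases hu : u ∈ S <;> simp [hu]
  rw [h2, h3]
  exact sum_congr rfl fun u _ => h1 u

open Classical in
theorem card_inf_filter {α : Type} [MulAction G α] (S : Subgroup G) (x : α) :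
    (univ.filter (fun u : G => u ∈ S ∧ u • x = x)).card
      = Nat.card (S ⊓ MulAction.stabilizer G x : Subgroup G) := by
  rw [Nat.card_eq_fintype_card, ← Fintype.card_coe]
  apply Fintype.card_congr
  exact Equiv.subtypeEquivRight (by
    intro u
    simp [Subgroup.mem_inf, MulAction.mem_stabilizer_iff])

open Classical in
theorem Reg.sum_FP (h : Reg P G L) {p a m : ℕ} (hp : p.Prime) (hm : Nat.Coprime p m)
    (hn : ProjectivePlane.order P Ln = p ^ a * m) (S : Subgroup G) [S.Normal]
    (hS : Nat.card S = p ^ (2 * a)) :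
    ProjectivePlane.order P Ln ^ 2
      + ∑ X ∈ univ.filter (fun X : P => X ∈ L),
        Nat.card (S ⊓ MulAction.stabilizer G X : Subgroup G)
      = p ^ (2 * a) + m * ∑ X ∈ univ.filter (fun X : P => X ∈ L),
        Nat.card (S ⊓ MulAction.stabilizer G X : Subgroup G) := by
  have h1 := h.sum_stab S
  simp only [card_inf_filter] at h1
  -- points
  have h2 : ∑ X : P, Nat.card (S ⊓ MulAction.stabilizer G X : Subgroup G)
      = ProjectivePlane.order P Ln ^ 2 + ∑ X ∈ univ.filter (fun X : P => X ∈ L),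
        Nat.card (S ⊓ MulAction.stabilizer G X : Subgroup G) := by
    rw [← sum_filter_add_sum_filter_not univ (fun X : P => X ∈ L), add_comm]
    congr 1
    rw [← card_off (P := P) L, card_eq_sum_ones]
    apply sum_congr rfl
    intro X hX
    have hX' := (mem_filter.1 hX).2
    have h3 : (S ⊓ MulAction.stabilizer G X : Subgroup G) = ⊥ := by
      rw [eq_bot_iff]
      intro u hu
      rw [Subgroup.mem_bot]
      have hu2 : u • X = X := MulAction.mem_stabilizer_iff.1 (Subgroup.mem_inf.1 hu).2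
      exact h.inj hX' (by
        show u • X = (1 : G) • X
        rw [hu2, one_smul])
    rw [h3, Subgroup.card_bot]
  -- lines
  have h3 : ∑ l : Ln, Nat.card (S ⊓ MulAction.stabilizer G l : Subgroup G)
      = p ^ (2 * a) + ∑ l ∈ univ.filter (fun l : Ln => l ≠ L),
        Nat.card (S ⊓ MulAction.stabilizer G l : Subgroup G) := by
    rw [← sum_filter_add_sum_filter_not univ (fun l : Ln => l ≠ L), add_comm]
    congr 1
    have h4 : univ.filter (fun l : Ln => ¬ l ≠ L) = {L} := by
      ext l
      simp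
    rw [h4, sum_singleton]
    have h5 : (S ⊓ MulAction.stabilizer G L : Subgroup G) = S := by
      rw [inf_eq_left]
      intro u _
      exact MulAction.mem_stabilizer_iff.2 (h.fixL u)
    rw [h5, hS]
  have h4 : p ^ a * ∑ l ∈ univ.filter (fun l : Ln => l ≠ L),
        Nat.card (S ⊓ MulAction.stabilizer G l : Subgroup G)
      = p ^ a * (m * ∑ X ∈ univ.filter (fun X : P => X ∈ L),
        Nat.card (S ⊓ MulAction.stabilizer G X : Subgroup G)) := by
    rw [← mul_assoc, ← hn, mul_sum, mul_sum]
    have h5 : ∀ l ∈ univ.filter (fun l : Ln => l ≠ L),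
        p ^ a * Nat.card (S ⊓ MulAction.stabilizer G l : Subgroup G)
        = ∑ X ∈ univ.filter (fun X : P => X ∈ L), if X ∈ l then
          Nat.card (S ⊓ MulAction.stabilizer G X : Subgroup G) else 0 := by
      intro l hl
      have hl' := (mem_filter.1 hl).2
      obtain ⟨Y, hY1, hY2⟩ := exists_point (P := P) hl'
      rw [← sum_filter]
      have h6 : (univ.filter (fun X : P => X ∈ L)).filter (fun X => X ∈ l) = {Y} := by
        ext Z
        simp only [mem_filter, mem_univ, true_and, mem_singleton]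
        constructor
        · rintro ⟨h7, h8⟩
          exact point_unique hl' h8 h7 hY1 hY2
        · rintro rfl
          exact ⟨hY2, hY1⟩
      rw [h6, sum_singleton, h.card_inf hp hm hn S hS hl' hY2 hY1]
    rw [sum_congr rfl h5, sum_comm]
    apply sum_congr rfl
    intro X hX
    have hX' := (mem_filter.1 hX).2
    rw [← sum_filter, filter_filter, sum_const, smul_eq_mul]
    congr 1
    have h6 : (univ.filter (fun m : Ln => X ∈ m)).card
        = (univ.filter (fun m : Ln => m ≠ L ∧ X ∈ m)).card + 1 := by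
      have h7 : univ.filter (fun m : Ln => X ∈ m)
          = insert L (univ.filter (fun m : Ln => m ≠ L ∧ X ∈ m)) := by
        ext m
        simp only [mem_filter, mem_univ, true_and, mem_insert]
        constructor
        · intro hm
          by_cases hmL : m = L
          · exact Or.inl hmL
          · exact Or.inr ⟨hmL, hm⟩
        · rintro (rfl | hm)
          · exact hX'
          · exact hm.2
      rw [h7, card_insert_of_notMem]
      simp
    rw [card_lines_through] at h6
    omega
  have h5 := Nat.eq_of_mul_eq_mul_left (pow_pos hp.pos a) h4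
  rw [← h5, ← h2, ← h3]
  exact h1

/-- the orbit structure on the fixed line -/
theorem Reg.orbit_main (h : Reg P G L) {p a m : ℕ} (hp : p.Prime) (hm : Nat.Coprime p m)
    (ha : 1 ≤ a) (hm1 : 1 < m)
    (hn : ProjectivePlane.order P Ln = p ^ a * m) (S : Subgroup G) [S.Normal]
    (hS : Nat.card S = p ^ (2 * a)) :
    ∃ X0 : P, X0 ∈ L ∧ (∀ g : G, g • X0 = X0) ∧ ∀ X : P, X ∈ L → X ≠ X0 →
      Nat.card (S ⊓ MulAction.stabilizer G X : Subgroup G) = p ^ a := by
  classical
  have : Fact p.Prime := ⟨hp⟩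
  set F : P → ℕ := fun X => Nat.card (S ⊓ MulAction.stabilizer G X : Subgroup G) with hF
  have h1 := h.sum_FP hp hm hn S hS
  have h1' : ProjectivePlane.order P Ln ^ 2 + ∑ X ∈ univ.filter (fun X : P => X ∈ L), F X
      = p ^ (2 * a) + m * ∑ X ∈ univ.filter (fun X : P => X ∈ L), F X := h1
  have h2 : ∑ X ∈ univ.filter (fun X : P => X ∈ L), F X = p ^ (2 * a) * (m + 1) := by
    rw [hn] at h1'
    set T := ∑ X ∈ univ.filter (fun X : P => X ∈ L), F X
    obtain ⟨k, rfl⟩ : ∃ k, m = k + 2 := ⟨m - 2, by omega⟩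
    have h3 : (p ^ a * (k + 2)) ^ 2 = p ^ (2 * a) * (k + 2) ^ 2 := by
      rw [mul_pow, ← pow_mul, mul_comm a 2]
    rw [h3] at h1'
    have h4 : (k + 1) * T = (k + 1) * (p ^ (2 * a) * (k + 2 + 1)) := by nlinarith
    exact Nat.eq_of_mul_eq_mul_left (Nat.succ_pos k) h4
  -- lower bound
  have hlow : ∀ X ∈ L, p ^ a ≤ F X := by
    intro X hX
    obtain ⟨o, ho⟩ := exists_off (P := P) L
    obtain ⟨l, hl1, hl2⟩ := exists_line (Ln := Ln) X o (fun hc => ho (hc ▸ hX))
    have hlL : l ≠ L := fun hc => ho (hc ▸ hl2)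
    have h3 := h.card_inf hp hm hn S hS hlL hX hl1
    show p ^ a ≤ Nat.card (S ⊓ MulAction.stabilizer G X : Subgroup G)
    rw [h3]
    exact Nat.le_mul_of_pos_right _ Nat.card_pos
  -- a fixed point
  have hSp : IsPGroup p S := IsPGroup.of_card hS
  have hdvd : p ∣ ProjectivePlane.order P Ln := by
    rw [hn]
    exact Dvd.dvd.mul_right (dvd_pow_self p (by omega)) m
  obtain ⟨X0, hX0⟩ : ∃ X0 : P, X0 ∈ MulAction.fixedPoints S P := by
    have h3 := hSp.card_modEq_card_fixedPoints P
    by_contra hcon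
    push Not at hcon
    have h4 : Nat.card (MulAction.fixedPoints S P) = 0 := by
      rw [Nat.card_eq_zero]
      left
      exact ⟨fun x => hcon x.1 x.2⟩
    rw [h4, Nat.modEq_zero_iff_dvd, Nat.card_eq_fintype_card, ProjectivePlane.card_points P Ln] at h3
    have h5 : p ∣ 1 := by
      have h6 : p ∣ ProjectivePlane.order P Ln ^ 2 + ProjectivePlane.order P Ln :=
        dvd_add (Dvd.dvd.pow hdvd (by norm_num)) hdvd
      exact (Nat.dvd_add_right h6).1 h3
    exact hp.one_lt.ne' (Nat.dvd_one.1 h5)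
  have hX0' : ∀ u ∈ S, u • X0 = X0 := fun u hu => hX0 ⟨u, hu⟩
  have hS1 : 1 < Nat.card S := by
    rw [hS]
    exact Nat.one_lt_pow (by omega) hp.one_lt
  have hX0L : X0 ∈ L := by
    by_contra hX
    have h3 : S = ⊥ := by
      rw [eq_bot_iff]
      intro u hu
      rw [Subgroup.mem_bot]
      exact h.inj hX (by
        show u • X0 = (1 : G) • X0
        rw [hX0' u hu, one_smul])
    rw [h3, Subgroup.card_bot] at hS1
    omega
  have hfull : ∀ Y : P, (∀ u ∈ S, u • Y = Y) → F Y = p ^ (2 * a) := by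
    intro Y hY
    show Nat.card (S ⊓ MulAction.stabilizer G Y : Subgroup G) = _
    have h3 : (S ⊓ MulAction.stabilizer G Y : Subgroup G) = S := by
      rw [inf_eq_left]
      intro u hu
      exact MulAction.mem_stabilizer_iff.2 (hY u hu)
    rw [h3, hS]
  have h3 : ∑ X ∈ (univ.filter (fun X : P => X ∈ L)).erase X0, F X = p ^ (2 * a) * m := by
    have h4 := add_sum_erase (univ.filter (fun X : P => X ∈ L)) F
      (mem_filter.2 ⟨mem_univ X0, hX0L⟩)
    rw [h2, hfull X0 hX0', mul_add, mul_one, add_comm (p ^ (2 * a) * m)] at h4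
    exact Nat.add_left_cancel h4
  have hcard : ((univ.filter (fun X : P => X ∈ L)).erase X0).card = p ^ a * m := by
    rw [card_erase_of_mem (mem_filter.2 ⟨mem_univ X0, hX0L⟩), card_points_on, hn]
    rfl
  have h4 : ∀ X : P, X ∈ L → X ≠ X0 → F X = p ^ a := by
    have h5 : ∑ X ∈ (univ.filter (fun X : P => X ∈ L)).erase X0, p ^ a
        = ∑ X ∈ (univ.filter (fun X : P => X ∈ L)).erase X0, F X := by
      rw [h3, sum_const, hcard, smul_eq_mul, two_mul, pow_add]
      ring
    have h6 := (sum_eq_sum_iff_of_le (fun X hX =>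
      hlow X (mem_filter.1 (mem_of_mem_erase hX)).2)).1 h5
    intro X hX hXX
    exact (h6 X (mem_erase.2 ⟨hXX, mem_filter.2 ⟨mem_univ X, hX⟩⟩)).symm
  refine ⟨X0, hX0L, ?_, h4⟩
  intro g
  by_contra hg
  have h5 := h4 (g • X0) (h.smul_mem g hX0L) hg
  have h6 : F (g • X0) = p ^ (2 * a) := by
    apply hfull
    intro u hu
    have h7 : g⁻¹ * u * g ∈ S := by
      have := (inferInstance : S.Normal).conj_mem u hu g⁻¹
      rwa [inv_inv] at this
    have h8 := hX0' _ h7
    rw [mul_smul, mul_smul, inv_smul_eq_iff] at h8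
    exact h8
  rw [h6] at h5
  have h7 : 2 * a = a := Nat.pow_right_injective hp.two_le h5
  omega

end PPN
end

section

/-! # Normal nilpotent Hall subgroups: the orbits on the fixed line -/

set_option autoImplicit false

open Configuration Finset

namespace PPN

/-- Sylow subgroups of a normal nilpotent Hall subgroup -/
theorem sylow_of_hall {G : Type} [Group G] [Finite G] (H : Subgroup G) [H.Normal]
    [Group.IsNilpotent H] (p : ℕ) [Fact p.Prime] :
    ∃ S : Subgroup G, S.Normal ∧ S ≤ H ∧ Nat.card S = ordProj[p] (Nat.card H) := by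
  obtain ⟨Q⟩ : Nonempty (Sylow p H) := inferInstance
  have hQ : (Q : Subgroup H).Normal := inferInstance
  have hQc : (Q : Subgroup H).Characteristic := Sylow.characteristic_of_normal Q hQ
  refine ⟨(Q : Subgroup H).map H.subtype, inferInstance, ?_, ?_⟩
  · rintro _ ⟨x, _, rfl⟩
    exact x.2
  · rw [Subgroup.card_map_of_injective H.subtype_injective]
    exact Sylow.card_eq_multiplicity Q

variable {P Ln G : Type} [Membership P Ln] [Fintype P] [Fintype Ln] [ProjectivePlane P Ln]
  [Group G] [Fintype G] [MulAction G P] [MulAction G Ln] {L : Ln}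

theorem Reg.hall_prime (h : Reg P G L) (hnp : ¬ IsPrimePow (ProjectivePlane.order P Ln))
    (H : Subgroup G) [H.Normal] [Group.IsNilpotent H]
    (hHall : Nat.Coprime (Nat.card H) H.index) {p : ℕ} (hp : p.Prime) (hpH : p ∣ Nat.card H) :
    ∃ (S : Subgroup G) (a : ℕ) (X0 : P), S.Normal ∧ S ≤ H ∧ 1 ≤ a ∧ Nat.card S = p ^ (2 * a) ∧
      (Nat.card H).factorization p = 2 * a ∧ Nat.Coprime p S.index ∧
      X0 ∈ L ∧ (∀ g : G, g • X0 = X0) ∧ ∀ X : P, X ∈ L → X ≠ X0 →
      Nat.card (S ⊓ MulAction.stabilizer G X : Subgroup G) = p ^ a := by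
  have : Fact p.Prime := ⟨hp⟩
  have hn0 : ProjectivePlane.order P Ln ≠ 0 :=
    (lt_trans Nat.zero_lt_one (ProjectivePlane.one_lt_order P Ln)).ne'
  obtain ⟨S, hSn, hSH, hSc⟩ := sylow_of_hall H p
  have hcG : Nat.card H * H.index = ProjectivePlane.order P Ln ^ 2 := by
    rw [Subgroup.card_mul_index, Nat.card_eq_fintype_card, h.card_G]
  have hpi : ¬ p ∣ H.index := by
    intro hc
    exact hp.one_lt.ne' (Nat.dvd_one.1 (hHall ▸ Nat.dvd_gcd hpH hc))
  set n := ProjectivePlane.order P Ln with hn
  set a := n.factorization p with ha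
  have hfac : (Nat.card H).factorization p = 2 * a := by
    have h1 : (Nat.card H * H.index).factorization p = (n ^ 2).factorization p := by rw [hcG]
    rw [Nat.factorization_mul Nat.card_pos.ne' (Subgroup.index_ne_zero_of_finite),
      Nat.factorization_pow] at h1
    simp only [Finsupp.coe_add, Finsupp.coe_smul, Pi.add_apply, Pi.smul_apply, smul_eq_mul] at h1
    rw [Nat.factorization_eq_zero_of_not_dvd hpi, add_zero] at h1
    exact h1
  have hpn : p ∣ n := by
    apply hp.dvd_of_dvd_pow (n := 2)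
    rw [← hcG]
    exact Dvd.dvd.mul_right hpH _
  have ha1 : 1 ≤ a := Nat.Prime.factorization_pos_of_dvd hp hn0 hpn
  have hS : Nat.card S = p ^ (2 * a) := by rw [hSc, hfac]
  have hdec : n = p ^ a * ordCompl[p] n := (Nat.ordProj_mul_ordCompl_eq_self n p).symm
  have hcop : Nat.Coprime p (ordCompl[p] n) := Nat.coprime_ordCompl hp hn0
  have hm1 : 1 < ordCompl[p] n := by
    have h1 : 0 < ordCompl[p] n := Nat.ordCompl_pos p hn0
    by_contra hcon
    have h2 : ordCompl[p] n = 1 := by omega
    apply hnp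
    rw [h2, mul_one] at hdec
    rw [hdec]
    exact hp.isPrimePow.pow (by omega)
  obtain ⟨X0, h1, h2, h3⟩ := h.orbit_main hp hcop ha1 hm1 hdec S hS
  refine ⟨S, a, X0, hSn, hSH, ha1, hS, hfac, ?_, h1, h2, h3⟩
  have h4 := Subgroup.card_mul_index S
  rw [hS, Nat.card_eq_fintype_card, h.card_G, ← hn] at h4
  have h5 : S.index = (ordCompl[p] n) ^ 2 := by
    have h6 : n ^ 2 = p ^ (2 * a) * (ordCompl[p] n) ^ 2 := by
      conv_lhs => rw [hdec]
      rw [mul_pow, ← pow_mul, mul_comm a 2]
    rw [h6] at h4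
    exact Nat.eq_of_mul_eq_mul_left (pow_pos hp.pos _) h4
  rw [h5]
  exact Nat.Coprime.pow_right 2 hcop

theorem card_stab_sub {G P : Type} [Group G] [Finite G] [MulAction G P] (H : Subgroup G) (X : P) :
    Nat.card (MulAction.stabilizer H X) = Nat.card (H ⊓ MulAction.stabilizer G X : Subgroup G) := by
  apply Nat.card_congr
  refine ⟨fun u => ⟨u.1.1, Subgroup.mem_inf.2 ⟨u.1.2, u.2⟩⟩,
    fun u => ⟨⟨u.1, (Subgroup.mem_inf.1 u.2).1⟩, (Subgroup.mem_inf.1 u.2).2⟩, fun u => rfl,
    fun u => rfl⟩

theorem Reg.hall (h : Reg P G L) (hnp : ¬ IsPrimePow (ProjectivePlane.order P Ln))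
    (H : Subgroup G) [H.Normal] [Group.IsNilpotent H]
    (hHall : Nat.Coprime (Nat.card H) H.index) (hH : H ≠ ⊥) :
    ∃ X0 : P, X0 ∈ L ∧ (∀ g : G, g • X0 = X0) ∧
      (∀ X : P, X ∈ L → X ≠ X0 → Nat.card (MulAction.orbit H X) ^ 2 = Nat.card H) ∧
      ∀ l : Ln, X0 ∉ l → ∀ u ∈ H, u • l = l → u = 1 := by
  classical
  have hH1 : 1 < Nat.card H := by
    rw [Subgroup.one_lt_card_iff_ne_bot]
    exact hH
  obtain ⟨p0, hp0, hp0H⟩ := Nat.exists_prime_and_dvd hH1.ne'
  obtain ⟨S0, a0, X0, _, _, _, _, _, _, hX0L, hX0, _⟩ := h.hall_prime hnp H hHall hp0 hp0H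
  have key0 : ∀ p : ℕ, p.Prime → p ∣ Nat.card H → ∃ (S : Subgroup G) (a : ℕ), S.Normal ∧ S ≤ H ∧
      1 ≤ a ∧ Nat.card S = p ^ (2 * a) ∧
      (Nat.card H).factorization p = 2 * a ∧ Nat.Coprime p S.index ∧
      ∀ X : P, X ∈ L → X ≠ X0 →
      Nat.card (S ⊓ MulAction.stabilizer G X : Subgroup G) = p ^ a := by
    intro p hp hpH
    obtain ⟨S, a, X1, hSn, hSH, ha, hSc, hfac, hcop, hX1L, hX1, hS⟩ :=
      h.hall_prime hnp H hHall hp hpH
    have h01 : X0 = X1 := by
      by_contra hne
      have h1 := hS X0 hX0L hne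
      have h2 : (S ⊓ MulAction.stabilizer G X0 : Subgroup G) = S := by
        rw [inf_eq_left]
        intro u _
        exact MulAction.mem_stabilizer_iff.2 (hX0 u)
      rw [h2, hSc] at h1
      have h3 : 2 * a = a := Nat.pow_right_injective hp.two_le h1
      omega
    exact ⟨S, a, hSn, hSH, ha, hSc, hfac, hcop, fun X hX hXX => hS X hX (h01 ▸ hXX)⟩
  refine ⟨X0, hX0L, hX0, ?_, ?_⟩
  · intro X hX hXX
    have key : ∀ p : ℕ, p.Prime →
        2 * (Nat.card (H ⊓ MulAction.stabilizer G X : Subgroup G)).factorization p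
        = (Nat.card H).factorization p := by
      intro p hp
      by_cases hpH : p ∣ Nat.card H
      · obtain ⟨S, a, hSn, hSH, ha, hSc, hfac, hcop, hS⟩ := key0 p hp hpH
        have h1 := hS X hX hXX
        obtain ⟨r, hr, hr'⟩ := card_inf_mul S (H ⊓ MulAction.stabilizer G X)
        have h2 : (S ⊓ (H ⊓ MulAction.stabilizer G X) : Subgroup G)
            = S ⊓ MulAction.stabilizer G X := by
          rw [← inf_assoc, inf_eq_left.2 hSH]
        rw [h2, h1] at hr'
        have hrp : ¬ p ∣ r := by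
          intro hc
          exact (Nat.Prime.coprime_iff_not_dvd hp).1 hcop (hc.trans hr)
        have hr0 : r ≠ 0 := by
          rintro rfl
          exact hrp (dvd_zero p)
        rw [hr', hfac, Nat.factorization_mul hr0 (pow_pos hp.pos a).ne']
        simp only [Finsupp.coe_add, Pi.add_apply]
        rw [Nat.factorization_eq_zero_of_not_dvd hrp, zero_add, hp.factorization_pow,
          Finsupp.single_eq_same]
      · rw [Nat.factorization_eq_zero_of_not_dvd hpH, Nat.factorization_eq_zero_of_not_dvd]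
        intro hc
        exact hpH (hc.trans (Subgroup.card_dvd_of_le inf_le_left))
    have h1 : (Nat.card (H ⊓ MulAction.stabilizer G X : Subgroup G)) ^ 2 = Nat.card H := by
      apply Nat.eq_of_factorization_eq (pow_ne_zero 2 Nat.card_pos.ne') Nat.card_pos.ne'
      intro p
      by_cases hp : p.Prime
      · rw [Nat.factorization_pow, ← key p hp]
        simp
      · rw [Nat.factorization_eq_zero_of_not_prime _ hp,
          Nat.factorization_eq_zero_of_not_prime _ hp]
    have h2 : Nat.card (MulAction.orbit H X) * Nat.card (MulAction.stabilizer H X)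
        = Nat.card H := by
      letI : Fintype H := Fintype.ofFinite H
      letI : Fintype (MulAction.orbit H X) := Fintype.ofFinite _
      letI : Fintype (MulAction.stabilizer H X) := Fintype.ofFinite _
      have := MulAction.card_orbit_mul_card_stabilizer_eq_card_group H X
      rw [Nat.card_eq_fintype_card, Nat.card_eq_fintype_card, Nat.card_eq_fintype_card]
      exact this
    rw [card_stab_sub] at h2
    have h3 : 0 < Nat.card (H ⊓ MulAction.stabilizer G X : Subgroup G) := Nat.card_pos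
    have h4 : Nat.card (MulAction.orbit H X)
        = Nat.card (H ⊓ MulAction.stabilizer G X : Subgroup G) := by
      rw [← h1, pow_two] at h2
      exact Nat.eq_of_mul_eq_mul_right h3 h2
    rw [h4, h1]
  · intro l hl u hu hul
    have hlL : l ≠ L := fun hc => hl (hc ▸ hX0L)
    obtain ⟨X, hXl, hXL⟩ := exists_point (P := P) hlL
    have hXX : X ≠ X0 := fun hc => hl (hc ▸ hXl)
    by_contra hu1
    have h1 : (H ⊓ MulAction.stabilizer G l : Subgroup G) ≠ ⊥ := by
      intro hc
      apply hu1
      rw [← Subgroup.mem_bot, ← hc]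
      exact Subgroup.mem_inf.2 ⟨hu, MulAction.mem_stabilizer_iff.2 hul⟩
    rw [← Subgroup.one_lt_card_iff_ne_bot] at h1
    obtain ⟨p, hp, hpd⟩ := Nat.exists_prime_and_dvd h1.ne'
    have hpH : p ∣ Nat.card H := hpd.trans (Subgroup.card_dvd_of_le inf_le_left)
    obtain ⟨S, a, hSn, hSH, ha, hSc, hfac, hcop, hS⟩ := key0 p hp hpH
    have h2 := hS X hXL hXX
    -- the order is `p ^ a * m`
    have h3 : Nat.card (S ⊓ MulAction.stabilizer G l : Subgroup G) = 1 := by
      have hn0 : ProjectivePlane.order P Ln ≠ 0 :=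
        (lt_trans Nat.zero_lt_one (ProjectivePlane.one_lt_order P Ln)).ne'
      have h4 := Subgroup.card_mul_index S
      rw [hSc, Nat.card_eq_fintype_card, h.card_G] at h4
      have h5 : p ^ a ∣ ProjectivePlane.order P Ln := by
        have h6 : (p ^ a) ^ 2 ∣ ProjectivePlane.order P Ln ^ 2 :=
          ⟨S.index, by rw [← h4, ← pow_mul, mul_comm a 2]⟩
        exact (Nat.pow_dvd_pow_iff (by norm_num)).1 h6
      obtain ⟨m, hm⟩ := h5
      have hcm : Nat.Coprime p m := by
        have h7 : S.index = m ^ 2 := by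
          have h8 : (p ^ a * m) ^ 2 = p ^ (2 * a) * m ^ 2 := by
            rw [mul_pow, ← pow_mul, mul_comm a 2]
          rw [hm, h8] at h4
          exact Nat.eq_of_mul_eq_mul_left (pow_pos hp.pos _) h4
        rw [h7] at hcop
        exact (Nat.coprime_pow_right_iff (by norm_num) _ _).1 hcop
      have h9 := h.card_inf hp hcm hm S hSc hlL hXL hXl
      rw [h2] at h9
      exact (Nat.eq_of_mul_eq_mul_left (pow_pos hp.pos a) (by rw [mul_one]; exact h9)).symm
    obtain ⟨r, hr, hr'⟩ := card_inf_mul S (H ⊓ MulAction.stabilizer G l)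
    have h4 : (S ⊓ (H ⊓ MulAction.stabilizer G l) : Subgroup G)
        = S ⊓ MulAction.stabilizer G l := by
      rw [← inf_assoc, inf_eq_left.2 hSH]
    rw [h4, h3, mul_one] at hr'
    rw [hr'] at hpd
    exact (Nat.Prime.coprime_iff_not_dvd hp).1 hcop (hpd.trans hr)

end PPN
end
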