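import Pool.Agent.Lib.MP_308a3a_co.Conj

section

section

/-! # The two projections of the abelianization -/

set_option autoImplicit false

open Configuration Finset

namespace PPN

section Ab

variable (G : Type) [Group G] [Finite G] (q : ℕ)

/-- `q`-part of the order of the abelianization -/
noncomputable def vv : ℕ := ordProj[q] (Nat.card (Abelianization G))

/-- prime to `q` part of the order of the abelianization -/
noncomputable def ww : ℕ := ordCompl[q] (Nat.card (Abelianization G))

/-- the projection to the part of order prime to `q` -/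
noncomputable def pA : G →* (powMonoidHom (vv G q) : Abelianization G →* Abelianization G).range :=
  (powMonoidHom (vv G q)).rangeRestrict.comp Abelianization.of

/-- the projection to the `q`-part -/
noncomputable def pQ : G →* (powMonoidHom (ww G q) : Abelianization G →* Abelianization G).range :=
  (powMonoidHom (ww G q)).rangeRestrict.comp Abelianization.of

variable {G q}

omit [Finite G] in
theorem pA_eq_one {g : G} : pA G q g = 1 ↔ (Abelianization.of g) ^ (vv G q) = 1 := by
  rw [Subtype.ext_iff]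
  rfl

omit [Finite G] in
theorem pQ_eq_one {g : G} : pQ G q g = 1 ↔ (Abelianization.of g) ^ (ww G q) = 1 := by
  rw [Subtype.ext_iff]
  rfl

omit [Finite G] in
theorem vv_mul_ww : vv G q * ww G q = Nat.card (Abelianization G) :=
  Nat.ordProj_mul_ordCompl_eq_self _ _

theorem ww_pos : 0 < ww G q := Nat.ordCompl_pos q Nat.card_pos.ne'

omit [Finite G] in
theorem pow_all (x : Abelianization G) : x ^ (vv G q * ww G q) = 1 := by
  rw [vv_mul_ww]
  exact pow_card_eq_one'

theorem coprime_ww (hq : q.Prime) : Nat.Coprime q (ww G q) :=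
  Nat.coprime_ordCompl hq Nat.card_pos.ne'

theorem coprime_vw (hq : q.Prime) : Nat.Coprime (vv G q) (ww G q) :=
  Nat.Coprime.pow_left _ (coprime_ww hq)

theorem isPGroup_pQ : IsPGroup q (powMonoidHom (ww G q) : Abelianization G →* Abelianization G).range := by
  rintro ⟨y, hy⟩
  obtain ⟨x, rfl⟩ := hy
  refine ⟨(Nat.card (Abelianization G)).factorization q, ?_⟩
  apply Subtype.ext
  show (x ^ ww G q) ^ vv G q = 1
  rw [← pow_mul, mul_comm, pow_all]

omit [Finite G] in
theorem pow_pA (a : (powMonoidHom (vv G q) : Abelianization G →* Abelianization G).range) :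
    a ^ ww G q = 1 := by
  obtain ⟨y, hy⟩ := a
  obtain ⟨x, rfl⟩ := hy
  apply Subtype.ext
  show (x ^ vv G q) ^ ww G q = 1
  rw [← pow_mul, pow_all]

theorem pow_pA' (hq : q.Prime)
    (a : (powMonoidHom (vv G q) : Abelianization G →* Abelianization G).range) :
    a ^ (q ^ (ww G q).totient) = a := by
  have h1 := Nat.ModEq.pow_totient (coprime_ww (G := G) hq)
  have h2 : 1 ≤ q ^ (ww G q).totient := Nat.one_le_pow _ _ hq.pos
  have h3 : ww G q ∣ q ^ (ww G q).totient - 1 := (Nat.modEq_iff_dvd' h2).1 h1.symm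
  obtain ⟨j, hj⟩ := h3
  have h4 : q ^ (ww G q).totient = ww G q * j + 1 := by omega
  rw [h4, pow_succ, pow_mul, pow_pA, one_pow, one_mul]

theorem coprime_card_pA (hq : q.Prime) :
    Nat.Coprime q (Nat.card (powMonoidHom (vv G q) : Abelianization G →* Abelianization G).range) := by
  rw [Nat.Prime.coprime_iff_not_dvd hq]
  intro hdvd
  haveI : Fact q.Prime := ⟨hq⟩
  obtain ⟨a, ha⟩ := exists_prime_orderOf_dvd_card' q hdvd
  have h1 : orderOf a ∣ ww G q := orderOf_dvd_of_pow_eq_one (pow_pA a)
  rw [ha] at h1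
  exact (Nat.Prime.coprime_iff_not_dvd hq).1 (coprime_ww hq) h1

theorem card_ker_pow (hq : q.Prime) :
    Nat.card (powMonoidHom (vv G q) : Abelianization G →* Abelianization G).ker ≤ vv G q := by
  haveI : Fact q.Prime := ⟨hq⟩
  have h1 : IsPGroup q (powMonoidHom (vv G q) : Abelianization G →* Abelianization G).ker := by
    rintro ⟨x, hx⟩
    refine ⟨(Nat.card (Abelianization G)).factorization q, ?_⟩
    apply Subtype.ext
    exact hx
  obtain ⟨s, hs⟩ := IsPGroup.iff_card.1 h1
  have h2 : Nat.card (powMonoidHom (vv G q) : Abelianization G →* Abelianization G).ker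
      ∣ vv G q * ww G q := by
    rw [vv_mul_ww]
    exact Subgroup.card_subgroup_dvd_card _
  have h3 : Nat.Coprime (q ^ s) (ww G q) := Nat.Coprime.pow_left _ (coprime_ww hq)
  rw [hs] at h2 ⊢
  exact Nat.le_of_dvd (Nat.ordProj_pos _ _) (h3.dvd_of_dvd_mul_right h2)

open Classical in
theorem card_fibre_of [Fintype G] (x : Abelianization G) :
    (univ.filter (fun g : G => Abelianization.of g = x)).card ≤ Nat.card (commutator G) := by
  by_cases hne : (univ.filter (fun g : G => Abelianization.of g = x)).Nonempty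
  · obtain ⟨y, hy⟩ := hne
    have hy' := (mem_filter.1 hy).2
    have h1 : Nat.card (commutator G) = (univ.filter (fun g : G => g ∈ commutator G)).card := by
      rw [Nat.card_eq_fintype_card, Fintype.card_subtype]
    rw [h1]
    apply card_le_card_of_injOn (fun g => y⁻¹ * g)
    · intro g hg
      have hg' := (mem_filter.1 hg).2
      have : y⁻¹ * g ∈ commutator G := by
        rw [← Abelianization.ker_of, MonoidHom.mem_ker, map_mul, map_inv, hg', hy', inv_mul_cancel]
      exact mem_filter.2 ⟨mem_univ _, this⟩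
    · intro g _ g' _ hgg
      exact mul_left_cancel hgg
  · rw [not_nonempty_iff_eq_empty.1 hne, card_empty]
    exact Nat.zero_le _

theorem card_pA_one [Fintype G] (hq : q.Prime) :
    Nat.card (pA G q).ker ≤ Nat.card (commutator G) * vv G q := by
  classical
  letI : Fintype (Abelianization G) := Fintype.ofFinite _
  letI : Fintype (pA G q).ker := Fintype.ofFinite _
  have h0 : Nat.card (pA G q).ker = (univ.filter (fun g : G => g ∈ (pA G q).ker)).card := by
    rw [Nat.card_eq_fintype_card, ← Fintype.card_coe]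
    apply Fintype.card_congr
    exact Equiv.subtypeEquivRight (by intro g; simp)
  rw [h0]
  refine (card_le_mul_card_image (f := fun g : G => (Abelianization.of g : Abelianization G))
    (univ.filter (fun g : G => g ∈ (pA G q).ker)) (Nat.card (commutator G)) ?_).trans
    (Nat.mul_le_mul_left _ ?_)
  · intro x _
    refine le_trans (card_le_card ?_) (card_fibre_of x)
    intro g hg
    simp only [mem_filter, mem_univ, true_and] at hg ⊢
    exact hg.2
  · refine le_trans ?_ (card_ker_pow (G := G) hq)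
    rw [Nat.card_eq_fintype_card, ← Fintype.card_coe]
    apply Fintype.card_le_of_injective
      (fun x => (⟨x.1, by
        obtain ⟨g, hg, hgx⟩ := mem_image.1 x.2
        have hg1 := (mem_filter.1 hg).2
        rw [MonoidHom.mem_ker] at hg1
        rw [MonoidHom.mem_ker, ← hgx]
        exact pA_eq_one.1 hg1⟩ :
          (powMonoidHom (vv G q) : Abelianization G →* Abelianization G).ker))
    intro x y hxy
    simp only [Subtype.mk.injEq] at hxy
    exact Subtype.ext hxy

open Classical in
theorem kk_le [Fintype G] (hq : q.Prime) : kk (pQ G q) (pA G q) ≤ Nat.card (commutator G) := by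
  unfold kk
  refine le_trans (card_le_card ?_) (card_fibre_of (1 : Abelianization G))
  intro g hg
  simp only [mem_filter, mem_univ, true_and] at hg
  obtain ⟨h1, h2⟩ := hg
  rw [pQ_eq_one] at h1
  rw [pA_eq_one] at h2
  refine mem_filter.2 ⟨mem_univ _, ?_⟩
  rw [← orderOf_eq_one_iff]
  exact Nat.eq_one_of_dvd_coprimes (coprime_vw (G := G) hq) (orderOf_dvd_of_pow_eq_one h2)
    (orderOf_dvd_of_pow_eq_one h1)

end Ab

variable {P Ln G : Type} [Membership P Ln] [Fintype P] [Fintype Ln] [ProjectivePlane P Ln]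
  [Group G] [Fintype G] [MulAction G P] [MulAction G Ln] {L : Ln}

/-- the general inequality -/
theorem Reg.general (h : Reg P G L) {q : ℕ} (hqp : q.Prime)
    (hq : q ∣ ProjectivePlane.order P Ln) :
    q * (ProjectivePlane.order P Ln + 1) < Nat.card (commutator G)
      * (ProjectivePlane.order P Ln + 1 + vv G q) := by
  classical
  haveI : Fact q.Prime := ⟨hqp⟩
  have h1 := h.ineq hq (isPGroup_pQ (G := G) (q := q)) (ww G q).totient
    (Nat.totient_pos.2 ww_pos) (pow_pA' hqp) (pQ G q) (pA G q)
  have h2 := card_pA_one (G := G) hqp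
  have h3 := kk_le (G := G) hqp
  set n := ProjectivePlane.order P Ln with hn
  have h4 := Nat.mul_le_mul_right (n + 1) h3
  rw [mul_add]
  nlinarith

end PPN
end

section

/-! # Groups whose commutator subgroup has at most two elements -/

set_option autoImplicit false

open Configuration Finset

namespace PPN

section Grp

variable {G : Type} [Group G] [Finite G]

theorem two_sq (hG : Nat.card (commutator G) ≤ 2) {c : G} (hc : c ∈ commutator G) : c ^ 2 = 1 := by
  have h1 : (⟨c, hc⟩ : commutator G) ^ Nat.card (commutator G) = 1 := pow_card_eq_one'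
  have h2 : c ^ Nat.card (commutator G) = 1 := Subtype.ext_iff.1 h1
  have h3 : 0 < Nat.card (commutator G) := Nat.card_pos
  interval_cases h : Nat.card (commutator G)
  · rw [pow_one] at h2
    rw [h2, one_pow]
  · exact h2

theorem two_eq (hG : Nat.card (commutator G) ≤ 2) {c d : G} (hc : c ∈ commutator G)
    (hd : d ∈ commutator G) (hc1 : c ≠ 1) (hd1 : d ≠ 1) : c = d := by
  classical
  by_contra hcd
  letI : Fintype (commutator G) := Fintype.ofFinite _
  have h1 : ({1, ⟨c, hc⟩, ⟨d, hd⟩} : Finset (commutator G)).card = 3 := by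
    rw [card_insert_of_notMem, card_insert_of_notMem, card_singleton]
    · simp only [mem_singleton, Subtype.mk.injEq]
      exact hcd
    · simp only [mem_insert, mem_singleton, not_or]
      exact ⟨fun h => hc1 (Subtype.ext_iff.1 h).symm, fun h => hd1 (Subtype.ext_iff.1 h).symm⟩
  have h2 := card_le_univ ({1, ⟨c, hc⟩, ⟨d, hd⟩} : Finset (commutator G))
  rw [h1, ← Nat.card_eq_fintype_card] at h2
  omega

theorem two_central (hG : Nat.card (commutator G) ≤ 2) {c : G} (hc : c ∈ commutator G) (g : G) :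
    Commute c g := by
  by_cases hc1 : c = 1
  · rw [hc1]
    exact Commute.one_left g
  · have h1 : g * c * g⁻¹ ∈ commutator G := (inferInstance : (commutator G).Normal).conj_mem c hc g
    have h2 : g * c * g⁻¹ ≠ 1 := by
      intro h
      apply hc1
      rw [mul_inv_eq_one] at h
      exact mul_eq_left.1 h
    have h3 := two_eq hG h1 hc h2 hc1
    rw [mul_inv_eq_iff_eq_mul] at h3
    exact h3.symm

omit [Finite G] in
theorem two_swap (x y : G) : ∃ c ∈ commutator G, x * y = c * (y * x) := by
  refine ⟨x * y * x⁻¹ * y⁻¹, ?_, ?_⟩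
  · rw [commutator_def, ← commutatorElement_def]
    exact Subgroup.commutator_mem_commutator (Subgroup.mem_top _) (Subgroup.mem_top _)
  · group

theorem two_comm_sq (hG : Nat.card (commutator G) ≤ 2) (x y : G) : Commute (x ^ 2) y := by
  obtain ⟨c, hc, hxy⟩ := two_swap x y
  have hcx := two_central hG hc x
  have h2 := two_sq hG hc
  have h1 : x ^ 2 * y = y * x ^ 2 := by
    calc x ^ 2 * y = x * (x * y) := by rw [pow_two, mul_assoc]
      _ = x * (c * (y * x)) := by rw [hxy]
      _ = c * ((x * y) * x) := by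
          rw [← mul_assoc, ← hcx.eq]
          simp only [mul_assoc]
      _ = c * ((c * (y * x)) * x) := by rw [hxy]
      _ = c ^ 2 * (y * x ^ 2) := by
          rw [pow_two, pow_two]
          simp only [mul_assoc]
      _ = y * x ^ 2 := by rw [h2, one_mul]
  exact h1

theorem two_pow4 (hG : Nat.card (commutator G) ≤ 2) (x y : G) :
    (x * y) ^ 4 = x ^ 4 * y ^ 4 := by
  obtain ⟨c, hc, hyx⟩ := two_swap y x
  have hcx := two_central hG hc x
  have h2 := two_sq hG hc
  have h1 : (x * y) ^ 2 = c * (x ^ 2 * y ^ 2) := by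
    calc (x * y) ^ 2 = x * (y * x) * y := by rw [pow_two]; simp only [mul_assoc]
      _ = x * (c * (x * y)) * y := by rw [hyx]
      _ = c * (x ^ 2 * y ^ 2) := by
          rw [← mul_assoc x c, ← hcx.eq, pow_two, pow_two]
          simp only [mul_assoc]
  have hc2 : Commute c (x ^ 2 * y ^ 2) := two_central hG hc _
  have h3 : Commute (x ^ 2) (y ^ 2) := two_comm_sq hG x _
  calc (x * y) ^ 4 = ((x * y) ^ 2) ^ 2 := by rw [← pow_mul]
    _ = (c * (x ^ 2 * y ^ 2)) ^ 2 := by rw [h1]
    _ = x ^ 4 * y ^ 4 := by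
        rw [hc2.mul_pow, h2, one_mul, h3.mul_pow, ← pow_mul, ← pow_mul]

theorem two_pow (hG : Nat.card (commutator G) ≤ 2) (j : ℕ) (x y : G) :
    (x * y) ^ (4 * j + 1) = x ^ (4 * j + 1) * y ^ (4 * j + 1) := by
  have h1 : Commute (x ^ 4) (y ^ 4) := by
    have := two_comm_sq hG (x ^ 2) (y ^ 4)
    rwa [← pow_mul] at this
  have h2 : Commute (y ^ 4) x := by
    have := two_comm_sq hG (y ^ 2) x
    rwa [← pow_mul] at this
  have h3 : Commute ((y ^ 4) ^ j) x := h2.pow_left j
  calc (x * y) ^ (4 * j + 1) = ((x * y) ^ 4) ^ j * (x * y) := by rw [pow_succ, pow_mul]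
    _ = (x ^ 4) ^ j * (y ^ 4) ^ j * (x * y) := by rw [two_pow4 hG, h1.mul_pow]
    _ = (x ^ 4) ^ j * ((y ^ 4) ^ j * x) * y := by simp only [mul_assoc]
    _ = (x ^ 4) ^ j * (x * (y ^ 4) ^ j) * y := by rw [h3.eq]
    _ = x ^ (4 * j + 1) * y ^ (4 * j + 1) := by
        rw [pow_succ x (4 * j), pow_succ y (4 * j), pow_mul x, pow_mul y]
        simp only [mul_assoc]

/-- the power map to the `2`-part -/
noncomputable def powHom (hG : Nat.card (commutator G) ≤ 2) (j : ℕ) : G →* G :=
  MonoidHom.mk' (fun x => x ^ (4 * j + 1)) (two_pow hG j)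

/-- the odd part of the order, squared, is `1` mod `4` -/
theorem exists_j : ∃ j : ℕ, (ordCompl[2] (Nat.card G)) ^ 2 = 4 * j + 1 := by
  have h1 : Nat.Coprime 2 (ordCompl[2] (Nat.card G)) :=
    Nat.coprime_ordCompl Nat.prime_two Nat.card_pos.ne'
  have h2 : ordCompl[2] (Nat.card G) % 2 = 1 := by
    rw [← Nat.odd_iff]
    exact (Nat.coprime_two_left).1 h1
  obtain ⟨m, hm⟩ : ∃ m, ordCompl[2] (Nat.card G) = 2 * m + 1 :=
    ⟨ordCompl[2] (Nat.card G) / 2, by omega⟩
  exact ⟨m * (m + 1), by rw [hm]; ring⟩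

theorem two_pgroup (hG : Nat.card (commutator G) ≤ 2) {j : ℕ}
    (hj : (ordCompl[2] (Nat.card G)) ^ 2 = 4 * j + 1) : IsPGroup 2 (powHom hG j).range := by
  rintro ⟨y, x, rfl⟩
  refine ⟨(Nat.card G).factorization 2, ?_⟩
  apply Subtype.ext
  show (x ^ (4 * j + 1)) ^ (2 ^ (Nat.card G).factorization 2) = 1
  rw [← hj, ← pow_mul]
  have h1 : ordCompl[2] (Nat.card G) ^ 2 * 2 ^ (Nat.card G).factorization 2
      = Nat.card G * ordCompl[2] (Nat.card G) := by
    have h := Nat.ordProj_mul_ordCompl_eq_self (Nat.card G) 2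
    calc ordCompl[2] (Nat.card G) ^ 2 * 2 ^ (Nat.card G).factorization 2
        = (2 ^ (Nat.card G).factorization 2 * ordCompl[2] (Nat.card G))
            * ordCompl[2] (Nat.card G) := by ring
      _ = Nat.card G * ordCompl[2] (Nat.card G) := by rw [h]
  rw [h1, pow_mul, pow_card_eq_one', one_pow]

/-- the projection to the `2`-part -/
noncomputable def pQ2 (hG : Nat.card (commutator G) ≤ 2) (j : ℕ) : G →* (powHom hG j).range :=
  (powHom hG j).rangeRestrict

open Classical in
theorem kk_two [Fintype G] (hG : Nat.card (commutator G) ≤ 2) {j : ℕ}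
    (hj : (ordCompl[2] (Nat.card G)) ^ 2 = 4 * j + 1) : kk (pQ2 hG j) (pA G 2) ≤ 1 := by
  unfold kk
  rw [card_le_one_iff_subset_singleton]
  refine ⟨1, ?_⟩
  intro g hg
  simp only [mem_filter, mem_univ, true_and] at hg
  obtain ⟨h1, h2⟩ := hg
  rw [pA_eq_one] at h2
  have h3 : g ^ (4 * j + 1) = 1 := Subtype.ext_iff.1 h1
  have h4 : (Abelianization.of g) ^ (4 * j + 1) = 1 := by rw [← map_pow, h3, map_one]
  have h5 : Nat.Coprime (vv G 2) (4 * j + 1) := by
    unfold vv
    apply Nat.Coprime.pow_left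
    rw [Nat.coprime_two_left, Nat.odd_iff]
    omega
  have h6 : (Abelianization.of g : Abelianization G) = 1 := by
    rw [← orderOf_eq_one_iff]
    exact Nat.eq_one_of_dvd_coprimes h5 (orderOf_dvd_of_pow_eq_one h2)
      (orderOf_dvd_of_pow_eq_one h4)
  have h7 : g ∈ commutator G := by
    rw [← Abelianization.ker_of, MonoidHom.mem_ker, h6]
  have h8 : g ^ 2 = 1 := two_sq hG h7
  have h9 : Nat.Coprime 2 (4 * j + 1) := by
    rw [Nat.coprime_two_left, Nat.odd_iff]
    omega
  rw [mem_singleton, ← orderOf_eq_one_iff]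
  exact Nat.eq_one_of_dvd_coprimes h9 (orderOf_dvd_of_pow_eq_one h8)
    (orderOf_dvd_of_pow_eq_one h3)

theorem card_G_eq : Nat.card G = Nat.card (Abelianization G) * Nat.card (commutator G) :=
  Subgroup.card_eq_card_quotient_mul_card_subgroup (commutator G)

theorem vv_two (hG : Nat.card (commutator G) ≤ 2) :
    Nat.card (commutator G) * vv G 2 = ordProj[2] (Nat.card G) := by
  have h1 : 0 < Nat.card (commutator G) := Nat.card_pos
  have h2 : Nat.card (Abelianization G) ≠ 0 := Nat.card_pos.ne'
  have h3 := card_G_eq (G := G)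
  have h4 : ordProj[2] (Nat.card (commutator G)) = Nat.card (commutator G) := by
    interval_cases h : Nat.card (commutator G)
    · simp
    · rw [Nat.Prime.factorization_self Nat.prime_two, pow_one]
  rw [h3, Nat.ordProj_mul 2 h2 h1.ne', h4, mul_comm]
  rfl

theorem vv_odd (hG : Nat.card (commutator G) ≤ 2) {q : ℕ} (hq : q.Prime) (hq2 : q ≠ 2) :
    vv G q = ordProj[q] (Nat.card G) := by
  have h1 : 0 < Nat.card (commutator G) := Nat.card_pos
  have h2 : Nat.card (Abelianization G) ≠ 0 := Nat.card_pos.ne'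
  have h3 := card_G_eq (G := G)
  have h4 : ordProj[q] (Nat.card (commutator G)) = 1 := by
    interval_cases h : Nat.card (commutator G)
    · simp
    · rw [Nat.factorization_eq_zero_of_not_dvd, pow_zero]
      intro hdvd
      exact hq2 ((Nat.prime_dvd_prime_iff_eq hq Nat.prime_two).1 hdvd)
  rw [h3, Nat.ordProj_mul q h2 h1.ne', h4, mul_one]
  rfl

theorem vv_one (hG : Nat.card (commutator G) = 1) (q : ℕ) : vv G q = ordProj[q] (Nat.card G) := by
  have h3 := card_G_eq (G := G)
  rw [hG, mul_one] at h3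
  rw [h3]
  rfl

end Grp

variable {P Ln G : Type} [Membership P Ln] [Fintype P] [Fintype Ln] [ProjectivePlane P Ln]
  [Group G] [Fintype G] [MulAction G P] [MulAction G Ln] {L : Ln}

/-- the inequality for the prime `2` -/
theorem Reg.two_ineq (h : Reg P G L) (hG : Nat.card (commutator G) ≤ 2)
    (h2 : 2 ∣ ProjectivePlane.order P Ln) :
    ProjectivePlane.order P Ln + 2 ≤ ordProj[2] (Nat.card G) := by
  have : Fact (Nat.Prime 2) := ⟨Nat.prime_two⟩
  obtain ⟨j, hj⟩ := exists_j (G := G)
  have h1 := h.ineq h2 (two_pgroup hG hj) (ww G 2).totient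
    (Nat.totient_pos.2 ww_pos) (pow_pA' Nat.prime_two) (pQ2 hG j) (pA G 2)
  have h3 := card_pA_one (G := G) Nat.prime_two
  have h4 := kk_two hG hj
  have h5 := vv_two hG
  have h6 := Nat.mul_le_mul_right (ProjectivePlane.order P Ln + 1) h4
  rw [← h5]
  omega

end PPN
end

section

/-! # The numerical part for groups with `|G'| ≤ 2` -/

set_option autoImplicit false

open Configuration Finset

namespace PPN

theorem ordProj_mul_dvd {n p q : ℕ} (hp : p.Prime) (hq : q.Prime) (hpq : p ≠ q) :
    ordProj[p] n * ordProj[q] n ∣ n := by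
  apply Nat.Coprime.mul_dvd_of_dvd_of_dvd
  · exact Nat.Coprime.pow _ _ ((Nat.coprime_primes hp hq).2 hpq)
  · exact Nat.ordProj_dvd _ _
  · exact Nat.ordProj_dvd _ _

theorem isPrimePow_of_unique {n p : ℕ} (hp : p.Prime) (hpn : p ∣ n)
    (h : ∀ q, q.Prime → q ∣ n → q = p) : IsPrimePow n := by
  rw [isPrimePow_iff_unique_prime_dvd]
  exact ⟨p, ⟨hp, hpn⟩, fun q hq => h q hq.1 hq.2⟩

theorem num_aux {A B : ℕ} (hA : ∃ a, A = 2 ^ a) (hB : ∃ b, B = 3 ^ (b + 1))
    (h1 : A * B + 2 ≤ A ^ 2) (h2 : A * B + 1 < 2 * B ^ 2)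
    (h3 : 8 ∣ A → 4 * (A * B + 1) ≤ A * B + A ^ 2) : A = 4 ∧ B = 3 := by
  obtain ⟨a, rfl⟩ := hA
  obtain ⟨b, rfl⟩ := hB
  have h4 : (3 : ℕ) ^ (b + 1) < 2 ^ a := by
    by_contra hcon
    push Not at hcon
    have h40 := Nat.mul_le_mul_left (2 ^ a) hcon
    rw [← pow_two] at h40
    omega
  have h5 : (2 : ℕ) ^ a < 2 * 3 ^ (b + 1) := by
    by_contra hcon
    push Not at hcon
    nlinarith [Nat.pos_of_ne_zero (pow_ne_zero (b + 1) (by norm_num : (3 : ℕ) ≠ 0))]
  have h6 : a < 3 := by
    by_contra hcon
    push Not at hcon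
    have h7 : 8 ∣ 2 ^ a := by
      have := pow_dvd_pow 2 hcon
      norm_num at this
      exact this
    have h8 := h3 h7
    nlinarith
  have h9 : 3 ≤ (3 : ℕ) ^ (b + 1) := by
    rw [pow_succ]
    have := Nat.one_le_pow b 3 (by norm_num)
    omega
  interval_cases a
  · omega
  · omega
  · have : b = 0 := by
      by_contra hb
      have h10 : (3 : ℕ) ^ 2 ≤ 3 ^ (b + 1) := Nat.pow_le_pow_right (by norm_num) (by omega)
      omega
    subst this
    norm_num

/-- the numerical conclusion -/
theorem num {n k : ℕ} (hn : 1 < n) (hk : k = 1 ∨ k = 2)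
    (h1 : ∀ q : ℕ, q.Prime → q ∣ n → (k = 1 ∨ q ≠ 2) →
      q * (n + 1) < k * (n + 1 + (ordProj[q] n) ^ 2))
    (h2 : k = 2 → 2 ∣ n ∧ n + 2 ≤ (ordProj[2] n) ^ 2)
    (h3 : k = 2 → (∀ q : ℕ, q.Prime → q ∣ n → q = 2 ∨ q = 3) → 8 ∣ n →
      4 * (n + 1) ≤ n + (ordProj[2] n) ^ 2) :
    IsPrimePow n ∨ (n = 12 ∧ k = 2) := by
  have key : ∀ p q : ℕ, p.Prime → q.Prime → p ≠ q →
      (ordProj[p] n) ^ 2 * (ordProj[q] n) ^ 2 ≤ n ^ 2 := by
    intro p q hp hq hpq
    rw [← mul_pow]
    exact Nat.pow_le_pow_left (Nat.le_of_dvd (by omega) (ordProj_mul_dvd hp hq hpq)) 2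
  rcases hk with rfl | rfl
  · left
    obtain ⟨p, hp, hpn⟩ := Nat.exists_prime_and_dvd (show n ≠ 1 by omega)
    apply isPrimePow_of_unique hp hpn
    intro q hq hqn
    by_contra hne
    have h4 := h1 p hp hpn (Or.inl rfl)
    have h5 := h1 q hq hqn (Or.inl rfl)
    have h6 := key p q hp hq (Ne.symm hne)
    have h7 := hp.two_le
    have h8 := hq.two_le
    have h9 : n + 1 < (ordProj[p] n) ^ 2 := by nlinarith
    have h10 : n + 1 < (ordProj[q] n) ^ 2 := by nlinarith
    have h11 : (n + 1) * (n + 1) < (ordProj[p] n) ^ 2 * (ordProj[q] n) ^ 2 :=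
      Nat.mul_lt_mul'' h9 h10
    nlinarith
  · obtain ⟨h4, h5⟩ := h2 rfl
    by_cases hodd : ∀ q : ℕ, q.Prime → q ∣ n → q = 2
    · left
      exact isPrimePow_of_unique Nat.prime_two h4 hodd
    · right
      push Not at hodd
      obtain ⟨q, hq, hqn, hq2⟩ := hodd
      have h6 : ∀ q : ℕ, q.Prime → q ∣ n → q = 2 ∨ q = 3 := by
        intro r hr hrn
        by_contra hcon
        push Not at hcon
        obtain ⟨hr2, hr3⟩ := hcon
        have h7 := h1 r hr hrn (Or.inr hr2)
        have h8 := hr.two_le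
        have h9 : 4 ≤ r := by omega
        have h10 := key 2 r Nat.prime_two hr (Ne.symm hr2)
        have h11 : n + 1 < (ordProj[r] n) ^ 2 := by nlinarith
        have h12 : (n + 1) * (n + 1) < (ordProj[2] n) ^ 2 * (ordProj[r] n) ^ 2 :=
          Nat.mul_lt_mul'' (by omega) h11
        nlinarith
      have hq3 : q = 3 := (h6 q hq hqn).resolve_left hq2
      subst hq3
      have h7 := h1 3 Nat.prime_three hqn (Or.inr (by norm_num))
      have h8 : n = ordProj[2] n * ordProj[3] n := by
        have h9 := Nat.ordProj_mul_ordCompl_eq_self n 2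
        have h10 : ordCompl[2] n = 3 ^ (ordCompl[2] n).primeFactorsList.length := by
          apply Nat.eq_prime_pow_of_unique_prime_dvd
          · exact (Nat.ordCompl_pos 2 (by omega)).ne'
          · intro d hd hdn
            rcases h6 d hd (hdn.trans (Nat.ordCompl_dvd n 2)) with rfl | rfl
            · exact absurd hdn (Nat.not_dvd_ordCompl Nat.prime_two (by omega))
            · rfl
        have h11 : ordCompl[2] n = ordProj[3] n := by
          have h12 : ordProj[3] (ordCompl[2] n) = ordCompl[2] n := by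
            rw [h10, Nat.Prime.factorization_pow Nat.prime_three]
            simp
          have h13 : (ordCompl[2] n).factorization 3 = n.factorization 3 := by
            rw [Nat.factorization_ordCompl]
            simp
          rw [← h12, h13]
        rw [← h11]
        exact h9.symm
      have h9 := num_aux (A := ordProj[2] n) (B := ordProj[3] n) ⟨_, rfl⟩
        (by
          have : n.factorization 3 ≠ 0 :=
            (Nat.Prime.factorization_pos_of_dvd Nat.prime_three (by omega) hqn).ne'
          exact ⟨n.factorization 3 - 1, by rw [Nat.sub_add_cancel (by omega)]⟩)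
        (by rw [← h8]; exact h5) (by rw [← h8]; omega)
        (by
          intro h8n
          rw [← h8]
          exact h3 rfl h6 (h8n.trans (Nat.ordProj_dvd n 2)))
      refine ⟨?_, rfl⟩
      rw [h8, h9.1, h9.2]

theorem ordProj_sq {n q : ℕ} : ordProj[q] (n ^ 2) = (ordProj[q] n) ^ 2 := by
  rw [Nat.factorization_pow, ← pow_mul]
  simp [mul_comm]

theorem three_pow_dvd (s : ℕ) : 3 ^ (s + 1) ∣ 2 ^ (3 ^ s) + 1 := by
  induction s with
  | zero => norm_num
  | succ s ih =>
    have h1 : (2 : ℤ) ^ (3 ^ (s + 1)) + 1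
        = (2 ^ (3 ^ s) + 1) * ((2 ^ (3 ^ s) + 1) ^ 2 - 3 * 2 ^ (3 ^ s)) := by
      rw [pow_succ 3 s, pow_mul]
      ring
    have h2 : (3 : ℤ) ^ (s + 1) ∣ 2 ^ (3 ^ s) + 1 := by exact_mod_cast ih
    have h3 : (3 : ℤ) ∣ 2 ^ (3 ^ s) + 1 := (dvd_pow_self 3 (Nat.succ_ne_zero s)).trans h2
    have h4 : (3 : ℤ) ∣ (2 ^ (3 ^ s) + 1) ^ 2 - 3 * 2 ^ (3 ^ s) :=
      dvd_sub (Dvd.dvd.pow h3 (by norm_num)) (dvd_mul_right _ _)
    have h5 : (3 : ℤ) ^ (s + 1 + 1) ∣ 2 ^ (3 ^ (s + 1)) + 1 := by
      rw [h1, pow_succ]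
      exact mul_dvd_mul h2 h4
    exact_mod_cast h5

variable {P Ln G : Type} [Membership P Ln] [Fintype P] [Fintype Ln] [ProjectivePlane P Ln]
  [Group G] [Fintype G] [MulAction G P] [MulAction G Ln] {L : Ln}

/-- the self-conjugate case for `n = 2^a 3^b` -/
theorem Reg.eight (h : Reg P G L) (hG : Nat.card (commutator G) ≤ 2)
    (h23 : ∀ q : ℕ, q.Prime → q ∣ ProjectivePlane.order P Ln → q = 2 ∨ q = 3)
    (h8 : 8 ∣ ProjectivePlane.order P Ln) :
    4 * (ProjectivePlane.order P Ln + 1)
      ≤ ProjectivePlane.order P Ln + (ordProj[2] (ProjectivePlane.order P Ln)) ^ 2 := by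
  classical
  have : Fact (Nat.Prime 2) := ⟨Nat.prime_two⟩
  have hn : ProjectivePlane.order P Ln ≠ 0 :=
    (lt_trans Nat.zero_lt_one (ProjectivePlane.one_lt_order P Ln)).ne'
  have hcard : Nat.card G = ProjectivePlane.order P Ln ^ 2 := by
    rw [Nat.card_eq_fintype_card, h.card_G]
  letI : Fintype (powMonoidHom (vv G 2) : Abelianization G →* Abelianization G).range :=
    Fintype.ofFinite _
  obtain ⟨s, hs⟩ : ∃ s, ww G 2 = 3 ^ s := by
    refine ⟨_, Nat.eq_prime_pow_of_unique_prime_dvd (p := 3) ww_pos.ne' ?_⟩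
    intro d hd hdn
    have h1 : d ∣ Nat.card (Abelianization G) := hdn.trans (Nat.ordCompl_dvd _ 2)
    have h2 : Nat.card (Abelianization G) ∣ Nat.card G := ⟨_, card_G_eq⟩
    have h3 : d ∣ ProjectivePlane.order P Ln := by
      apply hd.dvd_of_dvd_pow (n := 2)
      rw [← hcard]
      exact h1.trans h2
    rcases h23 d hd h3 with rfl | rfl
    · exact absurd hdn (Nat.not_dvd_ordCompl Nat.prime_two Nat.card_pos.ne')
    · rfl
  have h1 := h.ineq_conj (p := 2) (pA G 2) 3 2 (3 ^ s) (Nat.one_le_pow _ _ (by norm_num))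
    (by
      intro a
      rw [eq_inv_iff_mul_eq_one, ← pow_succ]
      obtain ⟨r, hr⟩ := (pow_dvd_pow 3 (Nat.le_succ s)).trans (three_pow_dvd s)
      rw [hr, pow_mul, ← hs, pow_pA, one_pow])
    (by norm_num; exact h8)
    (by
      rw [← Nat.card_eq_fintype_card]
      exact coprime_card_pA Nat.prime_two)
    (by norm_num)
  have h2 := card_pA_one (G := G) Nat.prime_two
  rw [vv_two hG, hcard, ordProj_sq] at h2
  have h3 : (2 : ℕ) ^ 2 = 4 := by norm_num
  rw [h3] at h1
  exact h1.trans (Nat.add_le_add_left h2 _)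

end PPN
end

section

/-! # The order 12 is impossible when `|G'| = 2` -/

set_option autoImplicit false

open Configuration Finset

namespace PPN

section GroupPart

variable {G : Type} [Group G] [Finite G] {q : ℕ}

theorem card_ker_pow' (hq : q.Prime) :
    Nat.card (powMonoidHom (ww G q) : Abelianization G →* Abelianization G).ker ≤ ww G q := by
  have h1 : Nat.Coprime q
      (Nat.card (powMonoidHom (ww G q) : Abelianization G →* Abelianization G).ker) := by
    rw [Nat.Prime.coprime_iff_not_dvd hq]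
    intro hdvd
    have : Fact q.Prime := ⟨hq⟩
    obtain ⟨⟨a, ha'⟩, ha⟩ := exists_prime_orderOf_dvd_card' q hdvd
    have h2 : a ^ ww G q = 1 := ha'
    have h3 : orderOf a ∣ ww G q := orderOf_dvd_of_pow_eq_one h2
    rw [Subgroup.orderOf_mk] at ha
    rw [ha] at h3
    exact (Nat.Prime.coprime_iff_not_dvd hq).1 (coprime_ww hq) h3
  have h2 : Nat.card (powMonoidHom (ww G q) : Abelianization G →* Abelianization G).ker
      ∣ vv G q * ww G q := by
    rw [vv_mul_ww]
    exact Subgroup.card_subgroup_dvd_card _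
  exact Nat.le_of_dvd ww_pos ((Nat.Coprime.pow_left _ h1).symm.dvd_of_dvd_mul_left h2)

theorem card_ker_mul_range (m : ℕ) :
    Nat.card (powMonoidHom m : Abelianization G →* Abelianization G).range
      * Nat.card (powMonoidHom m : Abelianization G →* Abelianization G).ker
      = Nat.card (Abelianization G) := by
  rw [Subgroup.card_eq_card_quotient_mul_card_subgroup
    (powMonoidHom m : Abelianization G →* Abelianization G).ker,
    Nat.card_congr (QuotientGroup.quotientKerEquivRange
      (powMonoidHom m : Abelianization G →* Abelianization G)).toEquiv]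

theorem card_range_Q (hq : q.Prime) :
    Nat.card (powMonoidHom (ww G q) : Abelianization G →* Abelianization G).range = vv G q := by
  have h1 : Nat.card (powMonoidHom (ww G q) : Abelianization G →* Abelianization G).range
      ≤ vv G q := by
    refine le_trans ?_ (card_ker_pow hq)
    apply Nat.card_le_card_of_injective (Subgroup.inclusion (H := _) (K := _) ?_)
      (Subgroup.inclusion_injective _)
    rintro _ ⟨x, rfl⟩
    rw [MonoidHom.mem_ker]
    show (x ^ ww G q) ^ vv G q = 1
    rw [← pow_mul, mul_comm, pow_all]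
  have h2 := card_ker_mul_range (G := G) (ww G q)
  have h3 := card_ker_pow' (G := G) hq
  rw [← vv_mul_ww (G := G) (q := q)] at h2
  apply le_antisymm h1
  have h4 : 0 < ww G q := ww_pos
  by_contra hcon
  push Not at hcon
  have h5 := Nat.mul_lt_mul_of_lt_of_le hcon h3 h4
  omega

theorem card_range_A (hq : q.Prime) :
    Nat.card (powMonoidHom (vv G q) : Abelianization G →* Abelianization G).range = ww G q := by
  have h1 : Nat.card (powMonoidHom (vv G q) : Abelianization G →* Abelianization G).range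
      ≤ ww G q := by
    refine le_trans ?_ (card_ker_pow' hq)
    apply Nat.card_le_card_of_injective (Subgroup.inclusion (H := _) (K := _) ?_)
      (Subgroup.inclusion_injective _)
    rintro _ ⟨x, rfl⟩
    rw [MonoidHom.mem_ker]
    show (x ^ vv G q) ^ ww G q = 1
    rw [← pow_mul, pow_all]
  have h2 := card_ker_mul_range (G := G) (vv G q)
  have h3 := card_ker_pow (G := G) hq
  rw [← vv_mul_ww (G := G) (q := q)] at h2
  apply le_antisymm h1
  have h4 : 0 < vv G q := Nat.ordProj_pos _ _
  by_contra hcon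
  push Not at hcon
  have h5 := Nat.mul_lt_mul_of_lt_of_le hcon h3 h4
  rw [mul_comm (ww G q)] at h5
  omega

theorem surj_pA : Function.Surjective (pA G q) := by
  unfold pA
  rw [MonoidHom.coe_comp]
  exact (MonoidHom.rangeRestrict_surjective _).comp QuotientGroup.mk_surjective

theorem surj_pQ : Function.Surjective (pQ G q) := by
  unfold pQ
  rw [MonoidHom.coe_comp]
  exact (MonoidHom.rangeRestrict_surjective _).comp QuotientGroup.mk_surjective

theorem card_ker_of_surj {A : Type} [Group A] (f : G →* A) (hf : Function.Surjective f) :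
    Nat.card A * Nat.card f.ker = Nat.card G := by
  rw [Subgroup.card_eq_card_quotient_mul_card_subgroup f.ker,
    Nat.card_congr (QuotientGroup.quotientKerEquivOfSurjective f hf).toEquiv]

open Classical in
theorem card_fibre_eq [Fintype G] {A : Type} [Group A] (f : G →* A) (U : Subgroup G) (a : A)
    (hne : (univ.filter (fun u : G => f u = a ∧ u ∈ U)).Nonempty) :
    (univ.filter (fun u : G => f u = a ∧ u ∈ U)).card
      = (univ.filter (fun u : G => f u = 1 ∧ u ∈ U)).card := by
  obtain ⟨x, hx⟩ := hne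
  simp only [mem_filter, mem_univ, true_and] at hx
  apply card_bij (fun u _ => x⁻¹ * u)
  · intro u hu
    simp only [mem_filter, mem_univ, true_and] at hu ⊢
    refine ⟨?_, U.mul_mem (U.inv_mem hx.2) hu.2⟩
    rw [map_mul, map_inv, hx.1, hu.1, inv_mul_cancel]
  · intro u _ u' _ huu
    exact mul_left_cancel huu
  · intro u hu
    simp only [mem_filter, mem_univ, true_and] at hu
    refine ⟨x * u, ?_, inv_mul_cancel_left x u⟩
    simp only [mem_filter, mem_univ, true_and]
    refine ⟨?_, U.mul_mem hx.2 hu.2⟩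
    rw [map_mul, hx.1, hu.1, mul_one]

end GroupPart

section Arith

theorem arith_aux {A : Type} [Fintype A] (f : A → ℕ) (h1 : ∑ b, f b = 12)
    (h2 : ∀ b, f b ≠ 0 → 2 ≤ f b) (h3 : ∑ b, f b * f b ≤ 29) : ∀ b, f b = 0 ∨ f b = 2 := by
  classical
  have h4 : ∑ b, f b * (f b - 2) ≤ 5 := by
    have h5 : ∑ b, f b * (f b - 2) + 2 * ∑ b, f b = ∑ b, f b * f b := by
      rw [mul_sum, ← sum_add_distrib]
      apply sum_congr rfl
      intro b _
      by_cases hb : f b = 0
      · simp [hb]
      · obtain ⟨c, hc⟩ := Nat.exists_eq_add_of_le (h2 b hb)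
        rw [hc, Nat.add_sub_cancel_left]
        ring
    omega
  intro b0
  by_contra hcon
  push Not at hcon
  have h5 := h2 b0 hcon.1
  have h6 : 3 ≤ f b0 := by omega
  have h7 : f b0 * (f b0 - 2) + ∑ b ∈ univ.erase b0, f b * (f b - 2) ≤ 5 := by
    rw [add_sum_erase _ (fun b => f b * (f b - 2)) (mem_univ b0)]
    exact h4
  have h8 : f b0 ≤ 3 := by
    by_contra h8
    push Not at h8
    have : 4 * 2 ≤ f b0 * (f b0 - 2) := Nat.mul_le_mul h8 (by omega)
    omega
  have h9 : f b0 = 3 := by omega
  rw [h9] at h7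
  have h10 : ∀ b ∈ univ.erase b0, f b = 2 * (f b / 2) := by
    intro b hb
    have h11 : f b * (f b - 2) ≤ ∑ b ∈ univ.erase b0, f b * (f b - 2) :=
      single_le_sum (f := fun b => f b * (f b - 2)) (fun _ _ => Nat.zero_le _) hb
    have h12 : f b ≤ 2 := by
      by_contra h12
      push Not at h12
      have : 3 * 1 ≤ f b * (f b - 2) := Nat.mul_le_mul h12 (by omega)
      omega
    by_cases hb0 : f b = 0
    · omega
    · have := h2 b hb0
      omega
  have h11 : f b0 + ∑ b ∈ univ.erase b0, f b = 12 := by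
    rw [add_sum_erase _ f (mem_univ b0)]
    exact h1
  rw [sum_congr rfl h10, ← mul_sum, h9] at h11
  omega

end Arith

variable {P Ln G : Type} [Membership P Ln] [Fintype P] [Fintype Ln] [ProjectivePlane P Ln]
  [Group G] [Fintype G] [MulAction G P] [MulAction G Ln] {L : Ln}

open Classical in
theorem sum_cc {A : Type} [Group A] [Fintype A] (πA : G → A) (o : P) (l : Ln) :
    ∑ a, cc πA o l a = (DD G o l).card := by
  unfold cc
  rw [card_eq_sum_card_fiberwise (f := πA) (t := univ) (fun _ _ => mem_univ _)]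

open Classical in
/-- a line which is fixed by no element of the kernel -/
theorem Reg.twelve_line (h : Reg P G L) (hn : ProjectivePlane.order P Ln = 12)
    {Q A : Type} [Group Q] [Finite Q] [CommGroup A] [Fintype A] (hQ : IsPGroup 3 Q) (t : ℕ)
    (ht1 : 1 ≤ t) (ht : ∀ a : A, a ^ (3 ^ t) = a) (πQ : G →* Q) (πA : G →* A)
    (hsurj : Function.Surjective πA) (hkk : kk πQ πA ≤ 2) (hcA : Fintype.card A = 8)
    (hker : Nat.card πA.ker = 18) {l : Ln} (hl : l ≠ L)
    (hK : ∀ u : G, πA u = 1 → u • l = l → u = 1) :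
    (univ.filter (fun u : G => u • l = l)).card = 4 := by
  have : Fact (Nat.Prime 3) := ⟨Nat.prime_three⟩
  obtain ⟨o, ho⟩ := exists_off (P := P) L
  obtain ⟨X, hXl, hX⟩ := exists_point (P := P) hl
  obtain ⟨f, hf⟩ : ∃ f : A → ℕ, ∀ b, f b = cc πA o l b := ⟨_, fun _ => rfl⟩
  have h1 : ∑ b, f b = 12 := by
    simp only [hf]
    rw [sum_cc, h.card_DD ho hl, hn]
  have h2 : ∀ b, f b ≠ 0 → 2 ≤ f b := by
    intro b hb
    have hne : ((DD G o l).filter (fun g => πA g = b)).Nonempty := by
      rw [← card_ne_zero]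
      rw [hf] at hb
      exact hb
    obtain ⟨g, hg⟩ := hne
    rw [mem_filter] at hg
    have h3 := h.value (q := 3) ho (by rw [hn]; norm_num) hQ t ht1 ht πQ πA hl hg.1
    rw [hg.2, ← hf] at h3
    omega
  have hfib : ∀ a, (univ.filter (fun u : G => πA u = a)).card = 18 := by
    intro a
    have h3 := card_fibre_eq πA ⊤ a (by
      obtain ⟨u, hu⟩ := hsurj a
      exact ⟨u, by simp [hu]⟩)
    simp only [Subgroup.mem_top, and_true] at h3
    rw [h3, card_filter_ker, hker]
  have hKl : (univ.filter (fun u : G => πA u = 1 ∧ u • l = l)).card = 1 := by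
    rw [card_eq_one]
    refine ⟨1, ?_⟩
    ext u
    simp only [mem_filter, mem_univ, true_and, mem_singleton]
    constructor
    · rintro ⟨h3, h4⟩
      exact hK u h3 h4
    · rintro rfl
      simp
  have hKX : 0 < (univ.filter (fun u : G => πA u = 1 ∧ u • X = X)).card := by
    rw [card_pos]
    exact ⟨1, by simp⟩
  have hac := h.autocorr ho πA hl hX hXl
  simp only [← hf] at hac
  have h3 := hac 1
  simp only [one_mul] at h3
  rw [hKl, hfib, hn] at h3
  have h4 := arith_aux f h1 h2 (by omega)
  have h5 : ∑ b, f b * f b = 24 := by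
    have h6 : ∑ b, f b * f b = 2 * ∑ b, f b := by
      rw [mul_sum]
      apply sum_congr rfl
      intro b _
      rcases h4 b with hb | hb <;> simp [hb]
    rw [h6, h1]
  have h6 : (univ.filter (fun u : G => πA u = 1 ∧ u • X = X)).card = 6 := by
    omega
  have h7 : ∀ a, (univ.filter (fun u : G => πA u = a ∧ u • X = X)).card = 6 := by
    intro a
    have h8 := hac a
    rw [hfib, hn] at h8
    have h9 : ∑ b, f (a * b) * f b = 4 * ∑ b, (f (a * b) / 2) * (f b / 2) := by
      rw [mul_sum]
      apply sum_congr rfl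
      intro b _
      rcases h4 (a * b) with hb | hb <;> rcases h4 b with hb' | hb' <;> simp [hb, hb']
    have h10 : (univ.filter (fun u : G => πA u = a ∧ u • X = X)).Nonempty := by
      rw [← card_pos]
      omega
    have h11 := card_fibre_eq πA (MulAction.stabilizer G X) a (by
      simpa only [MulAction.mem_stabilizer_iff] using h10)
    simp only [MulAction.mem_stabilizer_iff] at h11
    rw [h11, h6]
  have h8 : (univ.filter (fun u : G => u • X = X)).card = 48 := by
    rw [card_eq_sum_card_fiberwise (f := πA) (t := univ) (fun _ _ => mem_coe.2 (mem_univ _))]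
    have h9 : ∀ a ∈ (univ : Finset A),
        ((univ.filter (fun u : G => u • X = X)).filter (fun u => πA u = a)).card = 6 := by
      intro a _
      rw [← h7 a, filter_filter]
      congr 1
      ext u
      simp only [mem_filter, mem_univ, true_and]
      exact and_comm
    rw [sum_congr rfl h9, sum_const, card_univ, hcA]
    norm_num
  have h9 := h.card_U hl hX hXl
  rw [h8, hn] at h9
  omega

/-- counting fixing elements over the lines `lam X` -/
theorem Reg.fix_sum (h : Reg P G L) (lam : P → Ln) (hlam : ∀ X ∈ L, X ∈ lam X ∧ lam X ≠ L)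
    (B : Finset P) (hB : ∀ X ∈ B, X ∈ L) (T : Finset G) (hT : (1 : G) ∉ T) (S : P → Finset G)
    (hS : ∀ X ∈ B, ∀ u ∈ S X, u ∈ T ∧ u • lam X = lam X) (m : ℕ)
    (hm : ∀ X ∈ B, m ≤ (S X).card) : m * B.card ≤ T.card := by
  classical
  have h1 : (B.biUnion S).card = ∑ X ∈ B, (S X).card := by
    apply card_biUnion
    intro X hX Y hY hXY
    rw [Function.onFun, disjoint_left]
    intro u huX huY
    obtain ⟨hu1, hu2⟩ := hS X hX u huX
    obtain ⟨_, hu4⟩ := hS Y hY u huY
    have hne : lam X ≠ lam Y := by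
      intro hc
      apply hXY
      exact point_unique (hlam X (hB X hX)).2 (hlam X (hB X hX)).1 (hB X hX)
        (hc ▸ (hlam Y (hB Y hY)).1) (hB Y hY)
    obtain ⟨p, hp1, hp2⟩ := exists_point (P := P) hne
    have hpL : p ∉ L := by
      intro hpL
      apply hXY
      rw [← point_unique (hlam X (hB X hX)).2 hp1 hpL (hlam X (hB X hX)).1 (hB X hX)]
      exact point_unique (hlam Y (hB Y hY)).2 hp2 hpL (hlam Y (hB Y hY)).1 (hB Y hY)
    have hup : u • p = p := by
      apply point_unique hne _ _ hp1 hp2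
      · have := (h.inc u p (lam X)).1 hp1
        rwa [hu2] at this
      · have := (h.inc u p (lam Y)).1 hp2
        rwa [hu4] at this
    have : u = 1 := h.inj hpL (by
      show u • p = (1 : G) • p
      rw [hup, one_smul])
    exact hT (this ▸ hu1)
  have h2 : (B.biUnion S).card ≤ T.card := by
    apply card_le_card
    intro u hu
    obtain ⟨X, hX, huX⟩ := mem_biUnion.1 hu
    exact (hS X hX u huX).1
  rw [h1] at h2
  have h3 : ∑ X ∈ B, m ≤ ∑ X ∈ B, (S X).card := sum_le_sum hm
  rw [sum_const, smul_eq_mul, mul_comm] at h3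
  omega

theorem card_le_kk {Q A : Type} [Group Q] [CommGroup A] (πQ : G →* Q) (πA : G →* A)
    (S : Finset G) (hS : ∀ u ∈ S, πQ u = 1 ∧ πA u = 1) : S.card ≤ kk πQ πA := by
  classical
  unfold kk
  exact card_le_card (fun u hu => mem_filter.2 ⟨mem_univ _, hS u hu⟩)

theorem card_le_ker {A : Type} [Group A] (f : G →* A) (S : Finset G) (hS : ∀ u ∈ S, f u = 1) :
    S.card ≤ Nat.card f.ker := by
  classical
  rw [← card_filter_ker]
  exact card_le_card (fun u hu => mem_filter.2 ⟨mem_univ _, hS u hu⟩)

theorem mem_comm_of {g : G} {q : ℕ} (hq : q.Prime) (h1 : pQ G q g = 1) (h2 : pA G q g = 1) :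
    g ∈ commutator G := by
  rw [pQ_eq_one] at h1
  rw [pA_eq_one] at h2
  rw [← Abelianization.ker_of, MonoidHom.mem_ker, ← orderOf_eq_one_iff]
  exact Nat.eq_one_of_dvd_coprimes (coprime_vw (G := G) hq) (orderOf_dvd_of_pow_eq_one h2)
    (orderOf_dvd_of_pow_eq_one h1)

theorem eq_one_of_pow {Q : Type} [Group Q] [Finite Q] {q : ℕ} (hQ : IsPGroup q Q) {x : Q} {m : ℕ}
    (hm : Nat.Coprime q m) (hx : x ^ m = 1) : x = 1 := by
  obtain ⟨k, hk⟩ := hQ x
  rw [← orderOf_eq_one_iff]
  exact Nat.eq_one_of_dvd_coprimes (Nat.Coprime.pow_left k hm) (orderOf_dvd_of_pow_eq_one hk)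
    (orderOf_dvd_of_pow_eq_one hx)

/-- order `12` is impossible -/
theorem Reg.not_twelve (h : Reg P G L) (hn : ProjectivePlane.order P Ln = 12)
    (hG : Nat.card (commutator G) = 2) : False := by
  classical
  have : Fact (Nat.Prime 3) := ⟨Nat.prime_three⟩
  have hcG : Nat.card G = 144 := by
    rw [Nat.card_eq_fintype_card, h.card_G, hn]
    norm_num
  have hab : Nat.card (Abelianization G) = 72 := by
    have := card_G_eq (G := G)
    rw [hcG, hG] at this
    omega
  have hw : vv G 3 = 9 := by
    unfold vv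
    rw [hab, show (72 : ℕ) = 3 ^ 2 * 8 by norm_num,
      Nat.factorization_mul (by norm_num) (by norm_num), Nat.factorization_pow]
    simp only [Finsupp.coe_add, Finsupp.coe_smul, Pi.add_apply, Pi.smul_apply, smul_eq_mul]
    rw [Nat.Prime.factorization_self Nat.prime_three,
      Nat.factorization_eq_zero_of_not_dvd (by norm_num : ¬ 3 ∣ 8)]
    norm_num
  have hww : ww G 3 = 8 := by
    have := vv_mul_ww (G := G) (q := 3)
    rw [hw, hab] at this
    omega
  have hkk : kk (pQ G 3) (pA G 3) ≤ 2 := by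
    have := kk_le (G := G) Nat.prime_three
    rw [hG] at this
    exact this
  have hker : Nat.card (pA G 3).ker = 18 := by
    have := card_ker_of_surj (pA G 3) surj_pA
    rw [card_range_A Nat.prime_three, hww, hcG] at this
    omega
  have hkerQ : Nat.card (pQ G 3).ker = 16 := by
    have := card_ker_of_surj (pQ G 3) surj_pQ
    rw [card_range_Q Nat.prime_three, hw, hcG] at this
    omega
  have hQ := isPGroup_pQ (G := G) (q := 3)
  have hchoose : ∀ X : P, ∃ l : Ln, X ∈ L → X ∈ l ∧ l ≠ L := by
    intro X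
    by_cases hX : X ∈ L
    · obtain ⟨o, ho⟩ := exists_off (P := P) L
      obtain ⟨l, hl1, hl2⟩ := exists_line (Ln := Ln) X o (fun hc => ho (hc ▸ hX))
      exact ⟨l, fun _ => ⟨hl1, fun hc => ho (hc ▸ hl2)⟩⟩
    · exact ⟨L, fun hc => absurd hc hX⟩
  choose lam hlam using hchoose
  set LP : Finset P := univ.filter (fun X : P => X ∈ L) with hLP
  have hLPc : LP.card = 13 := by
    rw [hLP, card_points_on, hn]
  have hLPm : ∀ X, X ∈ LP ↔ X ∈ L := by
    intro X
    simp [hLP]
  set G1 := LP.filter (fun X => ∀ u : G, pA G 3 u = 1 → u • lam X = lam X → u = 1) with hG1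
  set B2 := LP.filter (fun X => ∃ u : G, pA G 3 u = 1 ∧ u ^ 2 = 1 ∧ u ≠ 1 ∧ u • lam X = lam X)
    with hB2
  set B3 := LP.filter (fun X => ∃ u : G, pA G 3 u = 1 ∧ u ^ 3 = 1 ∧ u ≠ 1 ∧ u • lam X = lam X)
    with hB3
  have hcover : LP ⊆ G1 ∪ (B2 ∪ B3) := by
    intro X hX
    rw [mem_union, mem_union]
    by_cases hgood : ∀ u : G, pA G 3 u = 1 → u • lam X = lam X → u = 1
    · exact Or.inl (mem_filter.2 ⟨hX, hgood⟩)
    · right
      push Not at hgood
      obtain ⟨u, hu1, hu2, hu3⟩ := hgood
      have hu18 : u ^ 18 = 1 := by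
        have h1 : (⟨u, hu1⟩ : (pA G 3).ker) ^ Nat.card (pA G 3).ker = 1 := pow_card_eq_one'
        rw [hker] at h1
        exact Subtype.ext_iff.1 h1
      have hpow : ∀ k : ℕ, pA G 3 (u ^ k) = 1 ∧ u ^ k • lam X = lam X := by
        intro k
        constructor
        · rw [map_pow, hu1, one_pow]
        · have : u ^ k ∈ MulAction.stabilizer G (lam X) :=
            Subgroup.pow_mem _ (MulAction.mem_stabilizer_iff.2 hu2) k
          exact MulAction.mem_stabilizer_iff.1 this
      by_cases hu9 : u ^ 9 = 1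
      · right
        by_cases hu33 : u ^ 3 = 1
        · exact mem_filter.2 ⟨hX, u, hu1, hu33, hu3, hu2⟩
        · exact mem_filter.2
            ⟨hX, u ^ 3, (hpow 3).1, by rw [← pow_mul]; exact hu9, hu33, (hpow 3).2⟩
      · left
        exact mem_filter.2
          ⟨hX, u ^ 9, (hpow 9).1, by rw [← pow_mul]; exact hu18, hu9, (hpow 9).2⟩
  -- involutions
  have hc2 : 1 * B2.card ≤ 1 := by
    set T : Finset G := univ.filter (fun u : G => pA G 3 u = 1 ∧ u ^ 2 = 1 ∧ u ≠ 1) with hT
    have hTc : T.card ≤ 1 := by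
      have h1 : (insert 1 T).card ≤ kk (pQ G 3) (pA G 3) := by
        apply card_le_kk
        intro u hu
        rw [mem_insert] at hu
        rcases hu with rfl | hu
        · rw [map_one, map_one]
          exact ⟨rfl, rfl⟩
        · rw [hT, mem_filter] at hu
          refine ⟨?_, hu.2.1⟩
          exact eq_one_of_pow hQ (m := 2) (by norm_num) (by rw [← map_pow, hu.2.2.1, map_one])
      rw [card_insert_of_notMem (by simp [hT])] at h1
      omega
    refine le_trans (h.fix_sum lam (fun X hX => hlam X hX) B2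
      (fun X hX => (hLPm X).1 (mem_filter.1 hX).1) T (by simp [hT])
      (fun X => T.filter (fun u => u • lam X = lam X))
      (fun X _ u hu => mem_filter.1 hu) 1 ?_) hTc
    intro X hX
    obtain ⟨u, hu1, hu2, hu3, hu4⟩ := (mem_filter.1 hX).2
    rw [Nat.succ_le_iff, card_pos]
    exact ⟨u, mem_filter.2 ⟨mem_filter.2 ⟨mem_univ _, hu1, hu2, hu3⟩, hu4⟩⟩
  -- elements of order three
  have hc3 : 2 * B3.card ≤ 8 := by
    set T : Finset G := univ.filter (fun u : G => pA G 3 u = 1 ∧ u ^ 3 = 1 ∧ u ≠ 1) with hT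
    have hTc : T.card ≤ 8 := by
      have h1 : (insert 1 T).card ≤ Nat.card (powMonoidHom (ww G 3) :
          Abelianization G →* Abelianization G).range := by
        letI : Fintype (powMonoidHom (ww G 3) : Abelianization G →* Abelianization G).range :=
          Fintype.ofFinite _
        rw [Nat.card_eq_fintype_card, ← card_univ]
        have hprop : ∀ u ∈ insert 1 T, pA G 3 u = 1 ∧ u ^ 3 = 1 := by
          intro u hu
          rw [mem_insert] at hu
          rcases hu with rfl | hu
          · exact ⟨map_one _, one_pow _⟩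
          · rw [hT, mem_filter] at hu
            exact ⟨hu.2.1, hu.2.2.1⟩
        apply card_le_card_of_injOn (pQ G 3) (fun _ _ => mem_coe.2 (mem_univ _))
        intro x hx y hy hxy
        obtain ⟨hx1, hx2⟩ := hprop x hx
        obtain ⟨hy1, hy2⟩ := hprop y hy
        have hxy' : pQ G 3 x = pQ G 3 y := hxy
        have hc : x * y⁻¹ ∈ commutator G := by
          apply mem_comm_of Nat.prime_three
          · rw [map_mul, map_inv, hxy', mul_inv_cancel]
          · rw [map_mul, map_inv, hx1, hy1, mul_inv_cancel]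
        have hcy : Commute (x * y⁻¹) y := two_central hG.le hc y
        have h2 : (x * y⁻¹) ^ 3 = 1 := by
          have h3 := hcy.mul_pow 3
          rw [inv_mul_cancel_right, hx2, hy2, mul_one] at h3
          exact h3.symm
        have h3 : (x * y⁻¹) ^ 2 = 1 := two_sq hG.le hc
        rw [pow_succ, h3, one_mul] at h2
        exact mul_inv_eq_one.1 h2
      rw [card_insert_of_notMem (by simp [hT]), card_range_Q Nat.prime_three, hw] at h1
      omega
    refine le_trans (h.fix_sum lam (fun X hX => hlam X hX) B3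
      (fun X hX => (hLPm X).1 (mem_filter.1 hX).1) T (by simp [hT])
      (fun X => T.filter (fun u => u • lam X = lam X))
      (fun X _ u hu => mem_filter.1 hu) 2 ?_) hTc
    intro X hX
    obtain ⟨u, hu1, hu2, hu3, hu4⟩ := (mem_filter.1 hX).2
    have hsub : ({u, u ^ 2} : Finset G) ⊆ T.filter (fun u => u • lam X = lam X) := by
      intro v hv
      rw [mem_insert, mem_singleton] at hv
      rcases hv with rfl | rfl
      · exact mem_filter.2 ⟨mem_filter.2 ⟨mem_univ _, hu1, hu2, hu3⟩, hu4⟩
      · refine mem_filter.2 ⟨mem_filter.2 ⟨mem_univ _, ?_, ?_, ?_⟩, ?_⟩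
        · rw [map_pow, hu1, one_pow]
        · rw [← pow_mul, mul_comm, pow_mul, hu2, one_pow]
        · intro hc
          rw [pow_succ, hc, one_mul] at hu2
          exact hu3 hu2
        · rw [pow_two, mul_smul, hu4, hu4]
    have h2 : ({u, u ^ 2} : Finset G).card = 2 := by
      rw [card_pair]
      intro hc
      apply hu3
      rw [pow_two] at hc
      exact (mul_eq_left.1 hc.symm)
    rw [← h2]
    exact card_le_card hsub
  -- the good points
  have hc1 : 3 * G1.card ≤ 15 := by
    set T : Finset G := univ.filter (fun u : G => pQ G 3 u = 1 ∧ u ≠ 1) with hT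
    have hTc : T.card ≤ 15 := by
      have h1 : (insert 1 T).card ≤ Nat.card (pQ G 3).ker := by
        apply card_le_ker
        intro u hu
        rw [mem_insert] at hu
        rcases hu with rfl | hu
        · exact map_one _
        · rw [hT, mem_filter] at hu
          exact hu.2.1
      rw [card_insert_of_notMem (by simp [hT]), hkerQ] at h1
      omega
    have hfour : ∀ X ∈ G1, (univ.filter (fun u : G => u • lam X = lam X)).card = 4 := by
      intro X hX
      have hX' := mem_filter.1 hX
      letI : Fintype (powMonoidHom (vv G 3) : Abelianization G →* Abelianization G).range :=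
        Fintype.ofFinite _
      have h1 := h.twelve_line hn hQ (ww G 3).totient (Nat.totient_pos.2 ww_pos)
        (pow_pA' Nat.prime_three) (pQ G 3) (pA G 3) surj_pA hkk
        (by rw [← Nat.card_eq_fintype_card, card_range_A Nat.prime_three, hww]) hker
        (hlam X ((hLPm X).1 hX'.1)).2 hX'.2
      convert h1 using 2
    refine le_trans (h.fix_sum lam (fun X hX => hlam X hX) G1
      (fun X hX => (hLPm X).1 (mem_filter.1 hX).1) T (by simp [hT])
      (fun X => (univ.filter (fun u : G => u • lam X = lam X)).erase 1) ?_ 3 ?_) hTc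
    · intro X hX u hu
      rw [mem_erase, mem_filter] at hu
      refine ⟨mem_filter.2 ⟨mem_univ _, ?_, hu.1⟩, hu.2.2⟩
      apply eq_one_of_pow hQ (m := 4) (by norm_num)
      rw [← map_pow]
      have h1 : Nat.card (MulAction.stabilizer G (lam X)) = 4 := by
        rw [← hfour X hX, Nat.card_eq_fintype_card, ← Fintype.card_coe]
        apply Fintype.card_congr
        exact Equiv.subtypeEquivRight (by
          intro u
          simp [MulAction.mem_stabilizer_iff])
      have h2 : (⟨u, MulAction.mem_stabilizer_iff.2 hu.2.2⟩ : MulAction.stabilizer G (lam X))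
          ^ Nat.card (MulAction.stabilizer G (lam X)) = 1 := pow_card_eq_one'
      rw [h1] at h2
      have h3 : u ^ 4 = 1 := Subtype.ext_iff.1 h2
      rw [h3, map_one]
    · intro X hX
      rw [card_erase_of_mem (by simp), hfour X hX]
  have h1 := (card_le_card hcover).trans
    ((card_union_le _ _).trans (Nat.add_le_add_left (card_union_le _ _) _))
  omega

end PPN
end
end

section

section

/-! # Groups with `|G'| ≤ 2` -/

set_option autoImplicit false

open Configuration Finset

namespace PPN

variable {P Ln G : Type} [Membership P Ln] [Fintype P] [Fintype Ln] [ProjectivePlane P Ln]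
  [Group G] [MulAction G P] [MulAction G Ln] {L : Ln}

theorem Reg.comm_two (h : Reg P G L) (hG : Nat.card (commutator G) ≤ 2) :
    IsPrimePow (ProjectivePlane.order P Ln) := by
  classical
  obtain ⟨o, ho⟩ := exists_off (P := P) L
  have hfin : Finite G := h.finite ho
  let _ : Fintype G := Fintype.ofFinite G
  have hn1 : 1 < ProjectivePlane.order P Ln := ProjectivePlane.one_lt_order P Ln
  have hcG : Nat.card G = ProjectivePlane.order P Ln ^ 2 := by
    rw [Nat.card_eq_fintype_card, h.card_G]
  have hpos : 0 < Nat.card (commutator G) := Nat.card_pos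
  have hk : Nat.card (commutator G) = 1 ∨ Nat.card (commutator G) = 2 := by omega
  have hA : ∀ q : ℕ, q.Prime → q ∣ ProjectivePlane.order P Ln →
      (Nat.card (commutator G) = 1 ∨ q ≠ 2) →
      q * (ProjectivePlane.order P Ln + 1) < Nat.card (commutator G)
        * (ProjectivePlane.order P Ln + 1
          + (ordProj[q] (ProjectivePlane.order P Ln)) ^ 2) := by
    intro q hq hqn hcase
    have h1 := h.general hq hqn
    have h2 : vv G q = (ordProj[q] (ProjectivePlane.order P Ln)) ^ 2 := by
      rw [← ordProj_sq, ← hcG]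
      rcases hcase with h3 | h3
      · exact vv_one h3 q
      · exact vv_odd hG hq h3
    rwa [h2] at h1
  have hB : Nat.card (commutator G) = 2 → 2 ∣ ProjectivePlane.order P Ln ∧
      ProjectivePlane.order P Ln + 2 ≤ (ordProj[2] (ProjectivePlane.order P Ln)) ^ 2 := by
    intro h2
    have h3 : 2 ∣ ProjectivePlane.order P Ln := by
      apply Nat.prime_two.dvd_of_dvd_pow (n := 2)
      rw [← hcG, card_G_eq (G := G), h2]
      exact dvd_mul_left _ _
    refine ⟨h3, ?_⟩
    rw [← ordProj_sq, ← hcG]
    exact h.two_ineq hG h3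
  rcases num hn1 hk hA hB (fun _ h23 h8 => h.eight hG h23 h8) with h1 | h1
  · exact h1
  · exact (h.not_twelve h1.1 h1.2).elim

end PPN
end

section

/-! # The general bound and direct products of a `p`-group with an abelian group -/

set_option autoImplicit false

open Configuration Finset

namespace PPN

variable {P Ln G : Type} [Membership P Ln] [Fintype P] [Fintype Ln] [ProjectivePlane P Ln]
  [Group G] [Fintype G] [MulAction G P] [MulAction G Ln] {L : Ln}

theorem Reg.vv_le (h : Reg P G L) (q : ℕ) :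
    vv G q ≤ (ordProj[q] (ProjectivePlane.order P Ln)) ^ 2 := by
  have hcG : Nat.card G = ProjectivePlane.order P Ln ^ 2 := by
    rw [Nat.card_eq_fintype_card, h.card_G]
  rw [← ordProj_sq, ← hcG]
  apply Nat.le_of_dvd (Nat.ordProj_pos _ _)
  unfold vv
  exact Nat.ordProj_dvd_ordProj_of_dvd Nat.card_pos.ne' ⟨_, card_G_eq⟩ q

/-- the general bound in terms of the order of the commutator subgroup -/
theorem Reg.bound (h : Reg P G L) {q : ℕ} (hqp : q.Prime)
    (hq : q ∣ ProjectivePlane.order P Ln) :
    q * (ProjectivePlane.order P Ln + 1) < Nat.card (commutator G)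
      * (ProjectivePlane.order P Ln + 1 + (ordProj[q] (ProjectivePlane.order P Ln)) ^ 2) :=
  lt_of_lt_of_le (h.general hqp hq)
    (Nat.mul_le_mul_left _ (Nat.add_le_add_left (h.vv_le q) _))

section Prod

variable {P0 A0 : Type} [Group P0] [CommGroup A0]

theorem comm_snd (e : G ≃* P0 × A0) {g : G} (hg : g ∈ commutator G) : (e g).2 = 1 := by
  have h1 := Abelianization.commutator_subset_ker ((MonoidHom.snd P0 A0).comp e.toMonoidHom) hg
  exact h1

theorem comm_fst (e : G ≃* P0 × A0) {g : G} (hg : g ∈ commutator G) :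
    (e g).1 ∈ commutator P0 := by
  have h1 : (commutator G).map ((MonoidHom.fst P0 A0).comp e.toMonoidHom) ≤ commutator P0 := by
    rw [commutator_def, commutator_def, Subgroup.map_commutator]
    exact Subgroup.commutator_mono le_top le_top
  exact h1 ⟨g, hg, rfl⟩

theorem card_comm_le (e : G ≃* P0 × A0) [Finite P0] :
    Nat.card (commutator G) ≤ Nat.card (commutator P0) := by
  apply Nat.card_le_card_of_injective
    (fun g : commutator G => (⟨(e g.1).1, comm_fst e g.2⟩ : commutator P0))
  intro x y hxy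
  have h1 : (e x.1).1 = (e y.1).1 := congrArg Subtype.val hxy
  apply Subtype.ext
  apply e.injective
  exact Prod.ext h1 (by rw [comm_snd e x.2, comm_snd e y.2])

theorem comm_pgroup (e : G ≃* P0 × A0) {p : ℕ} (hP : IsPGroup p P0) :
    IsPGroup p (commutator G) := by
  apply hP.of_injective
    (((MonoidHom.fst P0 A0).comp e.toMonoidHom).comp (commutator G).subtype)
  intro x y hxy
  have h1 : (e x.1).1 = (e y.1).1 := hxy
  apply Subtype.ext
  apply e.injective
  exact Prod.ext h1 (by rw [comm_snd e x.2, comm_snd e y.2])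

/-- projection of `P0 × A0` to its `p`-part -/
noncomputable def fQ (P0 A0 : Type) [Group P0] [CommGroup A0] (p : ℕ) :
    P0 × A0 →* P0 × A0 :=
  MonoidHom.prodMap (MonoidHom.id P0) (powMonoidHom (ordCompl[p] (Nat.card A0)))

theorem fQ_pgroup [Finite A0] {p : ℕ} (hP : IsPGroup p P0) (e : G ≃* P0 × A0) :
    IsPGroup p ((fQ P0 A0 p).comp e.toMonoidHom).range := by
  rintro ⟨_, g, rfl⟩
  obtain ⟨i, hi⟩ := hP (e g).1
  refine ⟨i + (Nat.card A0).factorization p, ?_⟩
  apply Subtype.ext
  show ((e g).1, (e g).2 ^ ordCompl[p] (Nat.card A0))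
    ^ (p ^ (i + (Nat.card A0).factorization p)) = 1
  apply Prod.ext
  · show (e g).1 ^ (p ^ (i + (Nat.card A0).factorization p)) = 1
    rw [pow_add, pow_mul, hi, one_pow]
  · show ((e g).2 ^ ordCompl[p] (Nat.card A0)) ^ (p ^ (i + (Nat.card A0).factorization p)) = 1
    rw [← pow_mul, pow_add, mul_comm (p ^ i), ← mul_assoc,
      mul_comm (ordCompl[p] (Nat.card A0)), Nat.ordProj_mul_ordCompl_eq_self, pow_mul,
      pow_card_eq_one', one_pow]

theorem kk_prod [Finite A0] {p : ℕ} (hp : p.Prime) (e : G ≃* P0 × A0) :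
    kk ((fQ P0 A0 p).comp e.toMonoidHom).rangeRestrict (pA G p) ≤ 1 := by
  classical
  unfold kk
  rw [card_le_one_iff_subset_singleton]
  refine ⟨1, ?_⟩
  intro g hg
  simp only [mem_filter, mem_univ, true_and] at hg
  obtain ⟨h1, h2⟩ := hg
  rw [pA_eq_one] at h2
  have h3 : ((e g).1, (e g).2 ^ ordCompl[p] (Nat.card A0)) = (1 : P0 × A0) :=
    Subtype.ext_iff.1 h1
  have h4 : (e g).1 = 1 := congrArg Prod.fst h3
  have h5 : (e g).2 ^ ordCompl[p] (Nat.card A0) = 1 := congrArg Prod.snd h3
  have h6 : (e g).2 ^ vv G p = 1 := by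
    have h7 := congrArg
      (Abelianization.lift ((MonoidHom.snd P0 A0).comp e.toMonoidHom)) h2
    rw [map_pow, Abelianization.lift_apply_of, map_one] at h7
    exact h7
  have h7 : Nat.Coprime (vv G p) (ordCompl[p] (Nat.card A0)) :=
    Nat.Coprime.pow_left _ (Nat.coprime_ordCompl hp Nat.card_pos.ne')
  have h8 : (e g).2 = 1 := by
    rw [← orderOf_eq_one_iff]
    exact Nat.eq_one_of_dvd_coprimes h7 (orderOf_dvd_of_pow_eq_one h6)
      (orderOf_dvd_of_pow_eq_one h5)
  rw [mem_singleton]
  apply e.injective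
  rw [map_one]
  exact Prod.ext h4 h8

end Prod

theorem Reg.product_p (h : Reg P G L) {P0 A0 : Type} [Group P0] [CommGroup A0]
    (e : G ≃* P0 × A0) {p : ℕ} (hp : p.Prime) (hP : IsPGroup p P0)
    (hpn : p ∣ ProjectivePlane.order P Ln) :
    p * (ProjectivePlane.order P Ln + 1)
      ≤ ProjectivePlane.order P Ln + (ordProj[p] (ProjectivePlane.order P Ln)) ^ 2 := by
  have : Fact p.Prime := ⟨hp⟩
  have hfA : Finite A0 := Finite.of_surjective (fun g : G => (e g).2)
    (fun a => ⟨e.symm (1, a), by simp⟩)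
  have hfR : Finite ((fQ P0 A0 p).comp e.toMonoidHom).range :=
    Finite.of_surjective ((fQ P0 A0 p).comp e.toMonoidHom).rangeRestrict
      (MonoidHom.rangeRestrict_surjective _)
  have h1 := h.ineq hpn (fQ_pgroup hP e) (ww G p).totient
    (Nat.totient_pos.2 ww_pos) (pow_pA' hp) ((fQ P0 A0 p).comp e.toMonoidHom).rangeRestrict
    (pA G p)
  have h2 := card_pA_one (G := G) hp
  have h3 := kk_prod (G := G) (p := p) hp e
  have h4 : Nat.card (commutator G) * vv G p
      = (ordProj[p] (ProjectivePlane.order P Ln)) ^ 2 := by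
    have hcG : Nat.card G = ProjectivePlane.order P Ln ^ 2 := by
      rw [Nat.card_eq_fintype_card, h.card_G]
    rw [← ordProj_sq, ← hcG]
    obtain ⟨k, hk⟩ := IsPGroup.iff_card.1 (comm_pgroup e hP)
    have h5 : ordProj[p] (Nat.card (commutator G)) = Nat.card (commutator G) := by
      rw [hk, hp.factorization_pow, Finsupp.single_eq_same]
    rw [card_G_eq (G := G), Nat.ordProj_mul p Nat.card_pos.ne' Nat.card_pos.ne', h5, mul_comm]
    rfl
  have h5 := Nat.mul_le_mul_right (ProjectivePlane.order P Ln + 1) h3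
  rw [h4] at h2
  rw [add_mul] at h1
  omega

theorem Reg.product (h : Reg P G L) {P0 A0 : Type} [Group P0] [CommGroup A0]
    (e : G ≃* P0 × A0) {p : ℕ} (hp : p.Prime) (hP : IsPGroup p P0) :
    IsPrimePow (ProjectivePlane.order P Ln) ∨ ∃ a m : ℕ, ProjectivePlane.order P Ln = p ^ a * m ∧
      1 ≤ a ∧ 1 < m ∧ Nat.Coprime p m ∧ (p - 1) * m < p ^ a ∧
      ∀ q : ℕ, q.Prime → q ∣ m → (p - 1) * q < p * Nat.card (commutator P0) := by
  have : Fact p.Prime := ⟨hp⟩
  have hfP : Finite P0 := Finite.of_surjective (fun g : G => (e g).1)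
    (fun a => ⟨e.symm (a, 1), by simp⟩)
  have hn0 : ProjectivePlane.order P Ln ≠ 0 :=
    (lt_trans Nat.zero_lt_one (ProjectivePlane.one_lt_order P Ln)).ne'
  have hcG : Nat.card G = ProjectivePlane.order P Ln ^ 2 := by
    rw [Nat.card_eq_fintype_card, h.card_G]
  have hcomm := card_comm_le (G := G) e
  by_cases hnp : IsPrimePow (ProjectivePlane.order P Ln)
  · exact Or.inl hnp
  right
  have hpn : p ∣ ProjectivePlane.order P Ln := by
    by_contra hpn
    apply hnp
    apply h.comm_two
    obtain ⟨k, hk⟩ := IsPGroup.iff_card.1 hP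
    have h1 : Nat.card P0 ∣ Nat.card G := by
      rw [Nat.card_congr e.toEquiv, Nat.card_prod]
      exact dvd_mul_right _ _
    have hk0 : k = 0 := by
      by_contra hk0
      apply hpn
      apply hp.dvd_of_dvd_pow (n := 2)
      rw [← hcG]
      exact ((dvd_pow_self p hk0).trans (dvd_of_eq hk.symm)).trans h1
    have h2 : Nat.card (commutator P0) ≤ Nat.card P0 :=
      Nat.card_le_card_of_injective _ (commutator P0).subtype_injective
    rw [hk, hk0, pow_zero] at h2
    omega
  have h1 := h.product_p e hp hP hpn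
  have h2 := Nat.ordProj_mul_ordCompl_eq_self (ProjectivePlane.order P Ln) p
  set n := ProjectivePlane.order P Ln with hn
  set s := ordProj[p] n with hs
  set m := ordCompl[p] n with hm
  have hm0 : 0 < m := Nat.ordCompl_pos p hn0
  have hs0 : 0 < s := Nat.ordProj_pos n p
  obtain ⟨k, hk⟩ : ∃ k, p = k + 2 := ⟨p - 2, by have := hp.two_le; omega⟩
  have h3 : (p - 1) * m < s := by
    have h4 : s * ((p - 1) * m) < s * s := by
      rw [← h2] at h1
      rw [hk] at h1 ⊢
      rw [show k + 2 - 1 = k + 1 from rfl]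
      nlinarith
    exact Nat.lt_of_mul_lt_mul_left h4
  have hm1 : 1 < m := by
    by_contra hcon
    have h4 : m = 1 := by omega
    rw [h4, mul_one] at h2
    apply hnp
    rw [← h2, hs]
    exact hp.isPrimePow.pow (Nat.Prime.factorization_pos_of_dvd hp hn0 hpn).ne'
  refine ⟨n.factorization p, m, h2.symm, Nat.Prime.factorization_pos_of_dvd hp hn0 hpn, hm1,
    Nat.coprime_ordCompl hp hn0, h3, ?_⟩
  intro q hq hqm
  have hqp : q ≠ p := by
    rintro rfl
    exact Nat.not_dvd_ordCompl hp hn0 hqm
  have h4 := h.general hq (hqm.trans (Nat.ordCompl_dvd n p))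
  have h5 := h.vv_le q
  rw [← hn] at h4 h5
  have h6 : ordProj[q] n ≤ m := by
    apply Nat.le_of_dvd hm0
    have h7 : Nat.Coprime (ordProj[q] n) s :=
      Nat.Coprime.pow _ _ ((Nat.coprime_primes hq hp).2 hqp)
    apply h7.dvd_of_dvd_mul_left
    rw [h2]
    exact Nat.ordProj_dvd n q
  have h7 : (p - 1) * vv G q < n := by
    have h8 : vv G q ≤ m * m := by
      refine h5.trans ?_
      rw [pow_two]
      exact Nat.mul_le_mul h6 h6
    calc (p - 1) * vv G q ≤ (p - 1) * (m * m) := Nat.mul_le_mul_left _ h8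
      _ = (p - 1) * m * m := by ring
      _ < s * m := Nat.mul_lt_mul_of_pos_right h3 hm0
      _ = n := h2
  have h8 : (p - 1) * (n + 1 + vv G q) ≤ p * (n + 1) := by
    rw [hk] at h7 ⊢
    rw [show k + 2 - 1 = k + 1 from rfl] at h7 ⊢
    nlinarith
  have h9 : (p - 1) * q * (n + 1) < p * Nat.card (commutator P0) * (n + 1) := by
    have hp1 : 0 < p - 1 := by omega
    calc (p - 1) * q * (n + 1) = (p - 1) * (q * (n + 1)) := by ring
      _ < (p - 1) * (Nat.card (commutator G) * (n + 1 + vv G q)) :=
        Nat.mul_lt_mul_of_pos_left h4 hp1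
      _ = Nat.card (commutator G) * ((p - 1) * (n + 1 + vv G q)) := by ring
      _ ≤ Nat.card (commutator P0) * (p * (n + 1)) := Nat.mul_le_mul hcomm h8
      _ = _ := by ring
  exact Nat.lt_of_mul_lt_mul_right h9

end PPN
end
end
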