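import Pool.Agent.Lib.MP_308a3a_co.Conj
import Pool.Agent.Lib.MP_308a3a_co.Product
import Pool.Agent.Lib.MP_308a3a_co.Hall

section

/-! # Involutions -/

set_option autoImplicit false

open Configuration Finset

namespace PPN

variable {P Ln G : Type} [Membership P Ln] [Fintype P] [Fintype Ln] [ProjectivePlane P Ln]
  [Group G] [Fintype G] [MulAction G P] [MulAction G Ln] {L : Ln}

/-- an element that fixes an affine point is trivial -/
theorem Reg.eq_one (h : Reg P G L) {p : P} (hp : p ∉ L) {g : G} (hg : g • p = p) : g = 1 :=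
  h.inj hp (by
    show g • p = (1 : G) • p
    rw [hg, one_smul])

/-- the line through `p` and `t p` is fixed by an involution `t` -/
theorem Reg.invol_line (h : Reg P G L) {t : G} (ht : t ≠ 1) (ht2 : t * t = 1) {p : P}
    (hp : p ∉ L) : ∃ l : Ln, l ≠ L ∧ p ∈ l ∧ t • l = l := by
  have hne : p ≠ t • p := fun hc => ht (h.eq_one hp hc.symm)
  obtain ⟨l, hl1, hl2⟩ := exists_line (Ln := Ln) p (t • p) hne
  refine ⟨l, fun hc => hp (hc ▸ hl1), hl1, ?_⟩
  have h1 : t • p ∈ t • l := (h.inc t p l).1 hl1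
  have h2 : p ∈ t • l := by
    have := (h.inc t (t • p) l).1 hl2
    rwa [← mul_smul, ht2, one_smul] at this
  exact line_unique hne h2 h1 hl1 hl2

/-- involutions fix all the points of `L` -/
theorem Reg.invol_fix (h : Reg P G L) {t : G} (ht : t ≠ 1) (ht2 : t * t = 1) {X : P}
    (hX : X ∈ L) : t • X = X := by
  classical
  set n := ProjectivePlane.order P Ln with hn
  have hn0 : 0 < n := lt_trans Nat.zero_lt_one (ProjectivePlane.one_lt_order P Ln)
  have h1 := card_fixed_eq (P := P) (Ln := Ln) h.inc t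
  -- the number of fixed lines
  have h2 : n ≤ (univ.filter (fun l : Ln => t • l = l ∧ l ≠ L)).card := by
    have h3 : n ^ 2 ≤ ∑ l ∈ univ.filter (fun l : Ln => t • l = l ∧ l ≠ L),
        (univ.filter (fun p : P => p ∈ l ∧ p ∉ L)).card := by
      rw [hn, ← card_off (P := P) L]
      refine le_trans (card_le_card ?_) card_biUnion_le
      intro p hp
      have hp' := (mem_filter.1 hp).2
      obtain ⟨l, hl1, hl2, hl3⟩ := h.invol_line ht ht2 hp'
      exact mem_biUnion.2 ⟨l, mem_filter.2 ⟨mem_univ _, hl3, hl1⟩,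
        mem_filter.2 ⟨mem_univ _, hl2, hp'⟩⟩
    have h4 : ∀ l ∈ univ.filter (fun l : Ln => t • l = l ∧ l ≠ L),
        (univ.filter (fun p : P => p ∈ l ∧ p ∉ L)).card = n := by
      intro l hl
      exact card_aff (mem_filter.1 hl).2.2
    rw [sum_congr rfl h4, sum_const, smul_eq_mul, pow_two] at h3
    exact Nat.le_of_mul_le_mul_right h3 hn0
  have h3 : n + 1 ≤ (univ.filter (fun l : Ln => t • l = l)).card := by
    have h4 : insert L (univ.filter (fun l : Ln => t • l = l ∧ l ≠ L))
        ⊆ univ.filter (fun l : Ln => t • l = l) := by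
      intro l hl
      rw [mem_insert] at hl
      rcases hl with rfl | hl
      · exact mem_filter.2 ⟨mem_univ _, h.fixL t⟩
      · exact mem_filter.2 ⟨mem_univ _, (mem_filter.1 hl).2.1⟩
    have h5 := card_le_card h4
    rw [card_insert_of_notMem (by simp)] at h5
    omega
  have h4 : univ.filter (fun p : P => t • p = p) ⊆ univ.filter (fun p : P => p ∈ L) := by
    intro p hp
    have hp' := (mem_filter.1 hp).2
    refine mem_filter.2 ⟨mem_univ _, ?_⟩
    by_contra hpL
    exact ht (h.eq_one hpL hp')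
  have h5 := eq_of_subset_of_card_le h4 (by rw [card_points_on, h1]; exact h3)
  have h6 : X ∈ univ.filter (fun p : P => t • p = p) := by
    rw [h5]
    exact mem_filter.2 ⟨mem_univ _, hX⟩
  exact (mem_filter.1 h6).2

open Classical in
/-- an order on the lines, for the choice of one line of each pair `l, t l` -/
noncomputable def sg (P Ln : Type) [Fintype Ln] (f : Ln → Ln) (l : Ln) : ℤ :=
  if Fintype.equivFin Ln l < Fintype.equivFin Ln (f l) then 1 else -1

theorem sg_flip {f : Ln → Ln} (hf : ∀ l, f (f l) = l) {l : Ln} (hl : f l ≠ l) :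
    sg P Ln f (f l) = - sg P Ln f l := by
  unfold sg
  rw [hf]
  have h1 : Fintype.equivFin Ln (f l) ≠ Fintype.equivFin Ln l :=
    fun hc => hl ((Fintype.equivFin Ln).injective hc)
  rcases lt_or_gt_of_ne h1 with h2 | h2
  · rw [if_pos h2, if_neg (not_lt.2 h2.le)]
    norm_num
  · rw [if_neg (not_lt.2 h2.le), if_pos h2]

theorem sg_cases {f : Ln → Ln} (l : Ln) : sg P Ln f l = 1 ∨ sg P Ln f l = -1 := by
  unfold sg
  split_ifs
  · exact Or.inl rfl
  · exact Or.inr rfl

/-- a sum over an involution that changes the sign vanishes -/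
theorem sum_flip {α : Type} (s : Finset α) (φ : α → α) (f : α → ℤ) (h1 : ∀ a ∈ s, φ a ∈ s)
    (h2 : ∀ a ∈ s, φ (φ a) = a) (h3 : ∀ a ∈ s, f (φ a) = - f a) : ∑ a ∈ s, f a = 0 := by
  have h4 : ∑ a ∈ s, f a = ∑ a ∈ s, f (φ a) := by
    apply sum_bij' (fun a _ => φ a) (fun a _ => φ a) h1 h1 h2 h2
    intro a ha
    rw [h2 a ha]
  rw [sum_congr rfl h3, sum_neg_distrib] at h4
  linarith

/-- a plane of order greater than two with a group regular off a line: if there is an involution,
then the order is divisible by four -/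
theorem Reg.four_dvd (h : Reg P G L) {t : G} (ht : t ≠ 1) (ht2 : t * t = 1)
    (hn2 : 2 < ProjectivePlane.order P Ln) : 4 ∣ ProjectivePlane.order P Ln := by
  classical
  set n := ProjectivePlane.order P Ln with hn
  have htl : ∀ l : Ln, t • t • l = l := fun l => by rw [← mul_smul, ht2, one_smul]
  have htp : ∀ p : P, t • t • p = p := fun p => by rw [← mul_smul, ht2, one_smul]
  set σ : Ln → ℤ := sg P Ln (fun l => t • l) with hσ
  -- the points on fixed lines
  set bad : Finset P := univ.filter (fun X : P => X ∈ L ∧ ∃ l : Ln, l ≠ L ∧ X ∈ l ∧ t • l = l)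
    with hbad
  have hbadc : bad.card ≤ 1 := by
    rw [card_le_one]
    intro X hX Y hY
    obtain ⟨hXL, l, hl1, hl2, hl3⟩ := (mem_filter.1 hX).2
    obtain ⟨hYL, m, hm1, hm2, hm3⟩ := (mem_filter.1 hY).2
    by_contra hXY
    have hlm : l ≠ m := by
      rintro rfl
      exact hXY (point_unique hl1 hl2 hXL hm2 hYL)
    obtain ⟨p, hp1, hp2⟩ := exists_point (P := P) hlm
    have hpL : p ∉ L := by
      intro hpL
      apply hXY
      rw [← point_unique hl1 hp1 hpL hl2 hXL]
      exact point_unique hm1 hp2 hpL hm2 hYL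
    apply ht
    apply h.eq_one hpL
    apply point_unique hlm _ _ hp1 hp2
    · have := (h.inc t p l).1 hp1
      rwa [hl3] at this
    · have := (h.inc t p m).1 hp2
      rwa [hm3] at this
  have hgood : 2 < ((univ.filter (fun X : P => X ∈ L)) \ bad).card := by
    have h1 := le_card_sdiff bad (univ.filter (fun X : P => X ∈ L))
    rw [card_points_on] at h1
    omega
  obtain ⟨Y, hY, Z, hZ, V, hV, hYZ, hYV, hZV⟩ := two_lt_card.1 hgood
  have hprop : ∀ X ∈ (univ.filter (fun X : P => X ∈ L)) \ bad,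
      X ∈ L ∧ ∀ l : Ln, l ≠ L → X ∈ l → t • l ≠ l := by
    intro X hX
    rw [mem_sdiff, mem_filter] at hX
    refine ⟨hX.1.2, fun l hl hXl hc => hX.2 ?_⟩
    exact mem_filter.2 ⟨mem_univ _, hX.1.2, l, hl, hXl, hc⟩
  -- the line through an affine point and a point of `L`
  have hjoin : ∀ X p : P, ∃ l : Ln, X ∈ L → p ∉ L → X ∈ l ∧ p ∈ l := by
    intro X p
    by_cases hXp : X = p
    · exact ⟨L, fun h1 h2 => absurd (hXp ▸ h1) h2⟩
    · obtain ⟨l, hl⟩ := exists_line (Ln := Ln) X p hXp
      exact ⟨l, fun _ _ => hl⟩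
  choose lin hlin using hjoin
  have hlin_ne : ∀ X p : P, X ∈ L → p ∉ L → lin X p ≠ L := fun X p hX hp hc =>
    hp (hc ▸ (hlin X p hX hp).2)
  have hlin_eq : ∀ (X p : P) (l : Ln), X ∈ L → p ∉ L → X ∈ l → p ∈ l → lin X p = l := by
    intro X p l hX hp hXl hpl
    have hXp : X ≠ p := fun hc => hp (hc ▸ hX)
    exact line_unique hXp (hlin X p hX hp).1 (hlin X p hX hp).2 hXl hpl
  have hlin_t : ∀ X p : P, X ∈ L → p ∉ L → lin X (t • p) = t • lin X p := by
    intro X p hX hp
    apply hlin_eq X (t • p) _ hX ((h.off t).2 hp)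
    · have := (h.inc t X (lin X p)).1 (hlin X p hX hp).1
      rwa [h.invol_fix ht ht2 hX] at this
    · exact (h.inc t p (lin X p)).1 (hlin X p hX hp).2
  have hflip : ∀ X ∈ (univ.filter (fun X : P => X ∈ L)) \ bad, ∀ p : P, p ∉ L →
      σ (lin X (t • p)) = - σ (lin X p) := by
    intro X hX p hp
    obtain ⟨hXL, hX2⟩ := hprop X hX
    rw [hlin_t X p hXL hp]
    exact sg_flip (P := P) (f := fun l => t • l) htl
      (hX2 _ (hlin_ne X p hXL hp) (hlin X p hXL hp).1)
  set A : Finset P := univ.filter (fun p : P => p ∉ L) with hA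
  have hAmem : ∀ p, p ∈ A ↔ p ∉ L := fun p => by simp [hA]
  -- single sums
  have hs1 : ∀ X ∈ (univ.filter (fun X : P => X ∈ L)) \ bad, ∑ p ∈ A, σ (lin X p) = 0 := by
    intro X hX
    apply sum_flip A (fun p => t • p)
    · intro p hp
      exact (hAmem _).2 ((h.off t).2 ((hAmem p).1 hp))
    · intro p _
      exact htp p
    · intro p hp
      exact hflip X hX p ((hAmem p).1 hp)
  -- sums over the lines through a point
  have hs0 : ∀ X ∈ (univ.filter (fun X : P => X ∈ L)) \ bad,
      ∑ l ∈ univ.filter (fun l : Ln => X ∈ l ∧ l ≠ L), σ l = 0 := by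
    intro X hX
    obtain ⟨hXL, hX2⟩ := hprop X hX
    apply sum_flip _ (fun l => t • l)
    · intro l hl
      have hl' := (mem_filter.1 hl).2
      refine mem_filter.2 ⟨mem_univ _, ?_, h.smul_ne t hl'.2⟩
      have := (h.inc t X l).1 hl'.1
      rwa [h.invol_fix ht ht2 hXL] at this
    · intro l _
      exact htl l
    · intro l hl
      have hl' := (mem_filter.1 hl).2
      exact sg_flip (P := P) (f := fun l => t • l) htl (hX2 l hl'.2 hl'.1)
  -- double sums
  have hs2 : ∀ X ∈ (univ.filter (fun X : P => X ∈ L)) \ bad,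
      ∀ X' ∈ (univ.filter (fun X : P => X ∈ L)) \ bad, X ≠ X' →
      ∑ p ∈ A, σ (lin X p) * σ (lin X' p) = 0 := by
    intro X hX X' hX' hne
    obtain ⟨hXL, _⟩ := hprop X hX
    obtain ⟨hXL', _⟩ := hprop X' hX'
    rw [← sum_fiberwise_of_maps_to (s := A)
      (t := univ.filter (fun l : Ln => X ∈ l ∧ l ≠ L)) (g := fun p => lin X p)
      (fun p hp => mem_filter.2 ⟨mem_univ _, (hlin X p hXL ((hAmem p).1 hp)).1,
        hlin_ne X p hXL ((hAmem p).1 hp)⟩)]
    apply sum_eq_zero
    intro l hl
    have hl' := (mem_filter.1 hl).2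
    have h1 : ∑ p ∈ A.filter (fun p => lin X p = l), σ (lin X p) * σ (lin X' p)
        = σ l * ∑ p ∈ A.filter (fun p => lin X p = l), σ (lin X' p) := by
      rw [mul_sum]
      apply sum_congr rfl
      intro p hp
      rw [(mem_filter.1 hp).2]
    rw [h1]
    have h2 : ∑ p ∈ A.filter (fun p => lin X p = l), σ (lin X' p)
        = ∑ m ∈ univ.filter (fun m : Ln => X' ∈ m ∧ m ≠ L), σ m := by
      apply sum_bij (fun p _ => lin X' p)
      · intro p hp
        have hp' := (hAmem p).1 (mem_filter.1 hp).1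
        exact mem_filter.2 ⟨mem_univ _, (hlin X' p hXL' hp').1, hlin_ne X' p hXL' hp'⟩
      · intro p hp q hq hpq
        have hp' := (hAmem p).1 (mem_filter.1 hp).1
        have hq' := (hAmem q).1 (mem_filter.1 hq).1
        have hpl : p ∈ l := by
          have := (hlin X p hXL hp').2
          rwa [(mem_filter.1 hp).2] at this
        have hql : q ∈ l := by
          have := (hlin X q hXL hq').2
          rwa [(mem_filter.1 hq).2] at this
        have hpm := (hlin X' p hXL' hp').2
        have hqm : q ∈ lin X' p := by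
          rw [hpq]
          exact (hlin X' q hXL' hq').2
        apply point_unique (l := l) (m := lin X' p) _ hpl hpm hql hqm
        intro hc
        apply hne
        apply point_unique hl'.2 hl'.1 hXL _ hXL'
        rw [hc]
        exact (hlin X' p hXL' hp').1
      · intro m hm
        have hm' := (mem_filter.1 hm).2
        have hlm : l ≠ m := by
          rintro rfl
          exact hne (point_unique hl'.2 hl'.1 hXL hm'.1 hXL')
        obtain ⟨p, hp1, hp2⟩ := exists_point (P := P) hlm
        have hpL : p ∉ L := by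
          intro hpL
          apply hne
          rw [point_unique hl'.2 hl'.1 hXL hp1 hpL]
          exact point_unique hm'.2 hp2 hpL hm'.1 hXL'
        refine ⟨p, mem_filter.2 ⟨(hAmem p).2 hpL, hlin_eq X p l hXL hpL hl'.1 hp1⟩, ?_⟩
        exact hlin_eq X' p m hXL' hpL hm'.1 hp2
      · intro p _
        rfl
    rw [h2, hs0 X' hX', mul_zero]
  -- triple sum
  have hs3 : ∑ p ∈ A, σ (lin Y p) * σ (lin Z p) * σ (lin V p) = 0 := by
    apply sum_flip A (fun p => t • p)
    · intro p hp
      exact (hAmem _).2 ((h.off t).2 ((hAmem p).1 hp))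
    · intro p _
      exact htp p
    · intro p hp
      rw [hflip Y hY p ((hAmem p).1 hp), hflip Z hZ p ((hAmem p).1 hp),
        hflip V hV p ((hAmem p).1 hp)]
      ring
  have htot : ∑ p ∈ A, (1 + σ (lin Y p)) * (1 + σ (lin Z p)) * (1 + σ (lin V p)) = (n : ℤ) ^ 2 := by
    have h1 : ∀ p ∈ A, (1 + σ (lin Y p)) * (1 + σ (lin Z p)) * (1 + σ (lin V p))
        = 1 + σ (lin Y p) + σ (lin Z p) + σ (lin V p) + σ (lin Y p) * σ (lin Z p)
          + σ (lin Y p) * σ (lin V p) + σ (lin Z p) * σ (lin V p)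
          + σ (lin Y p) * σ (lin Z p) * σ (lin V p) := by
      intro p _
      ring
    rw [sum_congr rfl h1]
    simp only [sum_add_distrib]
    rw [hs1 Y hY, hs1 Z hZ, hs1 V hV, hs2 Y hY Z hZ hYZ, hs2 Y hY V hV hYV, hs2 Z hZ V hV hZV,
      hs3, sum_const, hA, card_off (P := P) L, ← hn]
    simp
  have h8 : (8 : ℤ) ∣ (n : ℤ) ^ 2 := by
    rw [← htot]
    apply dvd_sum
    intro p _
    rcases sg_cases (P := P) (f := fun l => t • l) (lin Y p) with h1 | h1 <;>
    rcases sg_cases (P := P) (f := fun l => t • l) (lin Z p) with h2 | h2 <;>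
    rcases sg_cases (P := P) (f := fun l => t • l) (lin V p) with h3 | h3 <;>
    · simp only [hσ, h1, h2, h3]
      norm_num
  have h9 : 8 ∣ n ^ 2 := by exact_mod_cast h8
  have h10 : 2 ∣ n := by
    apply Nat.prime_two.dvd_of_dvd_pow (n := 2)
    exact Dvd.dvd.trans (by norm_num) h9
  obtain ⟨k, hk⟩ := h10
  rw [hk] at h9 ⊢
  have h11 : 2 ∣ k ^ 2 := by
    obtain ⟨r, hr⟩ := h9
    exact ⟨r, by nlinarith⟩
  obtain ⟨j, hj⟩ := Nat.prime_two.dvd_of_dvd_pow h11
  exact ⟨j, by rw [hj]; ring⟩

end PPN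
end

section

section

/-! # Separation of non-squares, and parity of unitary elements -/

set_option autoImplicit false

open Configuration Finset

namespace PPN

theorem sep {A : Type} [CommGroup A] [Finite A] (M H : Subgroup A) (hHM : H ≤ M)
    (hsq : ∀ a ∈ M, a * a ∈ H) {y : A} (hyH : y ∉ H) :
    ∃ K : Subgroup A, H ≤ K ∧ K ≤ M ∧ y ∉ K ∧ (y ∈ M → ∀ a ∈ M, a ∉ K → a * y ∈ K) := by
  have hfin : Set.Finite {K : Subgroup A | H ≤ K ∧ K ≤ M ∧ y ∉ K} := Set.toFinite _
  obtain ⟨K, hK⟩ := hfin.exists_maximal ⟨H, le_rfl, hHM, hyH⟩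
  obtain ⟨hK1, hK2, hK3⟩ := hK.prop
  refine ⟨K, hK1, hK2, hK3, ?_⟩
  intro hyM a ha haK
  have haa : a * a ∈ K := hK1 (hsq a ha)
  have h1 : y ∈ K ⊔ Subgroup.zpowers a := by
    by_contra hcon
    have h2 : K ⊔ Subgroup.zpowers a ∈ {K : Subgroup A | H ≤ K ∧ K ≤ M ∧ y ∉ K} := by
      refine ⟨hK1.trans le_sup_left, sup_le hK2 ?_, hcon⟩
      rw [Subgroup.zpowers_le]
      exact ha
    have h3 := hK.le_of_ge h2 le_sup_left
    exact haK (h3 (Subgroup.mem_sup_right (Subgroup.mem_zpowers a)))
  obtain ⟨k, hk, z, hz, hkz⟩ := Subgroup.mem_sup.1 h1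
  obtain ⟨i, hi⟩ := Subgroup.mem_zpowers_iff.1 hz
  have heven : ∀ j : ℤ, a ^ (2 * j) ∈ K := by
    intro j
    rw [zpow_mul]
    apply Subgroup.zpow_mem
    have : a ^ (2 : ℤ) = a * a := by
      rw [zpow_ofNat, pow_two]
    rw [this]
    exact haa
  rcases Int.even_or_odd' i with ⟨j, hj | hj⟩
  · exfalso
    apply hK3
    rw [← hkz, ← hi, hj]
    exact K.mul_mem hk (heven j)
  · rw [← hkz, ← hi, hj]
    have h4 : a * (k * a ^ (2 * j + 1)) = k * (a ^ (2 * j) * (a * a)) := by
      rw [zpow_add, zpow_one]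
      rw [mul_left_comm, mul_left_comm a]
    rw [h4]
    exact K.mul_mem hk (K.mul_mem (heven j) haa)

/-- parity -/
theorem parity {B : Type} [CommGroup B] [Fintype B] (t : ℕ) (ht1 : 1 ≤ t)
    (ht : ∀ b : B, b ^ (2 ^ t) = b⁻¹) (F0 F1 : B → ℤ)
    (h1 : ∀ y, (4 : ℤ) ∣ ∑ x, (F0 (y * x) * F0 x + F1 (y * x) * F1 x))
    (h2 : ∀ y, (4 : ℤ) ∣ ∑ x, (F1 (y * x) * F0 x - F0 (y * x) * F1 x)) :
    (∀ x, (2 : ℤ) ∣ F0 x) ∧ ∀ x, (2 : ℤ) ∣ F1 x := by
  have : Fact (Nat.Prime 2) := ⟨Nat.prime_two⟩
  have h3 : ∀ x, (2 : ℤ) ∣ F0 x + F1 x := by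
    intro x
    have h4 := self_conj (p := 2) t ht1 ht 1 1 (by norm_num) (fun x => F0 x + F1 x) (by
      intro y
      have h5 : ∑ x, (F0 (y * x) + F1 (y * x)) * (F0 x + F1 x)
          = ∑ x, (F0 (y * x) * F0 x + F1 (y * x) * F1 x)
            + ∑ x, (F1 (y * x) * F0 x - F0 (y * x) * F1 x)
            + 2 * ∑ x, F0 (y * x) * F1 x := by
        rw [mul_sum, ← sum_add_distrib, ← sum_add_distrib]
        apply sum_congr rfl
        intro x _
        ring
      rw [h5]
      have h6 := h1 y
      have h7 := h2 y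
      push_cast
      omega) x
    simpa using h4
  choose K hK using h3
  have hF1 : ∀ x, F1 x = 2 * K x - F0 x := fun x => by linarith [hK x]
  have h4 : ∀ x, (2 : ℤ) ∣ F0 x := by
    intro x
    have h5 := self_conj (p := 2) t ht1 ht 1 1 (by norm_num) F0 (by
      intro y
      have h6 := h1 y
      have h7 := h2 y
      have h8 : ∑ x, (F0 (y * x) * F0 x + F1 (y * x) * F1 x)
          = 2 * ∑ x, F0 (y * x) * F0 x - 2 * ∑ x, K (y * x) * F0 x
            - 2 * ∑ x, F0 (y * x) * K x + 4 * ∑ x, K (y * x) * K x := by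
        rw [mul_sum, mul_sum, mul_sum, mul_sum, ← sum_sub_distrib, ← sum_sub_distrib,
          ← sum_add_distrib]
        apply sum_congr rfl
        intro x _
        rw [hF1, hF1]
        ring
      have h9 : ∑ x, (F1 (y * x) * F0 x - F0 (y * x) * F1 x)
          = 2 * ∑ x, K (y * x) * F0 x - 2 * ∑ x, F0 (y * x) * K x := by
        rw [mul_sum, mul_sum, ← sum_sub_distrib]
        apply sum_congr rfl
        intro x _
        rw [hF1, hF1]
        ring
      rw [h8] at h6
      rw [h9] at h7
      push_cast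
      omega) x
    simpa using h5
  refine ⟨h4, fun x => ?_⟩
  rw [hF1]
  exact dvd_sub (dvd_mul_right _ _) (h4 x)

end PPN
end

section

/-! # The case `4 ∣ n`, two self-conjugate -/

set_option autoImplicit false

open Configuration Finset

namespace PPN

theorem exists_non {A : Type} [CommGroup A] [Finite A] (hA : IsPGroup 2 A) (N : Subgroup A)
    (hN : N ≠ ⊤) : ∃ y, y ∉ N ⊔ (powMonoidHom 2 : A →* A).range := by
  by_contra hcon
  push Not at hcon
  have hQ : IsPGroup 2 (A ⧸ N) := hA.to_quotient N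
  have hQn : Nontrivial (A ⧸ N) := by
    by_contra hc
    rw [not_nontrivial_iff_subsingleton] at hc
    exact hN (QuotientGroup.subgroup_eq_top_of_subsingleton N hc)
  have : Fact (Nat.Prime 2) := ⟨Nat.prime_two⟩
  have h2 : 2 ∣ Nat.card (A ⧸ N) := by
    obtain ⟨k, hk0, hk⟩ := hQ.nontrivial_iff_card.1 hQn
    rw [hk]
    exact dvd_pow_self 2 hk0.ne'
  obtain ⟨x, hx⟩ := exists_prime_orderOf_dvd_card' 2 h2
  have hsurj : Function.Surjective (powMonoidHom 2 : A ⧸ N →* A ⧸ N) := by
    intro z
    obtain ⟨a, rfl⟩ := QuotientGroup.mk_surjective z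
    obtain ⟨ν, hν, w, ⟨b, rfl⟩, hab⟩ := Subgroup.mem_sup.1 (hcon a)
    refine ⟨(b : A ⧸ N), ?_⟩
    rw [← hab]
    show ((b : A ⧸ N)) ^ 2 = ((ν * b ^ 2 : A) : A ⧸ N)
    rw [QuotientGroup.mk_mul, (QuotientGroup.eq_one_iff ν).2 hν, one_mul, QuotientGroup.mk_pow]
  have hinj := Finite.injective_iff_surjective.2 hsurj
  have h3 : (powMonoidHom 2 : A ⧸ N →* A ⧸ N) x = (powMonoidHom 2 : A ⧸ N →* A ⧸ N) 1 := by
    show x ^ 2 = 1 ^ 2
    rw [one_pow, ← hx, pow_orderOf_eq_one]
  have h4 := hinj h3
  rw [h4, orderOf_one] at hx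
  norm_num at hx

/-- a cyclic quotient of order four -/
theorem exists_cyc {A : Type} [CommGroup A] [Finite A] (hA : IsPGroup 2 A) (N : Subgroup A)
    (hN : N ≠ ⊤) (hinv : ∀ a : A, a * a = 1 → a ∈ N) :
    ∃ (M K : Subgroup A) (b : A), N ≤ M ∧ K ≤ M ∧ b ∉ M ∧ b * b ∈ M ∧ b * b ∉ K ∧
      (b * b) * (b * b) ∈ K ∧ (∀ a, a ∉ M → a * b ∈ M) ∧
      ∀ a ∈ M, a ∉ K → a * (b * b) ∈ K := by
  obtain ⟨b, hb⟩ := exists_non hA N hN
  obtain ⟨M, hM1, -, hM3, hM4⟩ := sep ⊤ (N ⊔ (powMonoidHom 2 : A →* A).range) le_top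
    (fun a _ => Subgroup.mem_sup_right ⟨a, by simp [pow_two]⟩) hb
  have hM4' : ∀ a, a ∉ M → a * b ∈ M := fun a ha => hM4 (Subgroup.mem_top _) a
    (Subgroup.mem_top _) ha
  have hbb : b * b ∈ M := hM4' b hM3
  have hNM : N ≤ M := le_sup_left.trans hM1
  have hbH : b * b ∉ M.map (powMonoidHom 2 : A →* A) := by
    rintro ⟨c, hc, hcb⟩
    have hcb' : c ^ 2 = b * b := hcb
    have h1 : (b * c⁻¹) * (b * c⁻¹) = 1 := by
      rw [mul_mul_mul_comm, ← hcb', pow_two]
      simp
    have h2 := M.mul_mem (hNM (hinv _ h1)) hc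
    rw [inv_mul_cancel_right] at h2
    exact hM3 h2
  obtain ⟨K, hK1, hK2, hK3, hK4⟩ := sep M (M.map (powMonoidHom 2 : A →* A)) (by
      rintro _ ⟨c, hc, rfl⟩
      show c ^ 2 ∈ M
      exact M.pow_mem hc 2)
    (fun a ha => ⟨a, ha, by simp [pow_two]⟩) hbH
  exact ⟨M, K, b, hNM, hK2, hM3, hbb, hK3, hK4 hbb _ hbb hK3, hM4', hK4 hbb⟩

theorem sum_four {C : Type} [CommGroup C] [Fintype C] {c : C} (h1 : c * c ≠ 1)
    (hall : ∀ v : C, v = 1 ∨ v = c ∨ v = c * c ∨ v = c * c * c) (h4 : c * c * c * c = 1)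
    (g : C → ℤ) : ∑ v, g v = g 1 + g c + g (c * c) + g (c * c * c) := by
  classical
  have h0 : c ≠ 1 := by
    rintro rfl
    exact h1 (mul_one 1)
  have hc3 : c * c * c ≠ 1 := by
    intro hc
    rw [hc, one_mul] at h4
    exact h0 h4
  have huniv : (univ : Finset C) = {1, c, c * c, c * c * c} := by
    ext v
    simp only [mem_univ, mem_insert, mem_singleton, true_iff]
    exact hall v
  rw [huniv, sum_insert, sum_insert, sum_insert, sum_singleton]
  · ring
  · rw [mem_singleton]
    intro hc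
    exact h0 (mul_eq_left.1 hc.symm)
  · rw [mem_insert, mem_singleton, not_or]
    refine ⟨fun hc => h0 (mul_eq_left.1 hc.symm), fun hc => ?_⟩
    rw [mul_assoc] at hc
    exact h1 (mul_eq_left.1 hc.symm)
  · rw [mem_insert, mem_insert, mem_singleton, not_or, not_or]
    exact ⟨fun hc => h0 hc.symm, fun hc => h1 hc.symm, fun hc => hc3 hc.symm⟩

variable {P Ln G : Type} [Membership P Ln] [Fintype P] [Fintype Ln] [ProjectivePlane P Ln]
  [Group G] [Fintype G] [MulAction G P] [MulAction G Ln] {L : Ln}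

theorem Reg.autocorr_card (h : Reg P G L) {o : P} (ho : o ∉ L) {A : Type} [CommGroup A]
    [Fintype A] (πA : G →* A) {l : Ln} (hl : l ≠ L) {X : P} (hX : X ∈ L) (hXl : X ∈ l) (a : A) :
    ∑ b, cc πA o l (a * b) * cc πA o l b + Nat.card {u : G // πA u = a ∧ u • X = X}
      = Nat.card {u : G // πA u = a}
        + ProjectivePlane.order P Ln * Nat.card {u : G // πA u = a ∧ u • l = l} := by
  classical
  have h1 := h.autocorr ho πA hl hX hXl a
  rw [Nat.card_eq_fintype_card, Nat.card_eq_fintype_card, Nat.card_eq_fintype_card,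
    Fintype.card_subtype, Fintype.card_subtype, Fintype.card_subtype]
  convert h1

omit [Fintype G] in
theorem card_fib_nat {A : Type} [Group A] (π : G →* A) (z : A)
    (hz : ∃ u, π u = z) : Nat.card {u : G // π u = z} = Nat.card π.ker := by
  obtain ⟨u0, hu0⟩ := hz
  apply Nat.card_congr
  refine ⟨fun u => ⟨u0⁻¹ * u.1, ?_⟩, fun v => ⟨u0 * v.1, ?_⟩, fun u => ?_, fun v => ?_⟩
  · rw [MonoidHom.mem_ker, map_mul, map_inv, hu0, u.2, inv_mul_cancel]
  · have h1 : π v.1 = 1 := v.2
    rw [map_mul, h1, hu0, mul_one]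
  · apply Subtype.ext
    simp
  · apply Subtype.ext
    simp

theorem sq_even {w : ℤ} (hw : (2 : ℤ) ∣ w) : 2 * w ≤ w ^ 2 := by
  obtain ⟨k, rfl⟩ := hw
  by_cases hk : k ≤ 0
  · nlinarith
  · have : 1 ≤ k := by omega
    nlinarith

open Classical in
/-- the counting argument -/
theorem Reg.no_four (h : Reg P G L) {l : Ln} (hl : l ≠ L) {X : P} (hX : X ∈ L) (hXl : X ∈ l)
    (hstab : ∀ u : G, u • l = l → u = 1) {A B : Type} [CommGroup A] [Finite A] [CommGroup B]
    [Fintype B] (α : G →* A) (β : G →* B) (hα : Function.Surjective α)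
    (hβ : Function.Surjective β) (hA : IsPGroup 2 A) (t : ℕ) (ht1 : 1 ≤ t)
    (ht : ∀ b : B, b ^ (2 ^ t) = b⁻¹) (hB : Nat.Coprime 2 (Fintype.card B))
    (hinv : ∀ a : A, a * a = 1 → a ∈ (MulAction.stabilizer G X).map α)
    (hN : (MulAction.stabilizer G X).map α ≠ ⊤) (h4 : 4 ∣ ProjectivePlane.order P Ln) :
    2 * Fintype.card B ≤ ProjectivePlane.order P Ln := by
  obtain ⟨M, K, b, hNM, hKM, hbM, hbb, hbbK, hb4, hM, hK⟩ := exists_cyc hA _ hN hinv
  obtain ⟨o, ho⟩ := exists_off (P := P) L
  set n := ProjectivePlane.order P Ln with hn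
  set C := A ⧸ K with hC
  letI : Fintype C := Fintype.ofFinite C
  set q : A →* C := QuotientGroup.mk' K with hq
  set c : C := q b with hc
  have hqone : ∀ a : A, q a = 1 ↔ a ∈ K := fun a => QuotientGroup.eq_one_iff a
  have hc2 : c * c ≠ 1 := by
    rw [hc, ← map_mul]
    exact fun hh => hbbK ((hqone _).1 hh)
  have hc4 : c * c * c * c = 1 := by
    rw [hc, mul_assoc, ← map_mul, ← map_mul]
    exact (hqone _).2 hb4
  have hall : ∀ v : C, v = 1 ∨ v = c ∨ v = c * c ∨ v = c * c * c := by
    intro v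
    obtain ⟨a, rfl⟩ := QuotientGroup.mk_surjective v
    have key : ∀ a ∈ M, q a = 1 ∨ q a = c * c := by
      intro a ha
      by_cases haK : a ∈ K
      · exact Or.inl ((hqone a).2 haK)
      · right
        have h1 := (hqone _).2 (hK a ha haK)
        rw [map_mul, map_mul] at h1
        calc q a = q a * (c * c * c * c) := by rw [hc4, mul_one]
          _ = q a * (c * c) * (c * c) := by simp only [mul_assoc]
          _ = c * c := by rw [h1, one_mul]
    show q a = 1 ∨ q a = c ∨ q a = c * c ∨ q a = c * c * c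
    by_cases haM : a ∈ M
    · rcases key a haM with h1 | h1
      · exact Or.inl h1
      · exact Or.inr (Or.inr (Or.inl h1))
    · have h2 : q a = q (a * b) * (c * c * c) := by
        rw [map_mul]
        calc q a = q a * (c * c * c * c) := by rw [hc4, mul_one]
          _ = q a * q b * (c * c * c) := by
            rw [← hc]
            simp only [mul_assoc, mul_comm, mul_left_comm]
      rcases key _ (hM a haM) with h1 | h1
      · rw [h1, one_mul] at h2
        exact Or.inr (Or.inr (Or.inr h2))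
      · rw [h1] at h2
        right; left
        rw [h2]
        calc c * c * (c * c * c) = (c * c * c * c) * c := by simp only [mul_assoc]
          _ = c := by rw [hc4, one_mul]
  have hpow4 : ∀ v : C, v ^ 4 = 1 := by
    have hc4' : c ^ 4 = 1 := by
      rw [← hc4]
      simp only [pow_succ, pow_zero, one_mul]
    intro v
    rcases hall v with rfl | rfl | rfl | rfl
    · exact one_pow 4
    · exact hc4'
    · rw [mul_pow, hc4', one_mul]
    · rw [mul_pow, mul_pow, hc4', one_mul, one_mul]
  have hsum := sum_four hc2 hall hc4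
  have hcardC : Fintype.card C = 4 := by
    have h1 := hsum (fun _ => 1)
    simp only [sum_const, card_univ, nsmul_eq_mul, mul_one] at h1
    exact_mod_cast h1
  -- the homomorphism
  set π : G →* B × C := β.prod (q.comp α) with hπ
  have hBodd : Fintype.card B % 2 = 1 := by
    rw [← Nat.odd_iff]
    exact (Nat.coprime_two_left).1 hB
  obtain ⟨s, hs⟩ : ∃ s, Fintype.card B ^ 2 = 4 * s + 1 := by
    obtain ⟨k, hk⟩ : ∃ k, Fintype.card B = 2 * k + 1 := ⟨Fintype.card B / 2, by omega⟩
    exact ⟨k * (k + 1), by rw [hk]; ring⟩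
  have hpowB : ∀ (x : B) (g : ℕ), x ^ (Fintype.card B ^ 2 * g) = 1 := by
    intro x g
    rw [pow_two, mul_assoc, pow_mul, pow_card_eq_one, one_pow]
  have hpowC : ∀ v : C, v ^ (Fintype.card B ^ 2) = v := by
    intro v
    rw [hs, pow_succ, pow_mul, hpow4, one_pow, one_mul]
  have hsurj : Function.Surjective π := by
    rintro ⟨x, v⟩
    obtain ⟨g1, hg1⟩ := hβ x
    obtain ⟨a, ha⟩ := QuotientGroup.mk_surjective v
    obtain ⟨g2, hg2⟩ := hα a
    have hcop4 : Nat.Coprime 4 (Fintype.card B) := by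
      have : (4 : ℕ) = 2 ^ 2 := by norm_num
      rw [this]
      exact Nat.Coprime.pow_left 2 hB
    have h1 := Nat.ModEq.pow_totient hcop4
    have h2 : 1 ≤ 4 ^ (Fintype.card B).totient := Nat.one_le_pow _ _ (by norm_num)
    obtain ⟨j, hj⟩ := (Nat.modEq_iff_dvd' h2).1 h1.symm
    have hj' : 4 ^ (Fintype.card B).totient = Fintype.card B * j + 1 := by omega
    refine ⟨g1 ^ (4 ^ (Fintype.card B).totient) * g2 ^ (Fintype.card B ^ 2), ?_⟩
    apply Prod.ext
    · show β (g1 ^ (4 ^ (Fintype.card B).totient) * g2 ^ (Fintype.card B ^ 2)) = x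
      rw [map_mul, map_pow, map_pow, hg1, hj', pow_succ, pow_mul, pow_card_eq_one, one_pow,
        one_mul]
      have := hpowB (β g2) 1
      rw [mul_one] at this
      rw [this, mul_one]
    · show q (α (g1 ^ (4 ^ (Fintype.card B).totient) * g2 ^ (Fintype.card B ^ 2))) = v
      rw [map_mul, map_mul, map_pow, map_pow, map_pow, map_pow, hg2]
      have h3 : q (α g1) ^ 4 ^ (Fintype.card B).totient = 1 := by
        obtain ⟨r, hr⟩ : ∃ r, (Fintype.card B).totient = r + 1 :=
          ⟨(Fintype.card B).totient - 1, by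
            have := Nat.totient_pos.2 (Fintype.card_pos (α := B))
            omega⟩
        rw [hr, pow_succ', pow_mul, hpow4, one_pow]
      rw [h3, one_mul]
      have h4 : q a = v := ha
      rw [h4, hpowC]
  set κ := Nat.card π.ker with hκ
  have hκcard : Fintype.card B * 4 * κ = n ^ 2 := by
    have h1 := card_ker_of_surj π hsurj
    rw [Nat.card_prod, Nat.card_eq_fintype_card (α := B), Nat.card_eq_fintype_card (α := C),
      hcardC, Nat.card_eq_fintype_card (α := G), h.card_G] at h1
    exact h1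
  have hfib : ∀ z : B × C, Nat.card {u : G // π u = z} = κ := fun z =>
    card_fib_nat π z (hsurj z)
  -- the stabiliser of `l`
  have hfl : ∀ z : B × C, Nat.card {u : G // π u = z ∧ u • l = l}
      = if z = 1 then 1 else 0 := by
    intro z
    split_ifs with hz
    · have h3 : Nat.card {u : G // π u = z ∧ u • l = l} = Nat.card Unit := by
        apply Nat.card_congr
        refine ⟨fun _ => (), fun _ => ⟨1, by rw [hz, map_one], one_smul _ _⟩, fun u => ?_,
          fun _ => rfl⟩
        apply Subtype.ext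
        exact (hstab u.1 u.2.2).symm
      rw [h3, Nat.card_unique]
    · rw [Nat.card_eq_zero]
      left
      refine ⟨fun u => hz ?_⟩
      rw [← u.2.1, hstab u.1 u.2.2, map_one]
  -- the stabiliser of `X`
  have hUc : ∀ u : G, u • X = X → q (α u) = 1 ∨ q (α u) = c * c := by
    intro u hu
    have h1 : α u ∈ M := hNM ⟨u, MulAction.mem_stabilizer_iff.2 hu, rfl⟩
    by_cases haK : α u ∈ K
    · exact Or.inl ((hqone _).2 haK)
    · right
      have h1 := (hqone _).2 (hK _ h1 haK)
      rw [map_mul, map_mul] at h1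
      calc q (α u) = q (α u) * (c * c * c * c) := by rw [hc4, mul_one]
        _ = q (α u) * (c * c) * (c * c) := by simp only [mul_assoc]
        _ = c * c := by rw [h1, one_mul]
  obtain ⟨uu, huu⟩ : ∃ uu : B → C → ℕ, ∀ y r,
      uu y r = Nat.card {u : G // π u = (y, r) ∧ u • X = X} := ⟨_, fun _ _ => rfl⟩
  have hc0 : c ≠ 1 := by
    intro hh
    rw [hh, mul_one] at hc2
    exact hc2 rfl
  have hu1 : ∀ y, uu y c = 0 := by
    intro y
    rw [huu, Nat.card_eq_zero]
    left
    refine ⟨?_⟩
    rintro ⟨u, h3, h5⟩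
    have h6 : q (α u) = c := congrArg Prod.snd h3
    rcases hUc u h5 with h7 | h7
    · rw [h6] at h7
      exact hc0 h7
    · rw [h6] at h7
      exact hc0 (mul_eq_left.1 h7.symm)
  have hu3 : ∀ y, uu y (c * c * c) = 0 := by
    intro y
    rw [huu, Nat.card_eq_zero]
    left
    refine ⟨?_⟩
    rintro ⟨u, h3, h5⟩
    have h6 : q (α u) = c * c * c := congrArg Prod.snd h3
    rcases hUc u h5 with h7 | h7
    · rw [h6] at h7
      rw [h7, one_mul] at hc4
      exact hc0 hc4
    · rw [h6] at h7
      exact hc0 (mul_eq_left.1 h7)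
  have hcardU : Nat.card (MulAction.stabilizer G X) = n := by
    have h5 : Nat.card (MulAction.stabilizer G X)
        = (univ.filter (fun u : G => u • X = X)).card := by
      rw [Nat.card_eq_fintype_card, ← Fintype.card_coe]
      apply Fintype.card_congr
      exact Equiv.subtypeEquivRight (by
        intro u
        simp [MulAction.mem_stabilizer_iff])
    have h6 : (univ.filter (fun u : G => u • l = l)).card = 1 := by
      rw [card_eq_one]
      refine ⟨1, ?_⟩
      ext u
      simp only [mem_filter, mem_univ, true_and, mem_singleton]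
      exact ⟨hstab u, fun hh => by rw [hh, one_smul]⟩
    rw [h5, h.card_U hl hX hXl, h6, mul_one]
  have hu4 : ∀ y, (4 : ℤ) ∣ (uu y 1 : ℤ) - uu y (c * c) := by
    intro y
    by_cases hex : ∃ u0 : G, u0 • X = X ∧ q (α u0) = c * c
    · obtain ⟨u0, hu0, hu0c⟩ := hex
      set ν := u0 ^ (Fintype.card B ^ 2) with hν
      have hν1 : β ν = 1 := by
        rw [hν, map_pow]
        have := hpowB (β u0) 1
        rwa [mul_one] at this
      have hν2 : q (α ν) = c * c := by
        rw [hν, map_pow, map_pow, hpowC, hu0c]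
      have hν3 : ν • X = X := by
        have : ν ∈ MulAction.stabilizer G X :=
          Subgroup.pow_mem _ (MulAction.mem_stabilizer_iff.2 hu0) _
        exact MulAction.mem_stabilizer_iff.1 this
      have hνi : ν⁻¹ • X = X := by
        rw [inv_smul_eq_iff, hν3]
      have h5 : uu y 1 = uu y (c * c) := by
        rw [huu, huu]
        apply Nat.card_congr
        refine ⟨fun u => ⟨ν * u.1, ?_⟩, fun u => ⟨ν⁻¹ * u.1, ?_⟩, fun u => ?_, fun u => ?_⟩
        · refine ⟨?_, by rw [mul_smul, u.2.2, hν3]⟩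
          apply Prod.ext
          · show β (ν * u.1) = y
            rw [map_mul, hν1, one_mul]
            exact congrArg Prod.fst u.2.1
          · show q (α (ν * u.1)) = c * c
            rw [map_mul, map_mul, hν2]
            have : q (α u.1) = 1 := congrArg Prod.snd u.2.1
            rw [this, mul_one]
        · refine ⟨?_, by rw [mul_smul, u.2.2, hνi]⟩
          apply Prod.ext
          · show β (ν⁻¹ * u.1) = y
            rw [map_mul, map_inv, hν1, inv_one, one_mul]
            exact congrArg Prod.fst u.2.1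
          · show q (α (ν⁻¹ * u.1)) = 1
            rw [map_mul, map_mul, map_inv, map_inv, hν2]
            have : q (α u.1) = c * c := congrArg Prod.snd u.2.1
            rw [this, inv_mul_cancel]
        · apply Subtype.ext
          exact inv_mul_cancel_left _ _
        · apply Subtype.ext
          exact mul_inv_cancel_left _ _
      rw [h5, sub_self]
      exact dvd_zero _
    · push Not at hex
      have h5 : uu y (c * c) = 0 := by
        rw [huu, Nat.card_eq_zero]
        left
        refine ⟨?_⟩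
        rintro ⟨u, h3, h5⟩
        exact hex u h5 (congrArg Prod.snd h3)
      have h6 : uu y 1 = (univ.filter (fun u : G => β u = y
          ∧ u ∈ MulAction.stabilizer G X)).card := by
        rw [huu]
        have h7 : Nat.card {u : G // π u = (y, 1) ∧ u • X = X}
            = Nat.card {u : G // β u = y ∧ u ∈ MulAction.stabilizer G X} := by
          apply Nat.card_congr
          apply Equiv.subtypeEquivRight
          intro u
          rw [MulAction.mem_stabilizer_iff]
          constructor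
          · rintro ⟨h7, h8⟩
            exact ⟨congrArg Prod.fst h7, h8⟩
          · rintro ⟨h7, h8⟩
            refine ⟨Prod.ext h7 ?_, h8⟩
            exact (hUc u h8).resolve_right (hex u h8)
        rw [h7, Nat.card_eq_fintype_card, Fintype.card_subtype]
      have h7 : 2 ^ 2 ∣ uu y 1 := by
        rw [h6]
        have : Fact (Nat.Prime 2) := ⟨Nat.prime_two⟩
        exact dvd_fibre β 2 2 hB (MulAction.stabilizer G X) (by
          rw [hcardU]
          exact h4) y
      rw [h5]
      have h8 : (4 : ℤ) ∣ (uu y 1 : ℤ) := by exact_mod_cast h7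
      simpa using h8
  -- autocorrelations
  obtain ⟨f, hf⟩ : ∃ f : B → C → ℤ, ∀ x v, f x v = (cc π o l (x, v) : ℤ) :=
    ⟨fun x v => (cc π o l (x, v) : ℤ), fun _ _ => rfl⟩
  have hac : ∀ y r, ∑ x, ∑ v, f (y * x) (r * v) * f x v
      = κ + n * (if ((y, r) : B × C) = 1 then 1 else 0) - uu y r := by
    intro y r
    have h5 := h.autocorr_card ho π hl hX hXl (y, r)
    rw [hfib, hfl, Fintype.sum_prod_type, ← huu] at h5
    have h6 : ∑ x, ∑ v, f (y * x) (r * v) * f x v
        = ((∑ x, ∑ v, cc π o l ((y, r) * (x, v)) * cc π o l (x, v) : ℕ) : ℤ) := by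
      push_cast
      apply sum_congr rfl
      intro x _
      apply sum_congr rfl
      intro v _
      rw [hf, hf]
      rfl
    rw [h6]
    have h7 : ((∑ x, ∑ v, cc π o l ((y, r) * (x, v)) * cc π o l (x, v) : ℕ) : ℤ) + uu y r
        = κ + n * (if ((y, r) : B × C) = 1 then 1 else 0) := by
      exact_mod_cast h5
    linarith
  have htot : ∑ x, ∑ v, f x v = n := by
    have h5 : ∑ x, ∑ v, f x v = ((∑ z : B × C, cc π o l z : ℕ) : ℤ) := by
      rw [Fintype.sum_prod_type]
      push_cast
      apply sum_congr rfl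
      intro x _
      apply sum_congr rfl
      intro v _
      rw [hf]
    rw [h5, sum_cc, h.card_DD ho hl]
  simp only [hsum] at hac htot
  have hne1 : ∀ y : B, ((y, c * c) : B × C) ≠ 1 := fun y hh => hc2 (congrArg Prod.snd hh)
  have hnec : ∀ y : B, ((y, c) : B × C) ≠ 1 := fun y hh => hc0 (congrArg Prod.snd hh)
  have hc3 : c * c * c ≠ 1 := by
    intro hh
    rw [hh, one_mul] at hc4
    exact hc0 hc4
  have hne3 : ∀ y : B, ((y, c * c * c) : B × C) ≠ 1 := fun y hh => hc3 (congrArg Prod.snd hh)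
  have e1 : c * c * (c * c) = 1 := by rw [← hc4]; simp only [mul_assoc]
  have e2 : c * (c * c) = c * c * c := by simp only [mul_assoc]
  have e3 : c * (c * c * c) = 1 := by rw [← hc4]; simp only [mul_assoc]
  have e4 : c * c * (c * c * c) = c := by
    calc c * c * (c * c * c) = (c * c * c * c) * c := by simp only [mul_assoc]
      _ = c := by rw [hc4, one_mul]
  have e5 : c * c * c * (c * c) = c := by
    calc c * c * c * (c * c) = (c * c * c * c) * c := by simp only [mul_assoc]
      _ = c := by rw [hc4, one_mul]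
  have e6 : c * c * c * (c * c * c) = c * c := by
    calc c * c * c * (c * c * c) = (c * c * c * c) * (c * c) := by simp only [mul_assoc]
      _ = c * c := by rw [hc4, one_mul]
  have hpar := parity t ht1 ht (fun x => f x 1 - f x (c * c))
    (fun x => f x c - f x (c * c * c)) (by
      intro y
      have h5 := hac y 1
      have h6 := hac y (c * c)
      rw [if_neg (hne1 y)] at h6
      simp only [one_mul, mul_one, e1, e4, hc4] at h5 h6
      have h7 : ∑ x, ((f (y * x) 1 - f (y * x) (c * c)) * (f x 1 - f x (c * c))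
          + (f (y * x) c - f (y * x) (c * c * c)) * (f x c - f x (c * c * c)))
          = (∑ x, (f (y * x) 1 * f x 1 + f (y * x) c * f x c
              + f (y * x) (c * c) * f x (c * c) + f (y * x) (c * c * c) * f x (c * c * c)))
            - ∑ x, (f (y * x) (c * c) * f x 1 + f (y * x) (c * c * c) * f x c
              + f (y * x) 1 * f x (c * c) + f (y * x) c * f x (c * c * c)) := by
        rw [← sum_sub_distrib]
        apply sum_congr rfl
        intro x _
        ring
      rw [h7, h5, h6]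
      obtain ⟨w, hw⟩ := hu4 y
      obtain ⟨k, hk⟩ := h4
      rw [hk]
      push_cast
      split_ifs with hy
      · exact ⟨k - w, by linarith⟩
      · exact ⟨-w, by linarith⟩)
    (by
      intro y
      have h5 := hac y c
      have h6 := hac y (c * c * c)
      rw [if_neg (hnec y), hu1] at h5
      rw [if_neg (hne3 y), hu3] at h6
      simp only [mul_one, e2, e3, hc4, e5, e6] at h5 h6
      have h7 : ∑ x, ((f (y * x) c - f (y * x) (c * c * c)) * (f x 1 - f x (c * c))
          - (f (y * x) 1 - f (y * x) (c * c)) * (f x c - f x (c * c * c)))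
          = (∑ x, (f (y * x) c * f x 1 + f (y * x) (c * c) * f x c
              + f (y * x) (c * c * c) * f x (c * c) + f (y * x) 1 * f x (c * c * c)))
            - ∑ x, (f (y * x) (c * c * c) * f x 1 + f (y * x) 1 * f x c
              + f (y * x) c * f x (c * c) + f (y * x) (c * c) * f x (c * c * c)) := by
        rw [← sum_sub_distrib]
        apply sum_congr rfl
        intro x _
        ring
      rw [h7, h5, h6]
      simp)
  obtain ⟨hp0, hp1⟩ := hpar
  have h5 := hac 1 1
  have h6 := hac 1 (c * c)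
  rw [if_neg (hne1 1)] at h6
  simp only [one_mul, mul_one, e1, e4, hc4] at h5 h6
  have h7 : ∑ x, ((f x 1 + f x (c * c)) ^ 2 + (f x c + f x (c * c * c)) ^ 2)
      = 2 * κ + n * (if ((1, 1) : B × C) = 1 then 1 else 0) - uu 1 1 - uu 1 (c * c) := by
    have h8 : ∑ x, ((f x 1 + f x (c * c)) ^ 2 + (f x c + f x (c * c * c)) ^ 2)
        = (∑ x, (f x 1 * f x 1 + f x c * f x c
              + f x (c * c) * f x (c * c) + f x (c * c * c) * f x (c * c * c)))
            + ∑ x, (f x (c * c) * f x 1 + f x (c * c * c) * f x c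
              + f x 1 * f x (c * c) + f x c * f x (c * c * c)) := by
      rw [← sum_add_distrib]
      apply sum_congr rfl
      intro x _
      ring
    rw [h8, h5, h6]
    ring
  have h8 : 2 * ∑ x, (f x 1 + f x c + f x (c * c) + f x (c * c * c))
      ≤ ∑ x, ((f x 1 + f x (c * c)) ^ 2 + (f x c + f x (c * c * c)) ^ 2) := by
    rw [mul_sum]
    apply sum_le_sum
    intro x _
    have h9 : (2 : ℤ) ∣ f x 1 + f x (c * c) := by
      have h10 := hp0 x
      omega
    have h11 : (2 : ℤ) ∣ f x c + f x (c * c * c) := by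
      have h10 := hp1 x
      omega
    have h12 := sq_even h9
    have h13 := sq_even h11
    linarith
  have h9 : (n : ℤ) ≤ 2 * κ := by
    rw [htot, h7] at h8
    have h10 : (n : ℤ) * (if ((1, 1) : B × C) = 1 then 1 else 0) ≤ n := by
      split_ifs <;> simp
    have h11 : (0 : ℤ) ≤ uu 1 1 := Nat.cast_nonneg _
    have h12 : (0 : ℤ) ≤ uu 1 (c * c) := Nat.cast_nonneg _
    linarith
  have h10 : n ≤ 2 * κ := by exact_mod_cast h9
  have hn0 : 0 < n := lt_trans Nat.zero_lt_one (ProjectivePlane.one_lt_order P Ln)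
  apply Nat.le_of_mul_le_mul_right _ hn0
  calc 2 * Fintype.card B * n ≤ 2 * Fintype.card B * (2 * κ) := Nat.mul_le_mul_left _ h10
    _ = Fintype.card B * 4 * κ := by ring
    _ = n ^ 2 := hκcard
    _ = n * n := by ring

end PPN
end

section

/-! # Nilpotent groups with commutator subgroup of prime order -/

set_option autoImplicit false

open Configuration Finset

namespace PPN

section Grp

variable {G : Type} [Group G] [Finite G] {p : ℕ}

theorem comm_le_center [hnil : Group.IsNilpotent G] (hp : p.Prime)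
    (hG : Nat.card (commutator G) = p) :
    commutator G ≤ Subgroup.center G := by
  have h1 : ⁅commutator G, (⊤ : Subgroup G)⁆ ≤ commutator G := by
    rw [commutator_def]
    exact Subgroup.commutator_mono le_top le_rfl
  have h2 : Nat.card (⁅commutator G, (⊤ : Subgroup G)⁆ : Subgroup G) ∣ p := by
    rw [← hG]
    exact Subgroup.card_dvd_of_le h1
  rcases (Nat.dvd_prime hp).1 h2 with h3 | h3
  · rw [Subgroup.card_eq_one, Subgroup.commutator_eq_bot_iff_le_centralizer] at h3
    rwa [Subgroup.coe_top, Subgroup.centralizer_univ] at h3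
  · exfalso
    have h4 : ⁅commutator G, (⊤ : Subgroup G)⁆ = commutator G :=
      Subgroup.eq_of_le_of_card_ge h1 (by rw [h3, hG])
    have h5 : ∀ n : ℕ, (⊤ : Subgroup G).lowerCentralSeries (n + 1) = commutator G := by
      intro n
      induction n with
      | zero => rw [zero_add, Subgroup.top_lowerCentralSeries_one]
      | succ n ih => rw [Subgroup.lowerCentralSeries_succ, ih, h4]
    obtain ⟨n, hn⟩ := (Subgroup.isNilpotent_iff_lowerCentralSeries (⊤ : Subgroup G)).1
      ((Group.isNilpotent_top).2 hnil)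
    have h6 : (⊤ : Subgroup G).lowerCentralSeries (n + 1) = ⊥ := by
      rw [eq_bot_iff, ← hn]
      exact Subgroup.lowerCentralSeries_antitone _ (Nat.le_succ n)
    rw [h5] at h6
    rw [h6, Subgroup.card_bot] at hG
    exact hp.one_lt.ne hG

omit [Finite G] in
theorem cen_pow {x y c : G} (hyx : y * x = c * (x * y)) (hc : ∀ g : G, Commute c g) (k : ℕ) :
    (x * y) ^ k = c ^ (k.choose 2) * (x ^ k * y ^ k) := by
  have h1 : ∀ k : ℕ, y ^ k * x = c ^ k * (x * y ^ k) := by
    intro k
    induction k with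
    | zero => simp
    | succ k ih =>
      calc y ^ (k + 1) * x = y * (y ^ k * x) := by rw [pow_succ', mul_assoc]
        _ = y * (c ^ k * (x * y ^ k)) := by rw [ih]
        _ = c ^ k * ((y * x) * y ^ k) := by
            rw [← mul_assoc, ← ((hc y).pow_left k).eq]
            simp only [mul_assoc]
        _ = c ^ k * ((c * (x * y)) * y ^ k) := by rw [hyx]
        _ = c ^ (k + 1) * (x * y ^ (k + 1)) := by
            rw [pow_succ c, pow_succ' y]
            simp only [mul_assoc]
  induction k with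
  | zero => simp
  | succ k ih =>
    calc (x * y) ^ (k + 1) = (x * y) ^ k * (x * y) := pow_succ _ _
      _ = c ^ (k.choose 2) * (x ^ k * y ^ k) * (x * y) := by rw [ih]
      _ = c ^ (k.choose 2) * (x ^ k * (y ^ k * x) * y) := by simp only [mul_assoc]
      _ = c ^ (k.choose 2) * (x ^ k * (c ^ k * (x * y ^ k)) * y) := by rw [h1]
      _ = c ^ (k.choose 2) * (c ^ k * (x ^ k * (x * y ^ k)) * y) := by
          rw [← mul_assoc (x ^ k), ← ((hc (x ^ k)).pow_left k).eq]
          simp only [mul_assoc]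
      _ = c ^ ((k + 1).choose 2) * (x ^ (k + 1) * y ^ (k + 1)) := by
          rw [Nat.choose_succ_succ' k 1, Nat.choose_one_right, add_comm k, pow_add, pow_succ x,
            pow_succ y]
          simp only [mul_assoc]

theorem cen_mul_pow (hcen : commutator G ≤ Subgroup.center G) (hp : p.Prime) (hp2 : p ≠ 2)
    (hG : Nat.card (commutator G) = p) {k : ℕ} (hk : p ∣ k) (x y : G) :
    (x * y) ^ (k + 1) = x ^ (k + 1) * y ^ (k + 1) := by
  obtain ⟨c, hc, hyx⟩ := two_swap y x
  have hc1 : ∀ g : G, Commute c g := fun g => (Subgroup.mem_center_iff.1 (hcen hc) g).symm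
  rw [cen_pow hyx hc1]
  have h1 : p ∣ (k + 1).choose 2 := by
    have h2 : 2 * (k + 1).choose 2 = (k + 1) * k := by
      rw [Nat.choose_two_right, Nat.add_sub_cancel]
      have : 2 ∣ (k + 1) * k := by
        rw [mul_comm]
        exact (Nat.even_mul_succ_self k).two_dvd
      omega
    have h3 : p ∣ 2 * (k + 1).choose 2 := by
      rw [h2]
      exact Dvd.dvd.mul_left hk _
    have h4 : Nat.Coprime p 2 := (Nat.coprime_primes hp Nat.prime_two).2 hp2
    exact h4.dvd_of_dvd_mul_left h3
  have h2 : c ^ ((k + 1).choose 2) = 1 := by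
    have h3 : (⟨c, hc⟩ : commutator G) ^ Nat.card (commutator G) = 1 := pow_card_eq_one'
    rw [hG] at h3
    have h4 : c ^ p = 1 := Subtype.ext_iff.1 h3
    obtain ⟨r, hr⟩ := h1
    rw [hr, pow_mul, h4, one_pow]
  rw [h2, one_mul]

/-- the power map to the `p`-part -/
noncomputable def cenHom (hcen : commutator G ≤ Subgroup.center G) (hp : p.Prime) (hp2 : p ≠ 2)
    (hG : Nat.card (commutator G) = p) (k : ℕ) (hk : p ∣ k) : G →* G :=
  MonoidHom.mk' (fun x => x ^ (k + 1)) (cen_mul_pow hcen hp hp2 hG hk)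

theorem exists_k (hp : p.Prime) : ∃ k : ℕ, p ∣ k ∧ (ordCompl[p] (Nat.card G)) ^ (p - 1) = k + 1 := by
  have h1 : Nat.Coprime (ordCompl[p] (Nat.card G)) p :=
    (Nat.coprime_ordCompl hp Nat.card_pos.ne').symm
  have h2 := Nat.ModEq.pow_totient h1
  rw [Nat.totient_prime hp] at h2
  have h3 : 1 ≤ (ordCompl[p] (Nat.card G)) ^ (p - 1) :=
    Nat.one_le_pow _ _ (Nat.ordCompl_pos p Nat.card_pos.ne')
  refine ⟨(ordCompl[p] (Nat.card G)) ^ (p - 1) - 1, (Nat.modEq_iff_dvd' h3).1 h2.symm, by omega⟩

theorem cen_pgroup (hcen : commutator G ≤ Subgroup.center G) (hp : p.Prime) (hp2 : p ≠ 2)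
    (hG : Nat.card (commutator G) = p) {k : ℕ} (hk : p ∣ k)
    (hj : (ordCompl[p] (Nat.card G)) ^ (p - 1) = k + 1) :
    IsPGroup p (cenHom hcen hp hp2 hG k hk).range := by
  rintro ⟨y, x, rfl⟩
  refine ⟨(Nat.card G).factorization p, ?_⟩
  apply Subtype.ext
  show (x ^ (k + 1)) ^ (p ^ (Nat.card G).factorization p) = 1
  rw [← hj, ← pow_mul]
  have h0 := hp.two_le
  obtain ⟨r, hr⟩ : ∃ r, p - 1 = r + 1 := ⟨p - 2, by omega⟩
  have h := Nat.ordProj_mul_ordCompl_eq_self (Nat.card G) p
  have h1 : ordCompl[p] (Nat.card G) ^ (p - 1) * p ^ (Nat.card G).factorization p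
      = Nat.card G * ordCompl[p] (Nat.card G) ^ r := by
    rw [hr]
    calc ordCompl[p] (Nat.card G) ^ (r + 1) * p ^ (Nat.card G).factorization p
        = (p ^ (Nat.card G).factorization p * ordCompl[p] (Nat.card G))
            * ordCompl[p] (Nat.card G) ^ r := by ring
      _ = Nat.card G * ordCompl[p] (Nat.card G) ^ r := by rw [h]
  rw [h1, pow_mul, pow_card_eq_one', one_pow]

open Classical in
theorem kk_cen [Fintype G] (hcen : commutator G ≤ Subgroup.center G) (hp : p.Prime) (hp2 : p ≠ 2)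
    (hG : Nat.card (commutator G) = p) {k : ℕ} (hk : p ∣ k) :
    kk (cenHom hcen hp hp2 hG k hk).rangeRestrict (pA G p) ≤ 1 := by
  unfold kk
  rw [card_le_one_iff_subset_singleton]
  refine ⟨1, ?_⟩
  intro g hg
  simp only [mem_filter, mem_univ, true_and] at hg
  obtain ⟨h1, h2⟩ := hg
  rw [pA_eq_one] at h2
  have h3 : g ^ (k + 1) = 1 := Subtype.ext_iff.1 h1
  have h4 : (Abelianization.of g) ^ (k + 1) = 1 := by rw [← map_pow, h3, map_one]
  have h0 : Nat.Coprime p (k + 1) := by
    obtain ⟨r, rfl⟩ := hk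
    rw [Nat.coprime_mul_left_add_right]
    exact Nat.coprime_one_right p
  have h5 : Nat.Coprime (vv G p) (k + 1) := Nat.Coprime.pow_left _ h0
  have h6 : (Abelianization.of g : Abelianization G) = 1 := by
    rw [← orderOf_eq_one_iff]
    exact Nat.eq_one_of_dvd_coprimes h5 (orderOf_dvd_of_pow_eq_one h2)
      (orderOf_dvd_of_pow_eq_one h4)
  have h7 : g ∈ commutator G := by
    rw [← Abelianization.ker_of, MonoidHom.mem_ker, h6]
  have h8 : g ^ p = 1 := by
    have h3 : (⟨g, h7⟩ : commutator G) ^ Nat.card (commutator G) = 1 := pow_card_eq_one'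
    rw [hG] at h3
    exact Subtype.ext_iff.1 h3
  rw [mem_singleton, ← orderOf_eq_one_iff]
  exact Nat.eq_one_of_dvd_coprimes h0 (orderOf_dvd_of_pow_eq_one h8)
    (orderOf_dvd_of_pow_eq_one h3)

theorem vv_self (hp : p.Prime) (hG : Nat.card (commutator G) = p) :
    Nat.card (commutator G) * vv G p = ordProj[p] (Nat.card G) := by
  rw [card_G_eq (G := G), Nat.ordProj_mul p Nat.card_pos.ne' Nat.card_pos.ne', hG,
    hp.factorization_self, pow_one, mul_comm]
  rfl

theorem vv_other (hp : p.Prime) (hG : Nat.card (commutator G) = p) {q : ℕ} (hq : q.Prime)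
    (hqp : q ≠ p) : vv G q = ordProj[q] (Nat.card G) := by
  rw [card_G_eq (G := G), Nat.ordProj_mul q Nat.card_pos.ne' Nat.card_pos.ne', hG,
    Nat.factorization_eq_zero_of_not_dvd
      (fun h => hqp ((Nat.prime_dvd_prime_iff_eq hq hp).1 h)), pow_zero, mul_one]
  rfl

end Grp

variable {P Ln G : Type} [Membership P Ln] [Fintype P] [Fintype Ln] [ProjectivePlane P Ln]
  [Group G] [Fintype G] [MulAction G P] [MulAction G Ln] {L : Ln}

/-- the inequality for the prime `p = |G'|` -/
theorem Reg.cen_p (h : Reg P G L) {p : ℕ} (hp : p.Prime) (hp2 : p ≠ 2)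
    (hcen : commutator G ≤ Subgroup.center G) (hG : Nat.card (commutator G) = p) :
    p ∣ ProjectivePlane.order P Ln ∧ p * (ProjectivePlane.order P Ln + 1)
      ≤ ProjectivePlane.order P Ln + (ordProj[p] (ProjectivePlane.order P Ln)) ^ 2 := by
  have : Fact p.Prime := ⟨hp⟩
  have hcG : Nat.card G = ProjectivePlane.order P Ln ^ 2 := by
    rw [Nat.card_eq_fintype_card, h.card_G]
  have hpn : p ∣ ProjectivePlane.order P Ln := by
    apply hp.dvd_of_dvd_pow (n := 2)
    rw [← hcG, card_G_eq (G := G), hG]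
    exact dvd_mul_left _ _
  refine ⟨hpn, ?_⟩
  obtain ⟨k, hk, hj⟩ := exists_k (G := G) hp
  have h1 := h.ineq hpn (cen_pgroup hcen hp hp2 hG hk hj) (ww G p).totient
    (Nat.totient_pos.2 ww_pos) (pow_pA' hp) (cenHom hcen hp hp2 hG k hk).rangeRestrict (pA G p)
  have h2 := card_pA_one (G := G) hp
  have h3 := kk_cen (G := G) hcen hp hp2 hG hk
  rw [vv_self hp hG, hcG, ordProj_sq] at h2
  have h5 := Nat.mul_le_mul_right (ProjectivePlane.order P Ln + 1) h3
  rw [add_mul] at h1
  omega

end PPN
end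

section

/-! # Nilpotent groups with commutator subgroup of prime order: the theorem -/

set_option autoImplicit false

open Configuration Finset

namespace PPN

/-- an even order modulo `p` gives `-1` as a power modulo the powers of `p` -/
theorem exists_neg {p q : ℕ} (hp : p.Prime) (hp2 : p ≠ 2) (hqp : ¬ p ∣ q)
    (ho : ¬ Odd (orderOf (q : ZMod p))) (j : ℕ) : ∃ t, 1 ≤ t ∧ p ^ j ∣ q ^ t + 1 := by
  have : Fact p.Prime := ⟨hp⟩
  have hodd : Odd p := hp.odd_of_ne_two hp2
  rw [Nat.not_odd_iff_even] at ho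
  obtain ⟨k, hk⟩ := ho
  have hq0 : (q : ZMod p) ≠ 0 := by
    intro hc
    exact hqp ((ZMod.natCast_eq_zero_iff _ _).1 hc)
  have hpos : 0 < orderOf (q : ZMod p) := by
    rw [orderOf_pos_iff, isOfFinOrder_iff_pow_eq_one]
    exact ⟨p - 1, by have := hp.one_lt; omega, ZMod.pow_card_sub_one_eq_one hq0⟩
  have hk1 : 1 ≤ k := by omega
  have h1 : ((q : ZMod p) ^ k) ^ 2 = 1 := by
    rw [← pow_mul, mul_comm, two_mul, ← hk, pow_orderOf_eq_one]
  have h2 : (q : ZMod p) ^ k ≠ 1 := by
    intro hc
    have := orderOf_dvd_of_pow_eq_one hc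
    have := Nat.le_of_dvd (by omega) this
    omega
  have h3 : (q : ZMod p) ^ k = -1 := by
    rw [pow_two] at h1
    rcases mul_self_eq_one_iff.1 h1 with h4 | h4
    · exact absurd h4 h2
    · exact h4
  have h4 : (p : ℤ) ∣ (q : ℤ) ^ k - (-1) := by
    rw [← ZMod.intCast_zmod_eq_zero_iff_dvd (b := p)]
    push_cast
    rw [h3]
    ring
  have h5 := dvd_sub_pow_of_dvd_sub h4 j
  refine ⟨k * p ^ j, Nat.mul_pos hk1 (pow_pos hp.pos j), ?_⟩
  have h6 : ((-1 : ℤ)) ^ (p ^ j) = -1 := Odd.neg_one_pow (hodd.pow)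
  rw [h6, ← pow_mul, sub_neg_eq_add] at h5
  have h7 : p ^ (j + 1) ∣ q ^ (k * p ^ j) + 1 := by exact_mod_cast h5
  exact (pow_dvd_pow p (Nat.le_succ j)).trans h7

variable {P Ln G : Type} [Membership P Ln] [Fintype P] [Fintype Ln] [ProjectivePlane P Ln]
  [Group G] [Fintype G] [MulAction G P] [MulAction G Ln] {L : Ln}

theorem pow_pQ {G : Type} [Group G] [Finite G] {q : ℕ}
    (a : (powMonoidHom (ww G q) : Abelianization G →* Abelianization G).range) :
    a ^ vv G q = 1 := by
  obtain ⟨y, hy⟩ := a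
  obtain ⟨x, rfl⟩ := hy
  apply Subtype.ext
  show (x ^ ww G q) ^ vv G q = 1
  rw [← pow_mul, mul_comm, pow_all]

theorem arith1 {p q s m : ℕ} (hp : 3 ≤ p) (hq : 3 ≤ q) (hm : 0 < m) (h1 : (p - 1) * m < s)
    (h2 : q * (s * m + 1) ≤ s * m + p * m ^ 2) : False := by
  obtain ⟨p', rfl⟩ : ∃ p', p = p' + 3 := ⟨p - 3, by omega⟩
  obtain ⟨q', rfl⟩ : ∃ q', q = q' + 3 := ⟨q - 3, by omega⟩
  have h3 : (p' + 3 - 1) * m + 1 ≤ s := h1
  rw [show p' + 3 - 1 = p' + 2 by omega] at h3
  have h4 : ((p' + 2) * m + 1) * m ≤ s * m := Nat.mul_le_mul_right m h3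
  have h5 : 2 * (s * m) ≤ (p' + 3) * m ^ 2 := by nlinarith [Nat.zero_le (q' * (s * m))]
  nlinarith [Nat.zero_le (p' * m ^ 2)]

theorem Reg.nil_prime (h : Reg P G L) [hnil : Group.IsNilpotent G] {p : ℕ} (hp : p.Prime)
    (hG : Nat.card (commutator G) = p) :
    IsPrimePow (ProjectivePlane.order P Ln) ∨ ∃ a m : ℕ, ProjectivePlane.order P Ln = p ^ a * m ∧
      1 ≤ a ∧ 1 < m ∧ Nat.Coprime p m ∧ (p - 1) * m < p ^ a ∧
      ∀ q : ℕ, q.Prime → q ∣ m → q < p ∧ Odd (orderOf (q : ZMod p)) := by
  have : Fact p.Prime := ⟨hp⟩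
  by_cases hp2 : p = 2
  · left
    apply h.comm_two
    omega
  by_cases hnp : IsPrimePow (ProjectivePlane.order P Ln)
  · exact Or.inl hnp
  right
  have hp3 : 3 ≤ p := by
    have := hp.two_le
    omega
  have hn0 : ProjectivePlane.order P Ln ≠ 0 :=
    (lt_trans Nat.zero_lt_one (ProjectivePlane.one_lt_order P Ln)).ne'
  have hcG : Nat.card G = ProjectivePlane.order P Ln ^ 2 := by
    rw [Nat.card_eq_fintype_card, h.card_G]
  have hcen := comm_le_center (G := G) hp hG
  obtain ⟨hpn, h1⟩ := h.cen_p hp hp2 hcen hG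
  have h2 := Nat.ordProj_mul_ordCompl_eq_self (ProjectivePlane.order P Ln) p
  have hhall := h.hall hnp ⊤
  set n := ProjectivePlane.order P Ln with hn
  set s := ordProj[p] n with hs
  set m := ordCompl[p] n with hm
  have hm0 : 0 < m := Nat.ordCompl_pos p hn0
  have hs0 : 0 < s := Nat.ordProj_pos n p
  obtain ⟨k, hk⟩ : ∃ k, p = k + 3 := ⟨p - 3, by omega⟩
  have h3 : (p - 1) * m < s := by
    have h4 : s * ((p - 1) * m) < s * s := by
      rw [← h2] at h1
      rw [hk] at h1 ⊢
      rw [show k + 3 - 1 = k + 2 by omega]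
      nlinarith
    exact Nat.lt_of_mul_lt_mul_left h4
  have hm1 : 1 < m := by
    by_contra hcon
    have h4 : m = 1 := by omega
    rw [h4, mul_one] at h2
    apply hnp
    rw [← h2, hs]
    exact hp.isPrimePow.pow (Nat.Prime.factorization_pos_of_dvd hp hn0 hpn).ne'
  have hvv : p * vv G p = s ^ 2 := by
    have h4 := vv_self hp hG
    rw [hG, hcG, ordProj_sq] at h4
    exact h4
  have hcardB := card_range_Q (G := G) hp
  letI : Fintype (powMonoidHom (ww G p) : Abelianization G →* Abelianization G).range :=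
    Fintype.ofFinite _
  have hcardB' : Fintype.card (powMonoidHom (ww G p) : Abelianization G →* Abelianization G).range
      = vv G p := by
    rw [← Nat.card_eq_fintype_card, hcardB]
  refine ⟨n.factorization p, m, h2.symm, Nat.Prime.factorization_pos_of_dvd hp hn0 hpn, hm1,
    Nat.coprime_ordCompl hp hn0, h3, ?_⟩
  intro q hq hqm
  have hqp : q ≠ p := by
    rintro rfl
    exact Nat.not_dvd_ordCompl hp hn0 hqm
  have hqn : q ∣ n := hqm.trans (Nat.ordCompl_dvd n p)
  constructor
  · have h4 := h.general hq hqn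
    have h5 := h.vv_le q
    rw [← hn] at h4 h5
    have h6 : ordProj[q] n ≤ m := by
      apply Nat.le_of_dvd hm0
      have h7 : Nat.Coprime (ordProj[q] n) s :=
        Nat.Coprime.pow _ _ ((Nat.coprime_primes hq hp).2 hqp)
      apply h7.dvd_of_dvd_mul_left
      rw [h2]
      exact Nat.ordProj_dvd n q
    have h7 : (p - 1) * vv G q < n := by
      have h8 : vv G q ≤ m * m := by
        refine h5.trans ?_
        rw [pow_two]
        exact Nat.mul_le_mul h6 h6
      calc (p - 1) * vv G q ≤ (p - 1) * (m * m) := Nat.mul_le_mul_left _ h8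
        _ = (p - 1) * m * m := by ring
        _ < s * m := Nat.mul_lt_mul_of_pos_right h3 hm0
        _ = n := h2
    have h8 : (p - 1) * (n + 1 + vv G q) ≤ p * (n + 1) := by
      rw [hk] at h7 ⊢
      rw [show k + 3 - 1 = k + 2 by omega] at h7 ⊢
      nlinarith
    have h9 : (p - 1) * q * (n + 1) < p * p * (n + 1) := by
      have hp1 : 0 < p - 1 := by omega
      rw [hG] at h4
      calc (p - 1) * q * (n + 1) = (p - 1) * (q * (n + 1)) := by ring
        _ < (p - 1) * (p * (n + 1 + vv G q)) :=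
          Nat.mul_lt_mul_of_pos_left h4 hp1
        _ = p * ((p - 1) * (n + 1 + vv G q)) := by ring
        _ ≤ p * (p * (n + 1)) := Nat.mul_le_mul_left _ h8
        _ = _ := by ring
    have h10 : (p - 1) * q < p * p := Nat.lt_of_mul_lt_mul_right h9
    by_contra hcon
    have h11 : q = p + 1 := by
      rw [hk] at h10 hcon hqp ⊢
      rw [show k + 3 - 1 = k + 2 by omega] at h10
      by_contra h12
      have h13 : k + 5 ≤ q := by omega
      nlinarith
    have h12 : Odd p := hp.odd_of_ne_two hp2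
    have h13 : q ≠ 2 := by omega
    have h14 : Odd q := hq.odd_of_ne_two h13
    rw [h11] at h14
    exact (Nat.not_odd_iff_even.2 h12.add_one) h14
  · by_contra hodd
    have hpq : ¬ p ∣ q := fun hc => hqp ((Nat.prime_dvd_prime_iff_eq hp hq).1 hc).symm
    obtain ⟨t, ht1, ht2⟩ := exists_neg hp hp2 hpq hodd
      ((Nat.card (Abelianization G)).factorization p)
    have htB : ∀ b : (powMonoidHom (ww G p) : Abelianization G →* Abelianization G).range,
        b ^ (q ^ t) = b⁻¹ := by
      intro b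
      rw [eq_inv_iff_mul_eq_one, ← pow_succ]
      obtain ⟨r, hr⟩ := ht2
      rw [hr, pow_mul]
      have h4 : b ^ (p ^ (Nat.card (Abelianization G)).factorization p) = 1 := pow_pQ b
      rw [h4, one_pow]
    have hcopB : Nat.Coprime q (Fintype.card
        (powMonoidHom (ww G p) : Abelianization G →* Abelianization G).range) := by
      rw [hcardB']
      exact Nat.Coprime.pow_right _ ((Nat.coprime_primes hq hp).2 hqp)
    by_cases hq2 : q = 2
    · subst hq2
      -- an involution
      have : Fact (Nat.Prime 2) := ⟨Nat.prime_two⟩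
      have h2G : 2 ∣ Nat.card G := by
        rw [hcG]
        exact Dvd.dvd.pow hqn (by norm_num)
      obtain ⟨τ, hτ⟩ := exists_prime_orderOf_dvd_card' 2 h2G
      have hτ1 : τ ≠ 1 := by
        rintro rfl
        rw [orderOf_one] at hτ
        norm_num at hτ
      have hτ2 : τ * τ = 1 := by
        rw [← pow_two, ← hτ, pow_orderOf_eq_one]
      have hn2 : 2 < n := by
        rw [← h2]
        nlinarith
      have h4n := h.four_dvd hτ1 hτ2 hn2
      have hnilT : Group.IsNilpotent (⊤ : Subgroup G) := (Group.isNilpotent_top).2 hnil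
      obtain ⟨X0, hX0, -, -, hX0l⟩ := hhall (by rw [Subgroup.index_top]; exact Nat.coprime_one_right _)
        (by
          intro hc
          have h5 : Nat.card (⊤ : Subgroup G) = 1 := by rw [hc, Subgroup.card_bot]
          rw [Subgroup.card_top, hcG] at h5
          nlinarith)
      -- a line off `X0`
      obtain ⟨o, ho⟩ := exists_off (P := P) L
      have hexX : ∃ X : P, X ∈ L ∧ X ≠ X0 := by
        classical
        have h5 := card_points_on (P := P) L
        by_contra hcon
        push Not at hcon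
        have h6 : (univ.filter (fun p : P => p ∈ L)) ⊆ {X0} := by
          intro X hX
          rw [mem_singleton]
          exact hcon X (mem_filter.1 hX).2
        have h7 := card_le_card h6
        rw [h5, card_singleton] at h7
        omega
      obtain ⟨X, hX, hXX⟩ := hexX
      obtain ⟨l, hl1, hl2⟩ := exists_line (Ln := Ln) X o (fun hc => ho (hc ▸ hX))
      have hlL : l ≠ L := fun hc => ho (hc ▸ hl2)
      have hlX0 : X0 ∉ l := fun hc => hXX (point_unique hlL hl1 hX hc hX0)
      have hstab : ∀ u : G, u • l = l → u = 1 := fun u hu => hX0l l hlX0 u (Subgroup.mem_top _) hu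
      have hcA := card_range_Q (G := G) Nat.prime_two
      have hvv2 : vv G 2 = (ordProj[2] n) ^ 2 := by
        rw [vv_other hp hG Nat.prime_two hqp, hcG, ordProj_sq]
      have hkα : Nat.card (pQ G 2).ker = ordCompl[2] (Nat.card G) := by
        have h5 := card_ker_of_surj (pQ G 2) surj_pQ
        rw [hcA, vv_other hp hG Nat.prime_two hqp] at h5
        have h6 := Nat.ordProj_mul_ordCompl_eq_self (Nat.card G) 2
        exact Nat.eq_of_mul_eq_mul_left (Nat.ordProj_pos (Nat.card G) 2) (h5.trans h6.symm)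
      have hkodd : Nat.card (pQ G 2).ker % 2 = 1 := by
        rw [hkα, ← Nat.odd_iff]
        exact (Nat.coprime_two_left).1 (Nat.coprime_ordCompl Nat.prime_two Nat.card_pos.ne')
      have hres := h.no_four hlL hX hl1 hstab (pQ G 2) (pQ G p) surj_pQ surj_pQ
        (isPGroup_pQ (G := G) (q := 2)) t ht1 htB hcopB (by
          intro a ha
          by_cases ha1 : a = 1
          · rw [ha1]
            exact Subgroup.one_mem _
          · obtain ⟨g, hg⟩ := surj_pQ (G := G) (q := 2) a
            refine ⟨g ^ Nat.card (pQ G 2).ker, ?_, ?_⟩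
            · have h5 : (g * g) ∈ (pQ G 2).ker := by
                rw [MonoidHom.mem_ker, map_mul, hg, ha]
              have h6 : (⟨g * g, h5⟩ : (pQ G 2).ker) ^ Nat.card (pQ G 2).ker = 1 :=
                pow_card_eq_one'
              have h7 : (g * g) ^ Nat.card (pQ G 2).ker = 1 := Subtype.ext_iff.1 h6
              have h8 : g ^ Nat.card (pQ G 2).ker * g ^ Nat.card (pQ G 2).ker = 1 := by
                rw [← (Commute.refl g).mul_pow, h7]
              refine MulAction.mem_stabilizer_iff.2 (h.invol_fix ?_ h8 hX)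
              intro h9
              apply ha1
              have h10 := congrArg (pQ G 2) h9
              rw [map_pow, hg, map_one] at h10
              obtain ⟨r, hr⟩ : ∃ r, Nat.card (pQ G 2).ker = 2 * r + 1 :=
                ⟨Nat.card (pQ G 2).ker / 2, by omega⟩
              rw [hr, pow_succ, pow_mul, pow_two, ha, one_pow, one_mul] at h10
              exact h10
            · rw [map_pow, hg]
              obtain ⟨r, hr⟩ : ∃ r, Nat.card (pQ G 2).ker = 2 * r + 1 :=
                ⟨Nat.card (pQ G 2).ker / 2, by omega⟩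
              rw [hr, pow_succ, pow_mul, pow_two, ha, one_pow, one_mul]) (by
          intro htop
          have h5 : Nat.card ((MulAction.stabilizer G X).map (pQ G 2))
              ∣ Nat.card (MulAction.stabilizer G X) := Subgroup.card_map_dvd _ _
          have h6 : Nat.card (MulAction.stabilizer G l) = 1 := by
            rw [Subgroup.card_eq_one, eq_bot_iff]
            intro u hu
            rw [Subgroup.mem_bot]
            exact hstab u (MulAction.mem_stabilizer_iff.1 hu)
          rw [htop, Subgroup.card_top, hcA, hvv2, h.card_stab_point hlL hX hl1, h6, mul_one,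
            ← hn, ← pow_mul, Nat.Prime.pow_dvd_iff_le_factorization Nat.prime_two hn0] at h5
          have h7 := Nat.Prime.factorization_pos_of_dvd Nat.prime_two hn0 hqn
          omega) h4n
      rw [hcardB', ← hn, ← h2] at hres
      have h5 : 2 * s ≤ p * m := by
        have h6 : s * (2 * s) ≤ s * (p * m) := by nlinarith
        exact Nat.le_of_mul_le_mul_left h6 hs0
      rw [hk] at h3 h5
      rw [show k + 3 - 1 = k + 2 by omega] at h3
      nlinarith
    · have hq3 : 3 ≤ q := by
        have := hq.two_le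
        omega
      have : Fact q.Prime := ⟨hq⟩
      have h4 := h.ineq_conj (p := q) (pQ G p) 1 1 t ht1 htB (by rw [pow_one]; exact hqn) hcopB
        (by norm_num)
      have h5 := card_ker_of_surj (pQ G p) surj_pQ
      rw [hcardB, hcG] at h5
      have h6 : Nat.card (pQ G p).ker = p * m ^ 2 := by
        have h7 : s ^ 2 * Nat.card (pQ G p).ker = s ^ 2 * (p * m ^ 2) := by
          calc s ^ 2 * Nat.card (pQ G p).ker = p * (vv G p * Nat.card (pQ G p).ker) := by
                rw [← hvv]; ring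
            _ = p * n ^ 2 := by rw [h5]
            _ = s ^ 2 * (p * m ^ 2) := by rw [← h2]; ring
        exact Nat.eq_of_mul_eq_mul_left (pow_pos hs0 2) h7
      rw [h6, pow_one, ← hn, ← h2] at h4
      exact arith1 hp3 hq3 hm0 h3 h4

/-- the primes `2 ^ k + 1` -/
theorem Reg.nil_fermat (h : Reg P G L) [hnil : Group.IsNilpotent G] {p : ℕ} (hp : p.Prime)
    (hG : Nat.card (commutator G) = p) :
    IsPrimePow (ProjectivePlane.order P Ln) ∨ (∀ k : ℕ, p ≠ 2 ^ k + 1) ∧
      ∃ a m : ℕ, ProjectivePlane.order P Ln = p ^ a * m ∧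
      1 ≤ a ∧ 1 < m ∧ Nat.Coprime p m ∧ (p - 1) * m < p ^ a ∧
      ∀ q : ℕ, q.Prime → q ∣ m → q < p ∧ Odd (orderOf (q : ZMod p)) := by
  rcases h.nil_prime hp hG with h1 | ⟨a, m, h1, h2, h3, h4, h5, h6⟩
  · exact Or.inl h1
  right
  refine ⟨?_, a, m, h1, h2, h3, h4, h5, h6⟩
  intro k hk
  have : Fact p.Prime := ⟨hp⟩
  obtain ⟨q, hq, hqm⟩ := Nat.exists_prime_and_dvd h3.ne'
  obtain ⟨h7, h8⟩ := h6 q hq hqm
  have hq0 : (q : ZMod p) ≠ 0 := by
    intro hc
    have := Nat.le_of_dvd hq.pos ((ZMod.natCast_eq_zero_iff _ _).1 hc)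
    omega
  have h9 : orderOf (q : ZMod p) ∣ 2 ^ k := by
    have h10 := orderOf_dvd_of_pow_eq_one (ZMod.pow_card_sub_one_eq_one hq0)
    have h11 : p - 1 = 2 ^ k := by omega
    rwa [h11] at h10
  obtain ⟨i, _, hi⟩ := (Nat.dvd_prime_pow Nat.prime_two).1 h9
  have hi0 : i = 0 := by
    by_contra hi0
    rw [hi] at h8
    exact (Nat.not_odd_iff_even.2 ((even_two).pow_of_ne_zero hi0)) h8
  rw [hi0, pow_zero, orderOf_eq_one_iff] at hi
  have h11 : ((q : ℕ) : ZMod p) = ((1 : ℕ) : ZMod p) := by
    rw [hi, Nat.cast_one]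
  rw [ZMod.natCast_eq_natCast_iff', Nat.mod_eq_of_lt h7, Nat.mod_eq_of_lt hp.one_lt] at h11
  exact hq.one_lt.ne' h11

end PPN
end
end
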